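import Mathlib

set_option autoImplicit false

/-!
Shared definitions for the Euler problem: classical periodic solutions and the vorticity.
-/

namespace Pool.Agent.Work.MP_b0497c_an

open Set

/-- Three dimensional Euclidean space. -/
abbrev E3 : Type := EuclideanSpace ℝ (Fin 3)

/-- The standard basis vector. -/
noncomputable def e (i : Fin 3) : EuclideanSpace ℝ (Fin 3) := EuclideanSpace.single i (1 : ℝ)

/-- `f` has period `2 * pi` in each of the three coordinates, i.e. is a function on the torus. -/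
def Periodic3 {F : Type} (f : EuclideanSpace ℝ (Fin 3) → F) : Prop :=
  ∀ (i : Fin 3) (x : EuclideanSpace ℝ (Fin 3)), f (x + (2 * Real.pi) • e i) = f x

/-- A classical solution of the incompressible Euler equations on the torus, on the time
interval `[0, T)`: `u` and `p` are continuously differentiable in `(t, x)`, periodic in `x`,
and `∂ₜ u + (u · ∇) u = - ∇ p`, `div u = 0` hold pointwise. -/
structure IsClassicalSolution (T : ℝ)
    (u : ℝ → EuclideanSpace ℝ (Fin 3) → EuclideanSpace ℝ (Fin 3))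
    (p : ℝ → EuclideanSpace ℝ (Fin 3) → ℝ) : Prop where
  periodic_u : ∀ t ∈ Ico 0 T, Periodic3 (u t)
  periodic_p : ∀ t ∈ Ico 0 T, Periodic3 (p t)
  contDiff_u : ContDiffOn ℝ 1 (fun z : ℝ × EuclideanSpace ℝ (Fin 3) => u z.1 z.2)
    (Ico 0 T ×ˢ univ)
  contDiff_p : ContDiffOn ℝ 1 (fun z : ℝ × EuclideanSpace ℝ (Fin 3) => p z.1 z.2)
    (Ico 0 T ×ˢ univ)
  momentum : ∀ t ∈ Ico 0 T, ∀ x, derivWithin (fun s => u s x) (Ico 0 T) t
    + fderiv ℝ (u t) x (u t x) = - gradient (p t) x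
  div_free : ∀ t ∈ Ico 0 T, ∀ x,
    LinearMap.trace ℝ (EuclideanSpace ℝ (Fin 3)) (fderiv ℝ (u t) x) = 0

/-- The axial vector of `A - Aᵀ`: if `A = ∇u`, i.e. `(A (e j)) i = ∂ⱼ uᵢ`, this is `curl u`. -/
noncomputable def axial (A : EuclideanSpace ℝ (Fin 3) →L[ℝ] EuclideanSpace ℝ (Fin 3)) :
    EuclideanSpace ℝ (Fin 3) :=
  !₂[(A (e 1)) 2 - (A (e 2)) 1, (A (e 2)) 0 - (A (e 0)) 2, (A (e 0)) 1 - (A (e 1)) 0]

/-- The vorticity `curl v`. -/
noncomputable def curl (v : EuclideanSpace ℝ (Fin 3) → EuclideanSpace ℝ (Fin 3))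
    (x : EuclideanSpace ℝ (Fin 3)) : EuclideanSpace ℝ (Fin 3) := axial (fderiv ℝ v x)

end Pool.Agent.Work.MP_b0497c_an
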