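import Mathlib
import Pool.Agent.Work.MP_b0497c_an.Defs

set_option autoImplicit false

namespace Pool.Agent.Work.MP_b0497c_an

open Set RealInnerProductSpace

theorem inner_eq (x y : E3) : ⟪x, y⟫ = x 0 * y 0 + x 1 * y 1 + x 2 * y 2 := by
  rw [PiLp.inner_apply, Fin.sum_univ_three]
  simp
  ring

theorem norm_sq_eq (x : E3) : ‖x‖ ^ 2 = x 0 ^ 2 + x 1 ^ 2 + x 2 ^ 2 := by
  rw [← real_inner_self_eq_norm_sq, inner_eq]
  ring

theorem expand (x : E3) : x = x 0 • e 0 + x 1 • e 1 + x 2 • e 2 := by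
  ext i
  fin_cases i <;> simp [e]

theorem apply_expand (A : E3 →L[ℝ] E3) (x : E3) (i : Fin 3) :
    (A x) i = x 0 * (A (e 0)) i + x 1 * (A (e 1)) i + x 2 * (A (e 2)) i := by
  conv_lhs => rw [expand x]
  simp only [map_add, map_smul]
  simp

theorem axial_zero (A : E3 →L[ℝ] E3) : axial A 0 = (A (e 1)) 2 - (A (e 2)) 1 := rfl
theorem axial_one (A : E3 →L[ℝ] E3) : axial A 1 = (A (e 2)) 0 - (A (e 0)) 2 := rfl
theorem axial_two (A : E3 →L[ℝ] E3) : axial A 2 = (A (e 0)) 1 - (A (e 1)) 0 := rfl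

/-- Triple product. -/
noncomputable def det3 (x y z : E3) : ℝ :=
  x 0 * (y 1 * z 2 - y 2 * z 1) + x 1 * (y 2 * z 0 - y 0 * z 2) + x 2 * (y 0 * z 1 - y 1 * z 0)

theorem antisymm_eq (A : E3 →L[ℝ] E3) (x y : E3) :
    ⟪y, A x⟫ - ⟪x, A y⟫ = det3 y (axial A) x := by
  rw [inner_eq, inner_eq]
  simp only [apply_expand A x, apply_expand A y]
  unfold det3
  rw [axial_zero, axial_one, axial_two]
  ring

theorem trace_eq (A : E3 →L[ℝ] E3) :
    LinearMap.trace ℝ E3 A = (A (e 0)) 0 + (A (e 1)) 1 + (A (e 2)) 2 := by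
  rw [LinearMap.trace_eq_sum_inner (A : E3 →ₗ[ℝ] E3) (EuclideanSpace.basisFun (Fin 3) ℝ),
    Fin.sum_univ_three]
  simp only [EuclideanSpace.basisFun_apply, inner_eq]
  simp [e]

/-- Sharp pointwise bound of the vortex stretching term by the second singular value. -/
theorem stretching_le (A : E3 →L[ℝ] E3) (htr : LinearMap.trace ℝ E3 A = 0) (n : E3)
    (hn : ‖n‖ = 1) (g : ℝ) (hg : ∀ v : E3, ⟪n, v⟫ = 0 → ‖A v‖ ≤ g * ‖v‖) :
    |⟪axial A, A (axial A)⟫| ≤ 2 * g * ‖axial A‖ ^ 2 := by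
  set w := axial A with hw
  set s := ⟪n, w⟫ with hs
  have hnn : ⟪n, n⟫ = 1 := by rw [real_inner_self_eq_norm_sq, hn]; norm_num
  -- a unit vector orthogonal to `n` with `w` in the plane
  obtain ⟨x1, c, hx1, hnx1, hdec⟩ : ∃ (x1 : E3) (c : ℝ), ‖x1‖ = 1 ∧ ⟪n, x1⟫ = 0 ∧
      w = c • x1 + s • n := by
    by_cases hc : w - s • n = 0
    · -- pick any unit vector orthogonal to n
      have hdim : Module.finrank ℝ E3 = 3 := by simp
      obtain ⟨x, hx0, hx⟩ : ∃ x : E3, x ≠ 0 ∧ ⟪n, x⟫ = 0 := by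
        by_cases h0 : n 0 = 0 ∧ n 1 = 0
        · refine ⟨e 0, ?_, ?_⟩
          · intro h
            have := congrArg (fun v : E3 => v 0) h
            simp [e] at this
          · rw [inner_eq, h0.1, h0.2]
            simp [e]
        · refine ⟨(n 1) • e 0 - (n 0) • e 1, ?_, ?_⟩
          · intro h
            have h1 := congrArg (fun v : E3 => v 0) h
            have h2 := congrArg (fun v : E3 => v 1) h
            simp [e] at h1 h2
            exact h0 ⟨h2, h1⟩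
          · rw [inner_eq]
            simp [e]
            ring
      refine ⟨‖x‖⁻¹ • x, 0, ?_, ?_, ?_⟩
      · rw [norm_smul, norm_inv, norm_norm, inv_mul_cancel₀ (norm_ne_zero_iff.mpr hx0)]
      · rw [inner_smul_right, hx, mul_zero]
      · rw [zero_smul, zero_add]
        exact sub_eq_zero.mp hc
    · refine ⟨‖w - s • n‖⁻¹ • (w - s • n), ‖w - s • n‖, ?_, ?_, ?_⟩
      · rw [norm_smul, norm_inv, norm_norm, inv_mul_cancel₀ (norm_ne_zero_iff.mpr hc)]
      · rw [inner_smul_right, inner_sub_right, inner_smul_right, hnn, ← hs]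
        ring
      · rw [smul_smul, mul_inv_cancel₀ (norm_ne_zero_iff.mpr hc), one_smul, sub_add_cancel]
  have hx11 : ⟪x1, x1⟫ = 1 := by rw [real_inner_self_eq_norm_sq, hx1]; norm_num
  have hx1n : ⟪x1, n⟫ = 0 := by rw [real_inner_comm]; exact hnx1
  -- complete to an orthonormal basis
  obtain ⟨b, hb⟩ : ∃ b : OrthonormalBasis (Fin 3) ℝ E3, b 0 = x1 ∧ b 2 = n := by
    have horth : Orthonormal ℝ (({0, 2} : Set (Fin 3)).domRestrict ![x1, 0, n]) := by
      constructor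
      · rintro ⟨i, hi⟩
        simp only [mem_insert_iff, mem_singleton_iff] at hi
        rcases hi with rfl | rfl
        · exact hx1
        · exact hn
      · rintro ⟨i, hi⟩ ⟨j, hj⟩ hij
        simp only [mem_insert_iff, mem_singleton_iff] at hi hj
        rcases hi with rfl | rfl <;> rcases hj with rfl | rfl
        · exact absurd rfl hij
        · exact hx1n
        · exact hnx1
        · exact absurd rfl hij
    obtain ⟨b, hb⟩ := horth.exists_orthonormalBasis_extension_of_card_eq (by simp)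
    exact ⟨b, by simpa using hb 0 (by simp), by simpa using hb 2 (by simp)⟩
  set x2 := b 1 with hx2
  have hx2n : ⟪n, x2⟫ = 0 := by
    have : ⟪b 2, b 1⟫ = 0 := b.orthonormal.2 (show (2 : Fin 3) ≠ 1 by decide)
    rw [hb.2] at this
    exact this
  have hx2norm : ‖x2‖ = 1 := b.orthonormal.1 1
  have htr' : ⟪x1, A x1⟫ + ⟪x2, A x2⟫ + ⟪n, A n⟫ = 0 := by
    have := LinearMap.trace_eq_sum_inner (A : E3 →ₗ[ℝ] E3) b
    rw [htr, Fin.sum_univ_three, hb.1, hb.2] at this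
    simpa using this.symm
  have hanti : ⟪x1, A n⟫ = ⟪n, A x1⟫ := by
    have := antisymm_eq A n x1
    have h0 : det3 x1 (axial A) n = 0 := by
      rw [← hw, hdec]
      unfold det3
      simp
      ring
    linarith
  have hwnorm : ‖w‖ ^ 2 = c ^ 2 + s ^ 2 := by
    rw [← real_inner_self_eq_norm_sq, hdec]
    simp only [inner_add_left, inner_add_right, real_inner_smul_left, real_inner_smul_right,
      hx11, hnn, hx1n, hnx1]
    ring
  have hmain : ⟪w, A w⟫ = (c ^ 2 - s ^ 2) * ⟪x1, A x1⟫ + 2 * s * c * ⟪n, A x1⟫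
      - s ^ 2 * ⟪x2, A x2⟫ := by
    have h1 : ⟪w, A w⟫ = c ^ 2 * ⟪x1, A x1⟫ + c * s * ⟪x1, A n⟫ + s * c * ⟪n, A x1⟫
        + s ^ 2 * ⟪n, A n⟫ := by
      rw [hdec]
      simp only [map_add, map_smul, inner_add_left, inner_add_right, real_inner_smul_left,
        real_inner_smul_right]
      ring
    rw [h1, hanti]
    have h2 : ⟪n, A n⟫ = - ⟪x1, A x1⟫ - ⟪x2, A x2⟫ := by linarith
    rw [h2]
    ring
  have hg0 : 0 ≤ g := by
    have := hg x1 hnx1
    rw [hx1, mul_one] at this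
    exact (norm_nonneg _).trans this
  have hA1 : ‖A x1‖ ≤ g := by
    have := hg x1 hnx1
    rwa [hx1, mul_one] at this
  have hA2 : ‖A x2‖ ≤ g := by
    have := hg x2 hx2n
    rwa [hx2norm, mul_one] at this
  have hb2 : |⟪x2, A x2⟫| ≤ g := by
    have := abs_real_inner_le_norm x2 (A x2)
    rw [hx2norm, one_mul] at this
    exact this.trans hA2
  -- bessel
  have hbes : ⟪x1, A x1⟫ ^ 2 + ⟪n, A x1⟫ ^ 2 ≤ g ^ 2 := by
    have hp := b.sum_sq_norm_inner_right (A x1)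
    rw [Fin.sum_univ_three, hb.1, hb.2] at hp
    simp only [Real.norm_eq_abs, sq_abs] at hp
    have h4 : ‖A x1‖ ^ 2 ≤ g ^ 2 := pow_le_pow_left₀ (norm_nonneg _) hA1 2
    nlinarith [sq_nonneg ⟪b 1, A x1⟫]
  set m1 := ⟪x1, A x1⟫ with hm1
  set m2 := ⟪n, A x1⟫ with hm2
  set m3 := ⟪x2, A x2⟫ with hm3
  have hfirst : |(c ^ 2 - s ^ 2) * m1 + 2 * s * c * m2| ≤ (c ^ 2 + s ^ 2) * g := by
    apply abs_le_of_sq_le_sq _ (by positivity)
    have e1 : ((c ^ 2 - s ^ 2) * m1 + 2 * s * c * m2) ^ 2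
        + ((c ^ 2 - s ^ 2) * m2 - 2 * s * c * m1) ^ 2
        = (c ^ 2 + s ^ 2) ^ 2 * (m1 ^ 2 + m2 ^ 2) := by ring
    have e2 : (c ^ 2 + s ^ 2) ^ 2 * (m1 ^ 2 + m2 ^ 2) ≤ (c ^ 2 + s ^ 2) ^ 2 * g ^ 2 :=
      mul_le_mul_of_nonneg_left hbes (by positivity)
    nlinarith [sq_nonneg ((c ^ 2 - s ^ 2) * m2 - 2 * s * c * m1)]
  have hsecond : |s ^ 2 * m3| ≤ (c ^ 2 + s ^ 2) * g := by
    rw [abs_mul, abs_of_nonneg (sq_nonneg s)]
    have h5 := mul_le_mul_of_nonneg_left hb2 (sq_nonneg s)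
    have h6 := mul_nonneg (sq_nonneg c) hg0
    have h7 : (c ^ 2 + s ^ 2) * g = c ^ 2 * g + s ^ 2 * g := by ring
    rw [h7]
    linarith
  rw [hmain, hwnorm]
  calc |(c ^ 2 - s ^ 2) * m1 + 2 * s * c * m2 - s ^ 2 * m3|
      ≤ |(c ^ 2 - s ^ 2) * m1 + 2 * s * c * m2| + |s ^ 2 * m3| := abs_sub _ _
    _ ≤ (c ^ 2 + s ^ 2) * g + (c ^ 2 + s ^ 2) * g := add_le_add hfirst hsecond
    _ = 2 * g * (c ^ 2 + s ^ 2) := by ring

end Pool.Agent.Work.MP_b0497c_an
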