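import Mathlib
import Pool.Agent.Work.MP_b0497c_an.Bd.B21

set_option autoImplicit false

namespace Pool.Agent.Work.MP_b0497c_an

open Set RealInnerProductSpace Metric

variable {T : ℝ} {u : ℝ → E3 → E3} {p : ℝ → E3 → ℝ}

theorem Icc_subset_of {α β T : ℝ} (hα : 0 ≤ α) (hβ : β < T) : Icc α β ⊆ Ico 0 T :=
  fun _ ht => ⟨hα.trans ht.1, ht.2.trans_lt hβ⟩

namespace IsClassicalSolution

theorem cont_u (h : IsClassicalSolution T u p) {α β : ℝ} (hα : 0 ≤ α) (hβ : β < T) :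
    ContinuousOn (fun z : ℝ × E3 => u z.1 z.2) (Icc α β ×ˢ univ) :=
  h.contDiff_u.continuousOn.mono (prod_mono (Icc_subset_of hα hβ) (Subset.refl _))

theorem cont_M (h : IsClassicalSolution T u p) {α β : ℝ} (hα : 0 ≤ α) (hβ : β < T) :
    ContinuousOn (fun z : ℝ × E3 => fderiv ℝ (u z.1) z.2) (Icc α β ×ˢ univ) :=
  (continuousOn_fderiv h.contDiff_u).mono (prod_mono (Icc_subset_of hα hβ) (Subset.refl _))

theorem cont_dt (h : IsClassicalSolution T u p) {α β : ℝ} (hα : 0 ≤ α) (hβ : β < T) :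
    ContinuousOn (fun z : ℝ × E3 => derivWithin (fun s => u s z.2) (Ico 0 T) z.1)
      (Icc α β ×ˢ univ) :=
  (continuousOn_derivWithin h.contDiff_u).mono
    (prod_mono (Icc_subset_of hα hβ) (Subset.refl _))

theorem per_u (h : IsClassicalSolution T u p) {α β : ℝ} (hα : 0 ≤ α) (hβ : β < T) :
    ∀ t ∈ Icc α β, Periodic3 (u t) :=
  fun t ht => h.periodic_u t (Icc_subset_of hα hβ ht)

theorem per_M (h : IsClassicalSolution T u p) {α β : ℝ} (hα : 0 ≤ α) (hβ : β < T) :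
    ∀ t ∈ Icc α β, Periodic3 (fun x => fderiv ℝ (u t) x) :=
  fun t ht => (h.periodic_u t (Icc_subset_of hα hβ ht)).fderiv

theorem per_dt (h : IsClassicalSolution T u p) {α β : ℝ} (hα : 0 ≤ α) (hβ : β < T) :
    ∀ t ∈ Icc α β, Periodic3 (fun x => derivWithin (fun s => u s x) (Ico 0 T) t) := by
  intro t ht i x
  have ht' := Icc_subset_of hα hβ ht
  apply derivWithin_congr
  · intro s hs
    exact h.periodic_u s hs i x
  · exact h.periodic_u t ht' i x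

theorem bound_u (h : IsClassicalSolution T u p) {α β : ℝ} (hα : 0 ≤ α) (hβ : β < T) :
    ∃ C : ℝ, 0 ≤ C ∧ ∀ t ∈ Icc α β, ∀ x, ‖u t x‖ ≤ C :=
  exists_bound (h.cont_u hα hβ) (h.per_u hα hβ)

theorem bound_M (h : IsClassicalSolution T u p) {α β : ℝ} (hα : 0 ≤ α) (hβ : β < T) :
    ∃ C : ℝ, 0 ≤ C ∧ ∀ t ∈ Icc α β, ∀ x, ‖fderiv ℝ (u t) x‖ ≤ C :=
  exists_bound (G := fun t x => fderiv ℝ (u t) x) (h.cont_M hα hβ) (h.per_M hα hβ)

theorem bound_dt (h : IsClassicalSolution T u p) {α β : ℝ} (hα : 0 ≤ α) (hβ : β < T) :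
    ∃ C : ℝ, 0 ≤ C ∧ ∀ t ∈ Icc α β, ∀ x, ‖derivWithin (fun s => u s x) (Ico 0 T) t‖ ≤ C :=
  exists_bound (G := fun t x => derivWithin (fun s => u s x) (Ico 0 T) t)
    (h.cont_dt hα hβ) (h.per_dt hα hβ)

theorem unif_M (h : IsClassicalSolution T u p) {α β : ℝ} (hα : 0 ≤ α) (hβ : β < T)
    (ε : ℝ) (hε : 0 < ε) :
    ∃ δ : ℝ, 0 < δ ∧ ∀ t ∈ Icc α β, ∀ s ∈ Icc α β, ∀ x y : E3, |t - s| < δ → ‖x - y‖ < δ →
      ‖fderiv ℝ (u t) x - fderiv ℝ (u s) y‖ < ε :=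
  unif_cont (G := fun t x => fderiv ℝ (u t) x) (h.cont_M hα hβ) (h.per_M hα hβ) ε hε

theorem lip_u (h : IsClassicalSolution T u p) {t : ℝ} (ht : t ∈ Ico 0 T) {K : ℝ} (hK : 0 ≤ K)
    (hM : ∀ x, ‖fderiv ℝ (u t) x‖ ≤ K) (x y : E3) : ‖u t x - u t y‖ ≤ K * ‖x - y‖ := by
  have := Convex.norm_image_sub_le_of_norm_fderiv_le (𝕜 := ℝ) (f := u t) (s := univ)
    (fun z _ => h.differentiableAt ht z) (fun z _ => hM z) convex_univ (mem_univ y) (mem_univ x)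
  exact this

/-- Linearisation of the velocity at a point. -/
theorem lin_u (h : IsClassicalSolution T u p) {t : ℝ} (ht : t ∈ Ico 0 T) {x0 : E3} {ρ η : ℝ}
    (hM : ∀ x, ‖x - x0‖ ≤ ρ → ‖fderiv ℝ (u t) x - fderiv ℝ (u t) x0‖ ≤ η) (x : E3)
    (hx : ‖x - x0‖ ≤ ρ) :
    ‖u t x - u t x0 - fderiv ℝ (u t) x0 (x - x0)‖ ≤ η * ‖x - x0‖ := by
  have hρ : 0 ≤ ρ := (norm_nonneg _).trans hx
  have := Convex.norm_image_sub_le_of_norm_hasFDerivWithin_le' (𝕜 := ℝ) (f := u t)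
    (f' := fun z => fderiv ℝ (u t) z) (φ := fderiv ℝ (u t) x0) (s := closedBall x0 ρ) (C := η)
    (fun z _ => (h.differentiableAt ht z).hasFDerivAt.hasFDerivWithinAt)
    (fun z hz => hM z (by simpa [dist_eq_norm] using hz)) (convex_closedBall x0 ρ)
    (mem_closedBall_self hρ) (by simpa [dist_eq_norm] using hx)
  exact this

/-- Local flow, Lipschitz in the initial point. -/
theorem exists_flow (h : IsClassicalSolution T u p) {α β : ℝ} (hα : 0 ≤ α) (hβ : β < T)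
    {t0 : ℝ} (ht0 : t0 ∈ Icc α β) (x0 : E3) :
    ∃ Φ : E3 → ℝ → E3, (∀ x, ‖x - x0‖ ≤ 1 → Φ x t0 = x ∧
      ∀ t ∈ Icc α β, HasDerivWithinAt (Φ x) (u t (Φ x t)) (Icc α β) t) ∧
      ∃ L : ℝ, 0 ≤ L ∧ ∀ t ∈ Icc α β, ∀ x y, ‖x - x0‖ ≤ 1 → ‖y - x0‖ ≤ 1 →
        ‖Φ x t - Φ y t‖ ≤ L * ‖x - y‖ := by
  obtain ⟨U, hU0, hU⟩ := h.bound_u hα hβ
  obtain ⟨K, hK0, hK⟩ := h.bound_M hα hβ
  have hab : α ≤ β := ht0.1.trans ht0.2
  have ha0 : 0 ≤ 1 + U * (β - α) := by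
    have := mul_nonneg hU0 (sub_nonneg.mpr hab)
    linarith
  have hPL : IsPicardLindelof u (⟨t0, ht0⟩ : Icc α β) x0 ⟨1 + U * (β - α), ha0⟩ 1 ⟨U, hU0⟩
      ⟨K, hK0⟩ := by
    refine ⟨?_, ?_, ?_, ?_⟩
    · intro t ht
      apply LipschitzWith.lipschitzOnWith
      apply LipschitzWith.of_dist_le_mul
      intro x y
      rw [dist_eq_norm, dist_eq_norm]
      exact h.lip_u (Icc_subset_of hα hβ ht) hK0 (hK t ht) x y
    · intro x _
      have h1 := h.cont_u hα hβ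
      have h2 : ContinuousOn (fun t : ℝ => (t, x)) (Icc α β) := by fun_prop
      exact h1.comp h2 (fun t ht => ⟨ht, mem_univ _⟩)
    · intro t ht x _
      exact hU t ht x
    · change U * max (β - t0) (t0 - α) ≤ (1 + U * (β - α)) - 1
      have : max (β - t0) (t0 - α) ≤ β - α := by
        apply max_le <;> linarith [ht0.1, ht0.2]
      have := mul_le_mul_of_nonneg_left this hU0
      linarith
  obtain ⟨Φ, hΦ, L, hL⟩ := hPL.exists_forall_mem_closedBall_eq_hasDerivWithinAt_lipschitzOnWith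
  refine ⟨Φ, ?_, L, L.2, ?_⟩
  · intro x hx
    exact hΦ x (by simpa [dist_eq_norm] using hx)
  · intro t ht x y hx hy
    have := (hL t ht).dist_le_mul x (by simpa [dist_eq_norm] using hx) y
      (by simpa [dist_eq_norm] using hy)
    rwa [dist_eq_norm, dist_eq_norm] at this

end IsClassicalSolution

end Pool.Agent.Work.MP_b0497c_an
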