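import Mathlib
import Pool.Agent.Work.MP_b0497c_an.Flow

set_option autoImplicit false
set_option maxHeartbeats 1000000

/-!
Conservation of energy for `C¹` periodic solutions.
-/

namespace Pool.Agent.Work.MP_b0497c_an

open Set RealInnerProductSpace Metric MeasureTheory Filter Topology

/-- A box consisting of `6³` periods. -/
def Qb : Set E3 := {x | ∀ i : Fin 3, x i ∈ Icc (-(6 * Real.pi)) (6 * Real.pi)}

theorem Periodic3.shift6 {F : Type} {f : E3 → F} (hf : Periodic3 f) (i : Fin 3) (x : E3) :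
    f (x + (12 * Real.pi) • e i) = f x := by
  have h0 : Function.Periodic f ((2 * Real.pi) • e i) := hf i
  have h1 := h0.nsmul 6 x
  have h2 : (6 : ℕ) • ((2 * Real.pi) • e i) = (12 * Real.pi) • e i := by
    rw [← Nat.cast_smul_eq_nsmul ℝ, smul_smul]
    congr 1
    push_cast
    ring
  rwa [h2] at h1

theorem Qb_preimage : (WithLp.toLp 2 : (Fin 3 → ℝ) → E3) ⁻¹' Qb
    = Icc (fun _ => -(6 * Real.pi)) (fun _ => 6 * Real.pi) := by
  ext y
  simp only [mem_preimage, Qb, mem_Icc, Pi.le_def, mem_ofPred_eq]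
  constructor
  · intro h
    exact ⟨fun i => (h i).1, fun i => (h i).2⟩
  · intro h i
    exact ⟨h.1 i, h.2 i⟩

theorem Qb_compact : IsCompact Qb := by
  have h1 : Qb = (WithLp.toLp 2 : (Fin 3 → ℝ) → E3) ''
      (Icc (fun _ => -(6 * Real.pi)) (fun _ => 6 * Real.pi)) := by
    rw [← Qb_preimage, image_preimage_eq]
    intro x
    exact ⟨x.ofLp, rfl⟩
  rw [h1]
  apply isCompact_Icc.image
  exact (PiLp.continuous_toLp 2 (fun _ : Fin 3 => ℝ))

theorem per_div {G : E3 → E3} (hG : ContDiff ℝ 1 G) (hper : Periodic3 G) :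
    ∫ x in Qb, LinearMap.trace ℝ E3 (fderiv ℝ G x) = 0 := by
  have h1 := (PiLp.volume_preserving_toLp (Fin 3)).setIntegral_preimage_emb
    (MeasurableEquiv.toLp 2 (Fin 3 → ℝ)).measurableEmbedding
    (fun x : E3 => LinearMap.trace ℝ E3 (fderiv ℝ G x)) Qb
  rw [← h1, Qb_preimage]
  set L : (Fin 3 → ℝ) →L[ℝ] E3 := ((PiLp.continuousLinearEquiv 2 ℝ (fun _ : Fin 3 => ℝ)).symm :
    (Fin 3 → ℝ) →L[ℝ] E3) with hL
  set L' : E3 →L[ℝ] (Fin 3 → ℝ) := ((PiLp.continuousLinearEquiv 2 ℝ (fun _ : Fin 3 => ℝ)) :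
    E3 →L[ℝ] (Fin 3 → ℝ)) with hL'
  set f : (Fin 3 → ℝ) → (Fin 3 → ℝ) := fun y => L' (G (L y)) with hf
  set f' : (Fin 3 → ℝ) → (Fin 3 → ℝ) →L[ℝ] (Fin 3 → ℝ) := fun y =>
    L'.comp ((fderiv ℝ G (L y)).comp L) with hf'
  have hfd : ∀ y, HasFDerivAt f (f' y) y := by
    intro y
    have a1 : HasFDerivAt G (fderiv ℝ G (L y)) (L y) :=
      (hG.differentiable (by norm_num) (L y)).hasFDerivAt
    exact L'.hasFDerivAt.comp y (a1.comp y L.hasFDerivAt)
  have hfc : Continuous f := continuous_iff_continuousAt.mpr fun y => (hfd y).continuousAt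
  have hLe : ∀ i : Fin 3, L (Pi.single i 1) = e i := by
    intro i
    rfl
  have htr : ∀ y, LinearMap.trace ℝ E3 (fderiv ℝ G (L y)) = ∑ i : Fin 3, f' y (Pi.single i 1) i := by
    intro y
    rw [trace_eq, Fin.sum_univ_three]
    simp only [hf', ContinuousLinearMap.comp_apply, hLe]
    rfl
  have hcG : Continuous (fun y => fderiv ℝ G (L y)) :=
    (hG.continuous_fderiv (by norm_num)).comp L.continuous
  have hI : IntegrableOn (fun y => ∑ i : Fin 3, f' y (Pi.single i 1) i)
      (Icc (fun _ => -(6 * Real.pi)) (fun _ => 6 * Real.pi)) := by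
    apply ContinuousOn.integrableOn_compact isCompact_Icc
    apply Continuous.continuousOn
    apply continuous_finsetSum
    intro i _
    have c1 : Continuous (fun y => f' y) := by
      simp only [hf']
      exact continuous_const.clm_comp (hcG.clm_comp continuous_const)
    have c2 : Continuous (fun y => f' y (Pi.single i 1)) := c1.clm_apply continuous_const
    exact (continuous_apply i).comp c2
  have hdiv := integral_divergence_of_hasFDerivAt_off_countable
    (fun _ : Fin 3 => -(6 * Real.pi)) (fun _ : Fin 3 => 6 * Real.pi)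
    (by intro i; simp only; have := Real.pi_pos; linarith) f f' ∅ countable_empty hfc.continuousOn
    (fun x _ => hfd x) hI
  have e1 : ∫ x in Icc (fun _ : Fin 3 => -(6 * Real.pi)) (fun _ : Fin 3 => 6 * Real.pi),
      LinearMap.trace ℝ E3 (fderiv ℝ G (WithLp.toLp 2 x))
      = ∫ x in Icc (fun _ : Fin 3 => -(6 * Real.pi)) (fun _ : Fin 3 => 6 * Real.pi),
        ∑ i : Fin 3, f' x (Pi.single i 1) i := by
    congr 1
    funext x
    exact htr x
  rw [e1, hdiv]
  apply Finset.sum_eq_zero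
  intro i _
  rw [sub_eq_zero]
  congr 1
  funext x
  have e2 : L (Fin.insertNth i (6 * Real.pi) x)
      = L (Fin.insertNth i (-(6 * Real.pi)) x) + (12 * Real.pi) • e i := by
    rw [← hLe i, ← map_smul, ← map_add]
    congr 1
    funext j
    rcases Fin.eq_self_or_eq_succAbove i j with hj | ⟨k, hk⟩
    · subst hj
      simp
      ring
    · subst hk
      simp
  simp only [hf]
  rw [e2, hper.shift6 i]

variable {T : ℝ} {u : ℝ → E3 → E3} {p : ℝ → E3 → ℝ}

theorem IsClassicalSolution.contDiff_space (h : IsClassicalSolution T u p) {t : ℝ}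
    (ht : t ∈ Ico 0 T) : ContDiff ℝ 1 (u t) := by
  have h2 : ContDiff ℝ 1 (fun x : E3 => (t, x)) := contDiff_const.prodMk contDiff_id
  have h3 : ContDiffOn ℝ 1 ((fun z : ℝ × E3 => u z.1 z.2) ∘ (fun x : E3 => (t, x))) univ :=
    ContDiffOn.comp h.contDiff_u h2.contDiffOn (fun x _ => ⟨ht, mem_univ _⟩)
  exact contDiffOn_univ.mp h3

theorem IsClassicalSolution.contDiff_space_p (h : IsClassicalSolution T u p) {t : ℝ}
    (ht : t ∈ Ico 0 T) : ContDiff ℝ 1 (p t) := by
  have h2 : ContDiff ℝ 1 (fun x : E3 => (t, x)) := contDiff_const.prodMk contDiff_id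
  have h3 : ContDiffOn ℝ 1 ((fun z : ℝ × E3 => p z.1 z.2) ∘ (fun x : E3 => (t, x))) univ :=
    ContDiffOn.comp h.contDiff_p h2.contDiffOn (fun x _ => ⟨ht, mem_univ _⟩)
  exact contDiffOn_univ.mp h3

/-- The energy density satisfies a conservation law. -/
theorem IsClassicalSolution.energy_density (h : IsClassicalSolution T u p) {t : ℝ}
    (ht : t ∈ Ico 0 T) (x : E3) :
    2 * ⟪u t x, derivWithin (fun s => u s x) (Ico 0 T) t⟫
      = - LinearMap.trace ℝ E3 (fderiv ℝ (fun y => (‖u t y‖ ^ 2 + 2 * p t y) • u t y) x) := by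
  have hu : HasFDerivAt (u t) (fderiv ℝ (u t) x) x := (h.differentiableAt ht x).hasFDerivAt
  have hp : HasFDerivAt (p t) (fderiv ℝ (p t) x) x := (h.differentiableAt_p ht x).hasFDerivAt
  have hq := hu.norm_sq.add (hp.const_mul 2)
  have hG := hq.smul hu
  have hG' : fderiv ℝ (fun y => (‖u t y‖ ^ 2 + 2 * p t y) • u t y) x = _ := hG.fderiv
  rw [hG', trace_eq]
  have hmom := h.momentum t ht x
  have hdt : derivWithin (fun s => u s x) (Ico 0 T) t
      = - gradient (p t) x - fderiv ℝ (u t) x (u t x) := by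
    rw [← hmom]; abel
  rw [hdt, inner_sub_right, inner_neg_right]
  have hgr : ⟪u t x, gradient (p t) x⟫ = fderiv ℝ (p t) x (u t x) := by
    rw [real_inner_comm]
    exact InnerProductSpace.toDual_symm_apply
  rw [hgr]
  have hdiv := h.div_free t ht x
  rw [trace_eq] at hdiv
  -- expand everything along the basis
  have hpx : fderiv ℝ (p t) x (u t x) = (u t x) 0 * fderiv ℝ (p t) x (e 0)
      + (u t x) 1 * fderiv ℝ (p t) x (e 1) + (u t x) 2 * fderiv ℝ (p t) x (e 2) := by
    conv_lhs => rw [expand (u t x)]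
    simp only [map_add, map_smul, smul_eq_mul]
  rw [hpx, inner_eq (u t x) (fderiv ℝ (u t) x (u t x)), apply_expand _ (u t x) 0,
    apply_expand _ (u t x) 1, apply_expand _ (u t x) 2]
  simp [inner_eq]
  linear_combination (‖u t x‖ ^ 2 + 2 * p t x) * hdiv

theorem IsClassicalSolution.hasDerivAt_time (h : IsClassicalSolution T u p) {t : ℝ}
    (ht : t ∈ Ioo 0 T) (x : E3) :
    HasDerivAt (fun s => u s x) (derivWithin (fun s => u s x) (Ico 0 T) t) t := by
  have h1 := hasDerivWithinAt_along h.contDiff_u (I := Ico 0 T) (Subset.refl _)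
    (t := t) ⟨ht.1.le, ht.2⟩ (X := fun _ => x) (X' := 0) (hasDerivWithinAt_const _ _ _)
  simp only [map_zero, add_zero] at h1
  exact h1.hasDerivAt (Ico_mem_nhds ht.1 ht.2)

theorem IsClassicalSolution.energy_deriv (h : IsClassicalSolution T u p) {t : ℝ}
    (ht : t ∈ Ioo 0 T) : HasDerivAt (fun s => ∫ x in Qb, ‖u s x‖ ^ 2) 0 t := by
  set α : ℝ := t / 2 with hα
  set β : ℝ := (t + T) / 2 with hβ
  have hα0 : 0 ≤ α := by have := ht.1; positivity
  have hβT : β < T := by have := ht.2; rw [hβ]; linarith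
  have htI : t ∈ Ioo α β := ⟨by have := ht.1; rw [hα]; linarith, by have := ht.2; rw [hβ]; linarith⟩
  have hsub : Ioo α β ⊆ Ioo 0 T := fun s hs => ⟨hα0.trans_lt hs.1, hs.2.trans hβT⟩
  obtain ⟨U, hU0, hU⟩ := h.bound_u hα0 hβT
  obtain ⟨D, hD0, hD⟩ := h.bound_dt hα0 hβT
  have hfin : IsFiniteMeasure (volume.restrict Qb) :=
    ⟨by rw [Measure.restrict_apply_univ]; exact Qb_compact.measure_lt_top⟩
  have hcont : ∀ s ∈ Ioo α β, Continuous (fun x => ‖u s x‖ ^ 2) := by
    intro s hs
    have hs' := hsub hs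
    exact ((h.contDiff_space ⟨hs'.1.le, hs'.2⟩).continuous.norm).pow 2
  have key := hasDerivAt_integral_of_dominated_loc_of_deriv_le (μ := volume.restrict Qb)
    (F := fun s x => ‖u s x‖ ^ 2) (x₀ := t) (s := Ioo α β) (bound := fun _ => 2 * (U * D))
    (F' := fun s x => 2 * ⟪u s x, derivWithin (fun r => u r x) (Ico 0 T) s⟫)
    (Ioo_mem_nhds htI.1 htI.2)
    (by filter_upwards [Ioo_mem_nhds htI.1 htI.2] with s hs
        exact (hcont s hs).aestronglyMeasurable)
    ((hcont t htI).continuousOn.integrableOn_compact Qb_compact)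
    (by
      have c1 : Continuous (fun x => derivWithin (fun r => u r x) (Ico 0 T) t) := by
        have c2 := h.cont_dt (le_refl (0:ℝ)) ht.2
        have c3 : Continuous (fun x : E3 => (t, x)) := by fun_prop
        have c4 : ContinuousOn ((fun z : ℝ × E3 => derivWithin (fun s => u s z.2) (Ico 0 T) z.1)
            ∘ (fun x : E3 => (t, x))) univ :=
          ContinuousOn.comp c2 c3.continuousOn (fun x _ => ⟨⟨ht.1.le, le_rfl⟩, mem_univ _⟩)
        exact continuousOn_univ.mp c4
      have c5 : Continuous (fun x => 2 * ⟪u t x, derivWithin (fun r => u r x) (Ico 0 T) t⟫) :=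
        continuous_const.mul ((h.contDiff_space ⟨ht.1.le, ht.2⟩).continuous.inner c1)
      exact c5.aestronglyMeasurable)
    (ae_of_all _ fun x s hs => by
      rw [norm_mul, Real.norm_eq_abs, Real.norm_eq_abs, abs_of_pos (show (0:ℝ) < 2 by norm_num)]
      have hs' := Ioo_subset_Icc_self hs
      gcongr
      exact (abs_real_inner_le_norm _ _).trans (mul_le_mul (hU s hs' x) (hD s hs' x)
        (norm_nonneg _) hU0))
    (integrable_const _)
    (ae_of_all _ fun x s hs => (h.hasDerivAt_time (hsub hs) x).norm_sq)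
  have h2 := key.2
  have htT : t ∈ Ico 0 T := ⟨ht.1.le, ht.2⟩
  have e1 : ∫ x in Qb, 2 * ⟪u t x, derivWithin (fun r => u r x) (Ico 0 T) t⟫ = 0 := by
    simp only [h.energy_density htT]
    rw [integral_neg, per_div, neg_zero]
    · have hu := h.contDiff_space htT
      have hp := h.contDiff_space_p htT
      exact (((hu.norm_sq ℝ)).add (contDiff_const.mul hp)).smul hu
    · intro i x
      simp only [h.periodic_u t htT i x, h.periodic_p t htT i x]
  rw [e1] at h2
  exact h2

theorem IsClassicalSolution.energy_const (h : IsClassicalSolution T u p) {t : ℝ}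
    (ht : t ∈ Ico 0 T) : ∫ x in Qb, ‖u t x‖ ^ 2 = ∫ x in Qb, ‖u 0 x‖ ^ 2 := by
  rcases eq_or_lt_of_le ht.1 with h0 | h0
  · rw [← h0]
  set E : ℝ → ℝ := fun s => ∫ x in Qb, ‖u s x‖ ^ 2 with hE
  have hfin : IsFiniteMeasure (volume.restrict Qb) :=
    ⟨by rw [Measure.restrict_apply_univ]; exact Qb_compact.measure_lt_top⟩
  have hconst : ∀ ε ∈ Ioo 0 t, E t = E ε := by
    intro ε hε
    have hder : ∀ s ∈ Icc ε t, HasDerivAt E 0 s := fun s hs =>
      h.energy_deriv ⟨hε.1.trans_le hs.1, hs.2.trans_lt ht.2⟩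
    exact constant_of_has_deriv_right_zero
      (fun s hs => (hder s hs).continuousAt.continuousWithinAt)
      (fun s hs => (hder s (Ico_subset_Icc_self hs)).hasDerivWithinAt) t ⟨hε.2.le, le_rfl⟩
  -- continuity at zero
  have hcont : ContinuousWithinAt E (Icc 0 t) 0 := by
    obtain ⟨U, hU0, hU⟩ := h.bound_u (le_refl (0:ℝ)) ht.2
    apply continuousWithinAt_of_dominated (bound := fun _ => U ^ 2)
    · filter_upwards [self_mem_nhdsWithin] with s hs
      have hs' : s ∈ Ico 0 T := ⟨hs.1, hs.2.trans_lt ht.2⟩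
      exact (((h.contDiff_space hs').continuous.norm).pow 2).aestronglyMeasurable
    · filter_upwards [self_mem_nhdsWithin] with s hs
      refine ae_of_all _ fun x => ?_
      rw [norm_pow, norm_norm]
      exact pow_le_pow_left₀ (norm_nonneg _) (hU s hs x) 2
    · exact integrable_const _
    · refine ae_of_all _ fun x => ?_
      have c2 := h.cont_u (le_refl (0:ℝ)) ht.2
      have c3 : ContinuousOn (fun s : ℝ => (s, x)) (Icc 0 t) := by fun_prop
      have c4 : ContinuousOn ((fun z : ℝ × E3 => u z.1 z.2) ∘ (fun s : ℝ => (s, x))) (Icc 0 t) :=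
        ContinuousOn.comp c2 c3 (fun s hs => ⟨hs, mem_univ _⟩)
      exact ((c4 0 ⟨le_rfl, h0.le⟩).norm).pow 2
  have hle : 𝓝[>] (0:ℝ) ≤ 𝓝[Icc 0 t] 0 := by
    rw [← nhdsWithin_Ioo_eq_nhdsGT h0]
    exact nhdsWithin_mono _ Ioo_subset_Icc_self
  have hl1 : Tendsto E (𝓝[>] 0) (𝓝 (E 0)) := hcont.tendsto.mono_left hle
  have hl2 : Tendsto E (𝓝[>] 0) (𝓝 (E t)) := by
    apply tendsto_const_nhds.congr'
    filter_upwards [Ioo_mem_nhdsGT h0] with ε hε
    exact hconst ε hε
  exact tendsto_nhds_unique hl2 hl1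

/-- Local energy is bounded by the conserved energy. -/
theorem IsClassicalSolution.local_energy (h : IsClassicalSolution T u p) {t : ℝ}
    (ht : t ∈ Ico 0 T) (x : E3) {ρ : ℝ} (hρ : ρ ≤ 1) :
    ∫ y in closedBall (0 : E3) ρ, ‖u t (x + y)‖ ^ 2 ≤ ∫ x in Qb, ‖u 0 x‖ ^ 2 := by
  rw [← h.energy_const ht]
  obtain ⟨v, hv, hv'⟩ := exists_shift x
  have e1 : ∀ y, u t (x + y) = u t ((x + v) + y) := by
    intro y
    rw [← hv' E3 (u t) (h.periodic_u t ht) (x + y)]
    congr 1
    abel
  simp only [e1]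
  set z := x + v with hz
  have hc : Continuous (fun y => ‖u t y‖ ^ 2) := ((h.contDiff_space ht).continuous.norm).pow 2
  have h1 : ∫ y in closedBall (0 : E3) ρ, ‖u t (z + y)‖ ^ 2
      = ∫ y in closedBall z ρ, ‖u t y‖ ^ 2 := by
    have hpre : (fun y => z + y) ⁻¹' closedBall z ρ = closedBall (0 : E3) ρ := by
      ext y
      simp [dist_eq_norm]
    rw [← hpre]
    exact (measurePreserving_add_left volume z).setIntegral_preimage_emb
      (measurableEmbedding_addLeft z) (fun y => ‖u t y‖ ^ 2) (closedBall z ρ)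
  rw [h1]
  apply setIntegral_mono_set
  · exact hc.continuousOn.integrableOn_compact Qb_compact
  · exact ae_of_all _ fun y => by positivity
  · apply LE.le.eventuallyLE
    intro y hy i
    have hy1 : ‖y‖ ≤ 14 := by
      have : ‖y - z‖ ≤ 1 := by
        rw [mem_closedBall, dist_eq_norm] at hy
        exact hy.trans hρ
      calc ‖y‖ = ‖(y - z) + z‖ := by rw [sub_add_cancel]
        _ ≤ ‖y - z‖ + ‖z‖ := norm_add_le _ _
        _ ≤ 14 := by linarith
    have h2 : |y i| ≤ ‖y‖ := by
      have := PiLp.norm_apply_le y i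
      rwa [Real.norm_eq_abs] at this
    have h3 : |y i| ≤ 14 := h2.trans hy1
    have hpi := Real.pi_gt_three
    rw [abs_le] at h3
    constructor <;> linarith [h3.1, h3.2]

end Pool.Agent.Work.MP_b0497c_an
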