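import Mathlib

set_option autoImplicit false
set_option maxHeartbeats 1000000

/-!
Explicit smooth radial cutoffs, functions of `q = |y|²`.
-/

namespace Pool.Agent.Work.MP_b0497c_an

open Set MeasureTheory Filter Topology
open scoped ContDiff

/-- Smooth step: `0` for `q ≤ 1/4`, `1` for `q ≥ 1`. -/
noncomputable def stp (q : ℝ) : ℝ := Real.smoothTransition ((4 * q - 1) / 3)

theorem stp_contDiff : ContDiff ℝ ∞ stp := by
  unfold stp
  exact Real.smoothTransition.contDiff.comp (by fun_prop)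

theorem stp_zero {q : ℝ} (h : q ≤ 1 / 4) : stp q = 0 :=
  Real.smoothTransition.zero_of_nonpos (by linarith)

theorem stp_one {q : ℝ} (h : 1 ≤ q) : stp q = 1 :=
  Real.smoothTransition.one_of_one_le (by linarith)

theorem stp_mono : Monotone stp := by
  intro a b hab
  exact Real.smoothTransition.monotone (by linarith)

theorem stp_nonneg (q : ℝ) : 0 ≤ stp q := Real.smoothTransition.nonneg _

theorem stp_le_one (q : ℝ) : stp q ≤ 1 := Real.smoothTransition.le_one _

/-- `H q = stp q * q^(-5/2)`. -/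
noncomputable def Hf (q : ℝ) : ℝ := stp q * q ^ (-(5 / 2) : ℝ)

theorem Hf_zero {q : ℝ} (h : q ≤ 1 / 4) : Hf q = 0 := by rw [Hf, stp_zero h, zero_mul]

theorem Hf_contDiff : ContDiff ℝ ∞ Hf := by
  rw [contDiff_iff_contDiffAt]
  intro q
  rcases lt_or_ge q (1 / 4) with hq | hq
  · have : Hf =ᶠ[𝓝 q] fun _ => 0 := by
      filter_upwards [Iio_mem_nhds hq] with r hr
      exact Hf_zero (le_of_lt hr)
    exact contDiffAt_const.congr_of_eventuallyEq this
  · have hq0 : q ≠ 0 := by linarith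
    exact stp_contDiff.contDiffAt.mul (Real.contDiffAt_rpow_const_of_ne hq0)

theorem Hf_nonneg {q : ℝ} (hq : 0 ≤ q) : 0 ≤ Hf q :=
  mul_nonneg (stp_nonneg q) (Real.rpow_nonneg hq _)

/-- Primitive of `H` with the right value at infinity. -/
noncomputable def Ff (q : ℝ) : ℝ := -(2 / 3) + ∫ τ in (1 : ℝ)..q, Hf τ

theorem Ff_hasDerivAt (q : ℝ) : HasDerivAt Ff (Hf q) q := by
  unfold Ff
  have h1 := Hf_contDiff.continuous
  have := intervalIntegral.integral_hasDerivAt_right (h1.intervalIntegrable 1 q)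
    (h1.stronglyMeasurableAtFilter _ _) h1.continuousAt
  exact this.const_add (-(2 / 3))

theorem Ff_contDiff : ContDiff ℝ ∞ Ff := by
  rw [contDiff_infty_iff_deriv]
  refine ⟨fun q => (Ff_hasDerivAt q).differentiableAt, ?_⟩
  have : deriv Ff = Hf := funext fun q => (Ff_hasDerivAt q).deriv
  rw [this]
  exact Hf_contDiff

theorem Ff_eq {q : ℝ} (hq : 1 ≤ q) : Ff q = -(2 / 3) * q ^ (-(3 / 2) : ℝ) := by
  unfold Ff
  have h1 : ∫ τ in (1 : ℝ)..q, Hf τ = ∫ τ in (1 : ℝ)..q, τ ^ (-(5 / 2) : ℝ) := by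
    apply intervalIntegral.integral_congr
    intro τ hτ
    rw [uIcc_of_le hq] at hτ
    simp only [Hf]
    rw [stp_one hτ.1, one_mul]
  rw [h1, integral_rpow (Or.inr ⟨by norm_num, by rw [uIcc_of_le hq]; intro h; linarith [h.1]⟩)]
  norm_num
  ring

/-- The bump. -/
noncomputable def ps (q : ℝ) : ℝ := -6 * Ff q - 4 * q * Hf q

theorem ps_contDiff : ContDiff ℝ ∞ ps := by
  unfold ps
  exact (contDiff_const.mul Ff_contDiff).sub ((contDiff_const.mul contDiff_id).mul Hf_contDiff)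

theorem ps_zero {q : ℝ} (hq : 1 ≤ q) : ps q = 0 := by
  have hq0 : 0 < q := by linarith
  unfold ps Hf
  rw [Ff_eq hq, stp_one hq]
  have : q ^ (-(3 / 2) : ℝ) = q * q ^ (-(5 / 2) : ℝ) := by
    rw [← Real.rpow_one_add' hq0.le (by norm_num)]
    norm_num
  rw [this]
  ring

theorem Hf_hasDerivAt {q : ℝ} (hq : 0 < q) :
    HasDerivAt Hf (deriv stp q * q ^ (-(5 / 2) : ℝ)
      + stp q * (-(5 / 2) * q ^ (-(7 / 2) : ℝ))) q := by
  have h1 : HasDerivAt stp (deriv stp q) q :=
    (stp_contDiff.differentiable (by simp) q).hasDerivAt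
  have h2 : HasDerivAt (fun x : ℝ => x ^ (-(5 / 2) : ℝ)) (-(5 / 2) * q ^ (-(7 / 2) : ℝ)) q := by
    have := Real.hasDerivAt_rpow_const (x := q) (p := -(5 / 2)) (Or.inl hq.ne')
    convert this using 2
    norm_num
  exact h1.mul h2

theorem ps_hasDerivAt {q : ℝ} (hq : 0 < q) :
    HasDerivAt ps (-4 * deriv stp q * q ^ (-(3 / 2) : ℝ)) q := by
  have h := ((Ff_hasDerivAt q).const_mul (-6)).sub
    (((hasDerivAt_id q).const_mul 4).mul (Hf_hasDerivAt hq))
  have e1 : q ^ (-(3 / 2) : ℝ) = q * q ^ (-(5 / 2) : ℝ) := by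
    rw [← Real.rpow_one_add' hq.le (by norm_num)]
    norm_num
  have e2 : q ^ (-(5 / 2) : ℝ) = q * q ^ (-(7 / 2) : ℝ) := by
    rw [← Real.rpow_one_add' hq.le (by norm_num)]
    norm_num
  have h' : HasDerivAt ps (-6 * Hf q - (4 * 1 * Hf q + 4 * q * (deriv stp q * q ^ (-(5 / 2) : ℝ)
      + stp q * (-(5 / 2) * q ^ (-(7 / 2) : ℝ))))) q := h
  convert h' using 1
  unfold Hf
  rw [e1, e2]
  ring

theorem deriv_stp_nonneg (q : ℝ) : 0 ≤ deriv stp q := stp_mono.deriv_nonneg

theorem ps_deriv_nonpos (q : ℝ) : deriv ps q ≤ 0 := by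
  rcases lt_or_ge 0 q with hq | hq
  · rw [(ps_hasDerivAt hq).deriv]
    have h1 := deriv_stp_nonneg q
    have h2 : 0 ≤ q ^ (-(3 / 2) : ℝ) := Real.rpow_nonneg hq.le _
    have := mul_nonneg h1 h2
    nlinarith
  · have : ps =ᶠ[𝓝 q] fun _ => -6 * Ff 0 := by
      filter_upwards [Iio_mem_nhds (show q < 1 / 4 by linarith)] with r hr
      have hr' : r < 1 / 4 := hr
      unfold ps
      rw [Hf_zero hr'.le, mul_zero, sub_zero]
      congr 1
      unfold Ff
      congr 1
      have h3 : ∫ τ in (0 : ℝ)..r, Hf τ = 0 := by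
        have : ∫ τ in (0 : ℝ)..r, Hf τ = ∫ τ in (0 : ℝ)..r, (0 : ℝ) := by
          apply intervalIntegral.integral_congr
          intro τ hτ
          have h4 : τ ≤ max 0 r := hτ.2
          exact Hf_zero (h4.trans (max_le (by norm_num) hr'.le))
        rw [this]
        simp
      have h1 := Hf_contDiff.continuous
      rw [← intervalIntegral.integral_add_adjacent_intervals (h1.intervalIntegrable 1 0)
        (h1.intervalIntegrable 0 r), h3, add_zero]
    rw [this.deriv_eq]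
    simp

theorem ps_antitone : Antitone ps :=
  antitone_of_deriv_nonpos (ps_contDiff.differentiable (by simp)) ps_deriv_nonpos

theorem ps_nonneg (q : ℝ) : 0 ≤ ps q := by
  rcases le_or_gt 1 q with hq | hq
  · rw [ps_zero hq]
  · rw [← ps_zero (le_refl (1 : ℝ))]
    exact ps_antitone hq.le

theorem ps_pos : 0 < ps 0 := by
  unfold ps Ff
  have h1 : ∫ τ in (1 : ℝ)..0, Hf τ ≤ 0 := by
    rw [intervalIntegral.integral_symm]
    have : 0 ≤ ∫ τ in (0 : ℝ)..1, Hf τ :=
      intervalIntegral.integral_nonneg zero_le_one (fun τ hτ => Hf_nonneg hτ.1)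
    linarith
  rw [mul_zero, zero_mul, sub_zero]
  linarith

theorem ps_deriv_bound : ∃ C : ℝ, 0 < C ∧ ∀ q, 0 ≤ q → |deriv ps q| ≤ C := by
  have hc : Continuous (deriv ps) := ps_contDiff.continuous_deriv (by simp)
  obtain ⟨C, hC⟩ := (isCompact_Icc (a := (0 : ℝ)) (b := 2)).exists_bound_of_continuousOn
    hc.continuousOn
  refine ⟨max C 1, by positivity, ?_⟩
  intro q hq
  rcases le_or_gt q 2 with h2 | h2
  · exact (hC q ⟨hq, h2⟩).trans (le_max_left _ _)
  · have : ps =ᶠ[𝓝 q] fun _ => 0 := by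
      filter_upwards [Ioi_mem_nhds h2] with r hr
      have hr' : 2 < r := hr
      exact ps_zero (by linarith)
    rw [this.deriv_eq]
    simp

end Pool.Agent.Work.MP_b0497c_an
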