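import Mathlib
import Pool.Agent.Work.MP_b0497c_an.Algebra
import Pool.Agent.Work.MP_b0497c_an.Cutoff

set_option autoImplicit false
set_option maxHeartbeats 1000000

/-!
Exact local representation of the vortex stretching rate.
-/

namespace Pool.Agent.Work.MP_b0497c_an

open Set RealInnerProductSpace Metric MeasureTheory Filter Topology
open scoped ContDiff

/-- Swapping directions of derivatives under the integral. -/
theorem swap_int {v f : E3 → ℝ} (hv : ContDiff ℝ 1 v) (hf : ContDiff ℝ 2 f)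
    (hs : HasCompactSupport f) (a b : E3) :
    ∫ y, fderiv ℝ v y a * fderiv ℝ f y b = ∫ y, fderiv ℝ v y b * fderiv ℝ f y a := by
  have hf1 : ContDiff ℝ 1 (fderiv ℝ f) := hf.fderiv_right (by norm_num)
  have hfc : ∀ c : E3, ContDiff ℝ 1 (fun y => fderiv ℝ f y c) := fun c =>
    hf1.clm_apply contDiff_const
  have hsc : ∀ c : E3, HasCompactSupport (fun y => fderiv ℝ f y c) := fun c =>
    (hs.fderiv (𝕜 := ℝ)).comp_left (g := fun L : E3 →L[ℝ] ℝ => L c) rfl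
  have hvc : ∀ c : E3, Continuous (fun y => fderiv ℝ v y c) := fun c =>
    (hv.continuous_fderiv (by norm_num)).clm_apply continuous_const
  have hfcc : ∀ c d : E3, Continuous (fun y => fderiv ℝ (fun z => fderiv ℝ f z c) y d) := fun c d =>
    ((hfc c).continuous_fderiv (by norm_num)).clm_apply continuous_const
  have hscc : ∀ c d : E3, HasCompactSupport (fun y => fderiv ℝ (fun z => fderiv ℝ f z c) y d) :=
    fun c d => ((hsc c).fderiv (𝕜 := ℝ)).comp_left (g := fun L : E3 →L[ℝ] ℝ => L d) rfl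
  have ibp : ∀ c d : E3, ∫ y, v y * fderiv ℝ (fun z => fderiv ℝ f z c) y d
      = - ∫ y, fderiv ℝ v y d * fderiv ℝ f y c := by
    intro c d
    apply integral_mul_fderiv_eq_neg_fderiv_mul_of_integrable
    · exact ((hvc d).mul (hfc c).continuous).integrable_of_hasCompactSupport
        ((hsc c).mul_left)
    · exact (hv.continuous.mul (hfcc c d)).integrable_of_hasCompactSupport
        ((hscc c d).mul_left)
    · exact (hv.continuous.mul (hfc c).continuous).integrable_of_hasCompactSupport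
        ((hsc c).mul_left)
    · intro x _
      exact (hv.differentiable (by norm_num)) x
    · intro x _
      exact ((hfc c).differentiable (by norm_num)) x
  have hsym : ∀ y, fderiv ℝ (fun z => fderiv ℝ f z a) y b = fderiv ℝ (fun z => fderiv ℝ f z b) y a := by
    intro y
    have h1 : ∀ c d : E3, fderiv ℝ (fun z => fderiv ℝ f z c) y d = fderiv ℝ (fderiv ℝ f) y d c := by
      intro c d
      have := ((hf1.differentiable (by norm_num) y).hasFDerivAt.clm_apply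
        (hasFDerivAt_const c y)).fderiv
      rw [this]
      simp
    rw [h1, h1]
    have hsy : IsSymmSndFDerivAt ℝ f y :=
      (hf.contDiffAt (x := y)).isSymmSndFDerivAt (by simp)
    exact hsy.eq b a
  have e1 := ibp a b
  have e2 := ibp b a
  have e3 : ∫ y, v y * fderiv ℝ (fun z => fderiv ℝ f z a) y b
      = ∫ y, v y * fderiv ℝ (fun z => fderiv ℝ f z b) y a := by
    congr 1
    funext y
    rw [hsym]
  rw [e3, e2] at e1
  have e4 : ∫ y, fderiv ℝ v y a * fderiv ℝ f y b = ∫ y, fderiv ℝ v y b * fderiv ℝ f y a := by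
    linarith
  exact e4

/-- `n1` -/
noncomputable def n1 (ε ρ q : ℝ) : ℝ := (ε ^ 3)⁻¹ * Ff (q / ε ^ 2) - (ρ ^ 3)⁻¹ * Ff (q / ρ ^ 2)

/-- `hh` is the derivative of `n1` -/
noncomputable def hh (ε ρ q : ℝ) : ℝ := (ε ^ 5)⁻¹ * Hf (q / ε ^ 2) - (ρ ^ 5)⁻¹ * Hf (q / ρ ^ 2)

/-- the scaled bump -/
noncomputable def psi (s : ℝ) (y : E3) : ℝ := (s ^ 3)⁻¹ * ps (‖y‖ ^ 2 / s ^ 2)

theorem n1_contDiff (ε ρ : ℝ) : ContDiff ℝ ∞ (n1 ε ρ) := by
  unfold n1
  exact (contDiff_const.mul (Ff_contDiff.comp (contDiff_id.div_const _))).sub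
    (contDiff_const.mul (Ff_contDiff.comp (contDiff_id.div_const _)))

theorem hh_contDiff (ε ρ : ℝ) : ContDiff ℝ ∞ (hh ε ρ) := by
  unfold hh
  exact (contDiff_const.mul (Hf_contDiff.comp (contDiff_id.div_const _))).sub
    (contDiff_const.mul (Hf_contDiff.comp (contDiff_id.div_const _)))

theorem n1_hasDerivAt {ε ρ : ℝ} (hε : 0 < ε) (hρ : 0 < ρ) (q : ℝ) :
    HasDerivAt (n1 ε ρ) (hh ε ρ q) q := by
  have h : ∀ s : ℝ, 0 < s → HasDerivAt (fun q => (s ^ 3)⁻¹ * Ff (q / s ^ 2))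
      ((s ^ 5)⁻¹ * Hf (q / s ^ 2)) q := by
    intro s hs
    have h1 : HasDerivAt (fun q : ℝ => q / s ^ 2) (1 / s ^ 2) q :=
      (hasDerivAt_id q).div_const _
    have h2 := ((Ff_hasDerivAt (q / s ^ 2)).comp q h1).const_mul (s ^ 3)⁻¹
    have e1 : (s ^ 5)⁻¹ * Hf (q / s ^ 2) = (s ^ 3)⁻¹ * (Hf (q / s ^ 2) * (1 / s ^ 2)) := by
      rw [show (s ^ 5)⁻¹ = (s ^ 3)⁻¹ * (s ^ 2)⁻¹ by rw [← mul_inv]; ring_nf]
      ring
    rw [e1]
    exact h2
  exact (h ε hε).sub (h ρ hρ)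

theorem n1_zero {ε ρ q : ℝ} (hε : 0 < ε) (hερ : ε < ρ) (hq : ρ ^ 2 ≤ q) : n1 ε ρ q = 0 := by
  have hρ : 0 < ρ := hε.trans hερ
  have hq0 : 0 < q := (by positivity : (0:ℝ) < ρ ^ 2).trans_le hq
  have h : ∀ s : ℝ, 0 < s → s ≤ ρ → (s ^ 3)⁻¹ * Ff (q / s ^ 2) = -(2 / 3) * q ^ (-(3 / 2) : ℝ) := by
    intro s hs hsρ
    have hs2 : s ^ 2 ≤ q := (pow_le_pow_left₀ hs.le hsρ 2).trans hq
    have h1 : 1 ≤ q / s ^ 2 := by rwa [one_le_div (by positivity)]
    rw [Ff_eq h1, Real.div_rpow hq0.le (by positivity)]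
    have h2 : (s ^ 2) ^ (-(3 / 2) : ℝ) = (s ^ 3)⁻¹ := by
      rw [← Real.rpow_natCast s 2, ← Real.rpow_mul hs.le, ← Real.rpow_natCast s 3,
        ← Real.rpow_neg hs.le]
      norm_num
    rw [h2]
    field_simp
  unfold n1
  rw [h ε hε hερ.le, h ρ hρ le_rfl, sub_self]

theorem psi_sub (ε ρ : ℝ) (y : E3) :
    psi ε y - psi ρ y = -(6 * n1 ε ρ (‖y‖ ^ 2) + 4 * ‖y‖ ^ 2 * hh ε ρ (‖y‖ ^ 2)) := by
  unfold psi ps n1 hh
  have h : ∀ s : ℝ, (s ^ 5)⁻¹ = (s ^ 3)⁻¹ * (s ^ 2)⁻¹ := by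
    intro s; rw [← mul_inv]; ring_nf
  rw [h ε, h ρ]
  simp only [div_eq_mul_inv]
  ring

/-- the field `f_a` -/
noncomputable def fa (ε ρ : ℝ) (a y : E3) : ℝ := 2 * ⟪y, a⟫ * n1 ε ρ (‖y‖ ^ 2)

theorem fa_contDiff (ε ρ : ℝ) (a : E3) : ContDiff ℝ 2 (fa ε ρ a) := by
  unfold fa
  have h1 : ContDiff ℝ 2 (fun y : E3 => ⟪y, a⟫) := contDiff_id.inner ℝ contDiff_const
  have h2 : ContDiff ℝ 2 (n1 ε ρ) := contDiff_infty.mp (n1_contDiff ε ρ) 2
  have h3 : ContDiff ℝ 2 (fun y : E3 => ‖y‖ ^ 2) := contDiff_norm_sq ℝ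
  exact (contDiff_const.mul h1).mul (h2.comp h3)

theorem fa_compact {ε ρ : ℝ} (hε : 0 < ε) (hερ : ε < ρ) (a : E3) :
    HasCompactSupport (fa ε ρ a) := by
  apply HasCompactSupport.of_support_subset_isCompact (isCompact_closedBall (0 : E3) ρ)
  intro y hy
  rw [Function.mem_support] at hy
  by_contra hcon
  rw [mem_closedBall, dist_zero_right, not_le] at hcon
  apply hy
  unfold fa
  rw [n1_zero hε hερ (by
    have hρ : 0 < ρ := hε.trans hερ
    exact pow_le_pow_left₀ hρ.le hcon.le 2), mul_zero]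

theorem fa_fderiv {ε ρ : ℝ} (hε : 0 < ε) (hρ : 0 < ρ) (a b y : E3) :
    fderiv ℝ (fa ε ρ a) y b = 2 * ⟪b, a⟫ * n1 ε ρ (‖y‖ ^ 2)
      + 4 * ⟪y, a⟫ * ⟪y, b⟫ * hh ε ρ (‖y‖ ^ 2) := by
  have h1 : HasFDerivAt (fun y : E3 => ‖y‖ ^ 2) (2 • (innerSL ℝ y)) y := by
    have := (hasStrictFDerivAt_norm_sq y).hasFDerivAt
    exact this
  have h2 : HasFDerivAt (fun y : E3 => n1 ε ρ (‖y‖ ^ 2)) (hh ε ρ (‖y‖ ^ 2) • (2 • (innerSL ℝ y))) y :=
    HasDerivAt.comp_hasFDerivAt (h₂ := n1 ε ρ) (f := fun y : E3 => ‖y‖ ^ 2) y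
      (n1_hasDerivAt hε hρ (‖y‖ ^ 2)) h1
  have h3 : HasFDerivAt (fun y : E3 => 2 * ⟪y, a⟫) ((2 : ℝ) • (innerSL ℝ a)) y := by
    have : (fun y : E3 => 2 * ⟪y, a⟫) = fun y => ((2 : ℝ) • (innerSL ℝ a)) y := by
      funext z
      simp [real_inner_comm]
    rw [this]
    exact ((2 : ℝ) • (innerSL ℝ a)).hasFDerivAt
  have h4 := (h3.mul h2).fderiv
  have h5 : fderiv ℝ (fa ε ρ a) y = _ := h4
  rw [h5]
  simp only [add_apply, smul_apply, innerSL_apply_apply,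
    smul_eq_mul, nsmul_eq_mul]
  rw [real_inner_comm a b]
  push_cast
  ring

theorem inner_e (i : Fin 3) (x : E3) : ⟪x, e i⟫ = x i := by
  rw [inner_eq]
  fin_cases i <;> simp [e]

/-- The exact local identity for a `C¹` divergence free field. -/
theorem local_identity {v : E3 → E3} (hv : ContDiff ℝ 1 v)
    (hdiv : ∀ y, LinearMap.trace ℝ E3 (fderiv ℝ v y) = 0) (ξ : E3) {ε ρ : ℝ} (hε : 0 < ε)
    (hερ : ε < ρ) :
    ∫ y, ⟪ξ, fderiv ℝ v y ξ⟫ * (psi ε y - psi ρ y)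
      = 4 * ∫ y, hh ε ρ (‖y‖ ^ 2) * (⟪y, ξ⟫ * det3 y (curl v y) ξ) := by
  have hρ : 0 < ρ := hε.trans hερ
  have hvi : ∀ i : Fin 3, ContDiff ℝ 1 (fun y => (v y) i) := fun i =>
    (EuclideanSpace.proj (𝕜 := ℝ) (ι := Fin 3) i).contDiff.comp hv
  have hdv : ∀ y, HasFDerivAt v (fderiv ℝ v y) y := fun y =>
    (hv.differentiable (by norm_num) y).hasFDerivAt
  have hvid : ∀ (i : Fin 3) (y b : E3), fderiv ℝ (fun y => (v y) i) y b = (fderiv ℝ v y b) i := by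
    intro i y b
    have := ((EuclideanSpace.proj (𝕜 := ℝ) (ι := Fin 3) i).hasFDerivAt.comp y (hdv y)).fderiv
    have h2 : fderiv ℝ (fun y => (v y) i) y = _ := this
    rw [h2]
    simp
  set w : E3 → ℝ := fun y => ⟪ξ, v y⟫ with hw
  have hwc : ContDiff ℝ 1 w := contDiff_const.inner ℝ hv
  have hwd : ∀ y b : E3, fderiv ℝ w y b = ⟪ξ, fderiv ℝ v y b⟫ := by
    intro y b
    have := ((innerSL ℝ ξ).hasFDerivAt.comp y (hdv y)).fderiv
    have h2 : fderiv ℝ w y = _ := this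
    rw [h2]
    simp
  -- continuity facts for integrability
  have hcv : Continuous (fun y => fderiv ℝ v y) := hv.continuous_fderiv (by norm_num)
  have hwdc : ∀ b, Continuous (fun y => fderiv ℝ w y b) := fun b =>
    (hwc.continuous_fderiv (by norm_num)).clm_apply continuous_const
  have hvidc : ∀ i b, Continuous (fun y => fderiv ℝ (fun y => (v y) i) y b) := fun i b =>
    ((hvi i).continuous_fderiv (by norm_num)).clm_apply continuous_const
  have hfdc : ∀ a b, Continuous (fun y => fderiv ℝ (fa ε ρ a) y b) := fun a b =>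
    ((fa_contDiff ε ρ a).continuous_fderiv (by norm_num)).clm_apply continuous_const
  have hfds : ∀ a b, HasCompactSupport (fun y => fderiv ℝ (fa ε ρ a) y b) := fun a b =>
    ((fa_compact hε hερ a).fderiv (𝕜 := ℝ)).comp_left (g := fun L : E3 →L[ℝ] ℝ => L b) rfl
  have hI1 : ∀ a b c, Integrable (fun y => fderiv ℝ w y c * fderiv ℝ (fa ε ρ a) y b) := fun a b c =>
    ((hwdc c).mul (hfdc a b)).integrable_of_hasCompactSupport ((hfds a b).mul_left)
  have hI2 : ∀ i a b c, Integrable (fun y => fderiv ℝ (fun y => (v y) i) y c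
      * fderiv ℝ (fa ε ρ a) y b) := fun i a b c =>
    ((hvidc i c).mul (hfdc a b)).integrable_of_hasCompactSupport ((hfds a b).mul_left)
  -- step 1
  have s1 : ∫ y, ⟪ξ, fderiv ℝ v y ξ⟫ * (psi ε y - psi ρ y)
      = - ∑ i : Fin 3, ∫ y, fderiv ℝ w y ξ * fderiv ℝ (fa ε ρ (e i)) y (e i) := by
    rw [← integral_finsetSum _ (fun i _ => hI1 (e i) (e i) ξ), ← integral_neg]
    congr 1
    funext y
    rw [psi_sub, ← Finset.mul_sum, hwd, ← mul_neg]
    congr 1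
    rw [Fin.sum_univ_three, fa_fderiv hε hρ, fa_fderiv hε hρ, fa_fderiv hε hρ]
    simp only [inner_e]
    rw [norm_sq_eq]
    simp [e]
    ring
  -- step 2
  have s2 : ∀ i : Fin 3, ∫ y, fderiv ℝ w y ξ * fderiv ℝ (fa ε ρ (e i)) y (e i)
      = ∫ y, fderiv ℝ w y (e i) * fderiv ℝ (fa ε ρ ξ) y (e i) := by
    intro i
    rw [swap_int hwc (fa_contDiff ε ρ (e i)) (fa_compact hε hερ (e i)) ξ (e i)]
    congr 1
    funext y
    congr 1
    rw [fa_fderiv hε hρ, fa_fderiv hε hρ, real_inner_comm ξ (e i)]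
    ring
  -- step 3 : the divergence free part
  have s3 : ∑ i : Fin 3, ∫ y, fderiv ℝ (fun y => (v y) i) y ξ * fderiv ℝ (fa ε ρ ξ) y (e i) = 0 := by
    have h1 : ∀ i : Fin 3, ∫ y, fderiv ℝ (fun y => (v y) i) y ξ * fderiv ℝ (fa ε ρ ξ) y (e i)
        = ∫ y, fderiv ℝ (fun y => (v y) i) y (e i) * fderiv ℝ (fa ε ρ ξ) y ξ := fun i =>
      swap_int (hvi i) (fa_contDiff ε ρ ξ) (fa_compact hε hερ ξ) ξ (e i)
    simp only [h1]
    rw [← integral_finsetSum _ (fun i _ => hI2 i ξ ξ (e i))]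
    have : ∀ y, ∑ i : Fin 3, fderiv ℝ (fun y => (v y) i) y (e i) * fderiv ℝ (fa ε ρ ξ) y ξ = 0 := by
      intro y
      rw [← Finset.sum_mul, Fin.sum_univ_three]
      simp only [hvid]
      have := hdiv y
      rw [trace_eq] at this
      rw [this, zero_mul]
    simp only [this, integral_zero]
  -- step 4 : combine
  rw [s1]
  simp only [s2]
  have s4 : - ∑ i : Fin 3, ∫ y, fderiv ℝ w y (e i) * fderiv ℝ (fa ε ρ ξ) y (e i)
      = (- ∑ i : Fin 3, ∫ y, fderiv ℝ w y (e i) * fderiv ℝ (fa ε ρ ξ) y (e i))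
        + ∑ i : Fin 3, ∫ y, fderiv ℝ (fun y => (v y) i) y ξ * fderiv ℝ (fa ε ρ ξ) y (e i) := by
    rw [s3, add_zero]
  have J1 : Integrable (fun y => -∑ i : Fin 3, fderiv ℝ w y (e i) * fderiv ℝ (fa ε ρ ξ) y (e i)) :=
    (integrable_finsetSum _ (fun i _ => hI1 ξ (e i) (e i))).neg
  have J2 : Integrable (fun y => ∑ i : Fin 3, fderiv ℝ (fun y => (v y) i) y ξ
      * fderiv ℝ (fa ε ρ ξ) y (e i)) :=
    integrable_finsetSum _ (fun i _ => hI2 i ξ (e i) ξ)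
  rw [s4, ← integral_finsetSum _ (fun i _ => hI1 ξ (e i) (e i)),
    ← integral_finsetSum _ (fun i _ => hI2 i ξ (e i) ξ), ← integral_neg,
    ← integral_add J1 J2, ← integral_const_mul]
  congr 1
  funext y
  -- pointwise algebra
  set A := fderiv ℝ v y with hA
  set b : E3 := (2 * n1 ε ρ (‖y‖ ^ 2)) • ξ + (4 * ⟪y, ξ⟫ * hh ε ρ (‖y‖ ^ 2)) • y with hb
  have hbi : ∀ i : Fin 3, fderiv ℝ (fa ε ρ ξ) y (e i) = b i := by
    intro i
    rw [fa_fderiv hε hρ, real_inner_comm ξ (e i), inner_e, inner_e, hb]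
    simp
    ring
  have h5 := antisymm_eq A b ξ
  have h6 : ⟪ξ, A b⟫ = ∑ i : Fin 3, fderiv ℝ w y (e i) * fderiv ℝ (fa ε ρ ξ) y (e i) := by
    simp only [hwd, hbi]
    rw [Fin.sum_univ_three]
    conv_lhs => rw [expand b]
    simp only [map_add, map_smul, inner_add_right, inner_smul_right]
    ring
  have h7 : ⟪b, A ξ⟫ = ∑ i : Fin 3, fderiv ℝ (fun y => (v y) i) y ξ * fderiv ℝ (fa ε ρ ξ) y (e i) := by
    simp only [hvid, hbi]
    rw [Fin.sum_univ_three, inner_eq]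
    ring
  rw [← h6, ← h7]
  have h8 : -⟪ξ, A b⟫ + ⟪b, A ξ⟫ = - det3 ξ (axial A) b := by
    rw [← h5]; ring
  rw [h8]
  change - det3 ξ (axial A) b = 4 * (hh ε ρ (‖y‖ ^ 2) * (⟪y, ξ⟫ * det3 y (axial A) ξ))
  rw [hb]
  unfold det3
  simp
  ring

end Pool.Agent.Work.MP_b0497c_an
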