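import Mathlib
import Pool.Agent.Work.MP_b0497c_an.LocalId

set_option autoImplicit false
set_option maxHeartbeats 1000000

/-!
One-sided local bound for the vortex stretching rate.
-/

namespace Pool.Agent.Work.MP_b0497c_an

open Set RealInnerProductSpace Metric MeasureTheory Filter Topology
open scoped ContDiff

/-- The layer decomposition of the kernel weight. -/
theorem stp_layer {a b : ℝ} (hab : a ≤ b) :
    ∫ κ, (Ico a b).indicator (deriv stp) κ = stp b - stp a := by
  rw [integral_indicator measurableSet_Ico, integral_Ico_eq_integral_Ioo,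
    ← integral_Ioc_eq_integral_Ioo, ← intervalIntegral.integral_of_le hab]
  apply intervalIntegral.integral_deriv_eq_sub
  · intro x _
    exact stp_contDiff.differentiable (by simp) x
  · exact (stp_contDiff.continuous_deriv (by simp)).intervalIntegrable _ _

theorem deriv_stp_zero_left {κ : ℝ} (h : κ < 1 / 4) : deriv stp κ = 0 := by
  have : stp =ᶠ[𝓝 κ] fun _ => 0 := by
    filter_upwards [Iio_mem_nhds h] with r hr
    exact stp_zero (le_of_lt hr)
  rw [this.deriv_eq]
  simp

theorem deriv_stp_zero_right {κ : ℝ} (h : 1 < κ) : deriv stp κ = 0 := by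
  have : stp =ᶠ[𝓝 κ] fun _ => 1 := by
    filter_upwards [Ioi_mem_nhds h] with r hr
    exact stp_one (le_of_lt hr)
  rw [this.deriv_eq]
  simp

theorem deriv_stp_compact : HasCompactSupport (deriv stp) := by
  apply HasCompactSupport.of_support_subset_isCompact (isCompact_Icc (a := (1 / 4 : ℝ)) (b := 1))
  intro κ hκ
  rw [Function.mem_support] at hκ
  constructor
  · by_contra hcon
    exact hκ (deriv_stp_zero_left (not_le.mp hcon))
  · by_contra hcon
    exact hκ (deriv_stp_zero_right (not_le.mp hcon))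

theorem deriv_stp_integrable : Integrable (deriv stp) :=
  (stp_contDiff.continuous_deriv (by simp)).integrable_of_hasCompactSupport deriv_stp_compact

theorem integral_deriv_stp : ∫ κ, deriv stp κ = 1 := by
  have h := stp_layer (a := 0) (b := 2) (by norm_num)
  rw [stp_one (by norm_num), stp_zero (by norm_num)] at h
  rw [← sub_zero (1 : ℝ), ← h]
  congr 1
  funext κ
  by_cases hκ : κ ∈ Ico (0 : ℝ) 2
  · rw [indicator_of_mem hκ]
  · rw [indicator_of_notMem hκ]
    rw [mem_Ico, not_and_or, not_le, not_lt] at hκ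
    rcases hκ with h1 | h1
    · exact deriv_stp_zero_left (by linarith)
    · exact deriv_stp_zero_right (by linarith)

/-- The value of `hh` at `‖y‖²`. -/
theorem hh_norm {ε ρ : ℝ} (hε : 0 < ε) (hρ : 0 < ρ) (y : E3) :
    hh ε ρ (‖y‖ ^ 2) = (stp (‖y‖ ^ 2 / ε ^ 2) - stp (‖y‖ ^ 2 / ρ ^ 2)) / ‖y‖ ^ 5 := by
  have h : ∀ s : ℝ, 0 < s → (s ^ 5)⁻¹ * Hf (‖y‖ ^ 2 / s ^ 2) = stp (‖y‖ ^ 2 / s ^ 2) / ‖y‖ ^ 5 := by
    intro s hs
    unfold Hf
    rcases eq_or_ne y 0 with hy | hy
    · subst hy
      have : stp (‖(0 : E3)‖ ^ 2 / s ^ 2) = 0 := stp_zero (by simp)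
      rw [this]
      simp
    · have hy' : 0 < ‖y‖ := norm_pos_iff.mpr hy
      have h1 : (‖y‖ ^ 2 / s ^ 2) ^ (-(5 / 2) : ℝ) = s ^ 5 / ‖y‖ ^ 5 := by
        rw [← div_pow, ← Real.rpow_natCast (‖y‖ / s) 2, ← Real.rpow_mul (by positivity)]
        have : (((2 : ℕ) : ℝ) * (-(5 / 2))) = -((5 : ℕ) : ℝ) := by norm_num
        rw [this, Real.rpow_neg (by positivity), Real.rpow_natCast, div_pow, inv_div]
      rw [h1]
      field_simp
  unfold hh
  rw [h ε hε, h ρ hρ]
  ring

/-- Mixing of shells: a bound for all the shell integrals bounds the smoothed integral. -/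
theorem shell_mix {k : E3 → ℝ} (hk : ContinuousOn k {y : E3 | y ≠ 0}) {ε ρ K : ℝ} (hε : 0 < ε)
    (hερ : ε < ρ)
    (hK : ∀ ε' r : ℝ, 0 < ε' → ε' < r → r ≤ ρ → ∫ y in {y : E3 | ε' < ‖y‖ ∧ ‖y‖ ≤ r}, k y ≤ K) :
    ∫ y, (stp (‖y‖ ^ 2 / ε ^ 2) - stp (‖y‖ ^ 2 / ρ ^ 2)) * k y ≤ K := by
  have hρ : 0 < ρ := hε.trans hερ
  -- truncated kernel
  set Sh : Set E3 := {y : E3 | ε / 2 ≤ ‖y‖ ∧ ‖y‖ ≤ ρ} with hSh
  have hShm : MeasurableSet Sh := by
    apply IsClosed.measurableSet
    exact (isClosed_le continuous_const continuous_norm).inter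
      (isClosed_le continuous_norm continuous_const)
  have hShc : IsCompact Sh := by
    apply (isCompact_closedBall (0 : E3) ρ).of_isClosed_subset
    · exact (isClosed_le continuous_const continuous_norm).inter
        (isClosed_le continuous_norm continuous_const)
    · intro y hy
      simpa using hy.2
  set kt : E3 → ℝ := Sh.indicator k with hkt
  have hktI : Integrable kt := by
    rw [hkt, integrable_indicator_iff hShm]
    apply ContinuousOn.integrableOn_compact hShc
    apply hk.mono
    intro y hy h0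
    rw [h0] at hy
    have := hy.1
    rw [norm_zero] at this
    linarith
  -- the region
  set S : Set (ℝ × E3) := {z | ε ^ 2 * z.1 < ‖z.2‖ ^ 2 ∧ ‖z.2‖ ^ 2 ≤ ρ ^ 2 * z.1} with hS
  have hSm : MeasurableSet S := by
    apply MeasurableSet.inter
    · have c1 : Continuous (fun z : ℝ × E3 => ε ^ 2 * z.1) := by fun_prop
      have c2 : Continuous (fun z : ℝ × E3 => ‖z.2‖ ^ 2) := by fun_prop
      exact (isOpen_lt c1 c2).measurableSet
    · have c1 : Continuous (fun z : ℝ × E3 => ρ ^ 2 * z.1) := by fun_prop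
      have c2 : Continuous (fun z : ℝ × E3 => ‖z.2‖ ^ 2) := by fun_prop
      exact (isClosed_le c2 c1).measurableSet
  set G : ℝ → E3 → ℝ := fun κ y => S.indicator (fun z => deriv stp z.1 * kt z.2) (κ, y) with hG
  have hGI : Integrable (Function.uncurry G) ((volume : Measure ℝ).prod (volume : Measure E3)) := by
    have h1 : Integrable (fun z : ℝ × E3 => deriv stp z.1 * kt z.2)
        ((volume : Measure ℝ).prod (volume : Measure E3)) :=
      deriv_stp_integrable.mul_prod hktI
    exact h1.indicator hSm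
  have hswap := integral_integral_swap hGI
  -- inner integral over κ
  have hin1 : ∀ y : E3, ∫ κ, G κ y = (stp (‖y‖ ^ 2 / ε ^ 2) - stp (‖y‖ ^ 2 / ρ ^ 2)) * k y := by
    intro y
    have hab : ‖y‖ ^ 2 / ρ ^ 2 ≤ ‖y‖ ^ 2 / ε ^ 2 := by
      apply div_le_div_of_nonneg_left (by positivity) (by positivity)
      exact pow_le_pow_left₀ hε.le hερ.le 2
    have e1 : ∀ κ, G κ y = (Ico (‖y‖ ^ 2 / ρ ^ 2) (‖y‖ ^ 2 / ε ^ 2)).indicator (deriv stp) κ * kt y := by
      intro κ
      simp only [hG]
      by_cases hκ : (κ, y) ∈ S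
      · rw [indicator_of_mem hκ, indicator_of_mem]
        constructor
        · rw [div_le_iff₀ (by positivity), mul_comm]; exact hκ.2
        · rw [lt_div_iff₀ (by positivity), mul_comm]; exact hκ.1
      · rw [indicator_of_notMem hκ, indicator_of_notMem, zero_mul]
        intro hc
        apply hκ
        constructor
        · have := hc.2
          rw [lt_div_iff₀ (by positivity), mul_comm] at this
          exact this
        · have := hc.1
          rw [div_le_iff₀ (by positivity), mul_comm] at this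
          exact this
    simp only [e1]
    rw [integral_mul_const, stp_layer hab]
    by_cases hy : y ∈ Sh
    · rw [hkt, indicator_of_mem hy]
    · rw [hkt, indicator_of_notMem hy, mul_zero]
      rw [hSh, mem_ofPred_eq, not_and_or, not_le, not_le] at hy
      rcases hy with h1 | h1
      · have h2 : ‖y‖ ^ 2 ≤ (ε / 2) ^ 2 := pow_le_pow_left₀ (norm_nonneg _) h1.le 2
        have h3 : ‖y‖ ^ 2 / ε ^ 2 ≤ 1 / 4 := by
          rw [div_le_iff₀ (by positivity)]; linarith
        rw [stp_zero h3, stp_zero (hab.trans h3)]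
        ring
      · have h2 : ρ ^ 2 ≤ ‖y‖ ^ 2 := pow_le_pow_left₀ hρ.le h1.le 2
        have h3 : 1 ≤ ‖y‖ ^ 2 / ρ ^ 2 := by
          rw [le_div_iff₀ (by positivity)]; linarith
        rw [stp_one h3, stp_one (h3.trans hab)]
        ring
  -- inner integral over y
  have hin2 : ∀ κ : ℝ, ∫ y, G κ y ≤ deriv stp κ * K := by
    intro κ
    rcases eq_or_ne (deriv stp κ) 0 with h0 | h0
    · have : ∀ y, G κ y = 0 := by
        intro y
        simp only [hG]
        by_cases hκ : (κ, y) ∈ S
        · rw [indicator_of_mem hκ, h0, zero_mul]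
        · rw [indicator_of_notMem hκ]
      simp only [this, integral_zero, h0, zero_mul, le_refl]
    · have hκ1 : 1 / 4 ≤ κ := by
        by_contra hcon
        exact h0 (deriv_stp_zero_left (not_le.mp hcon))
      have hκ2 : κ ≤ 1 := by
        by_contra hcon
        exact h0 (deriv_stp_zero_right (not_le.mp hcon))
      have hκ0 : 0 < κ := by linarith
      set c : ℝ := Real.sqrt κ with hc
      have hc0 : 0 < c := Real.sqrt_pos.mpr hκ0
      have hc2 : c ^ 2 = κ := Real.sq_sqrt hκ0.le
      have hc1 : c ≤ 1 := by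
        rw [hc]
        exact Real.sqrt_le_one.mpr hκ2
      have hch : 1 / 2 ≤ c := by
        rw [hc]
        apply Real.le_sqrt_of_sq_le
        linarith
      have e1 : ∀ y, G κ y = {y : E3 | ε * c < ‖y‖ ∧ ‖y‖ ≤ ρ * c}.indicator
          (fun y => deriv stp κ * k y) y := by
        intro y
        simp only [hG]
        have a1 : ε ^ 2 * κ = (ε * c) ^ 2 := by rw [mul_pow, hc2]
        have a2 : ρ ^ 2 * κ = (ρ * c) ^ 2 := by rw [mul_pow, hc2]
        have hiff : (κ, y) ∈ S ↔ y ∈ {y : E3 | ε * c < ‖y‖ ∧ ‖y‖ ≤ ρ * c} := by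
          rw [hS, mem_ofPred_eq, mem_ofPred_eq]
          simp only
          rw [a1, a2, sq_lt_sq₀ (by positivity) (norm_nonneg _),
            sq_le_sq₀ (norm_nonneg _) (by positivity)]
        by_cases hκ : (κ, y) ∈ S
        · rw [indicator_of_mem hκ, indicator_of_mem (hiff.mp hκ)]
          have hy := hiff.mp hκ
          have : y ∈ Sh := by
            constructor
            · have := hy.1
              nlinarith
            · have := hy.2
              nlinarith
          simp only [hkt]
          rw [indicator_of_mem this]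
        · rw [indicator_of_notMem hκ, indicator_of_notMem (fun h => hκ (hiff.mpr h))]
      have hm : MeasurableSet {y : E3 | ε * c < ‖y‖ ∧ ‖y‖ ≤ ρ * c} := by
        apply MeasurableSet.inter
        · exact (isOpen_lt continuous_const continuous_norm).measurableSet
        · exact (isClosed_le continuous_norm continuous_const).measurableSet
      simp only [e1]
      rw [integral_indicator hm, integral_const_mul]
      apply mul_le_mul_of_nonneg_left _ (deriv_stp_nonneg κ)
      apply hK
      · positivity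
      · exact mul_lt_mul_of_pos_right hερ hc0
      · nlinarith
  have hfin : ∫ y, (stp (‖y‖ ^ 2 / ε ^ 2) - stp (‖y‖ ^ 2 / ρ ^ 2)) * k y = ∫ κ, ∫ y, G κ y := by
    rw [hswap]
    congr 1
    funext y
    exact (hin1 y).symm
  rw [hfin]
  calc ∫ κ, ∫ y, G κ y ≤ ∫ κ, deriv stp κ * K :=
        integral_mono hGI.integral_prod_left (deriv_stp_integrable.mul_const K) hin2
    _ = K := by rw [integral_mul_const, integral_deriv_stp, one_mul]

end Pool.Agent.Work.MP_b0497c_an
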