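import Mathlib
import Pool.Agent.Work.MP_b0497c_an.LocalBound

set_option autoImplicit false
set_option maxHeartbeats 1000000

/-!
The one-sided bound of the stretching rate by shell integrals and the local kinetic energy.
-/

namespace Pool.Agent.Work.MP_b0497c_an

open Set RealInnerProductSpace Metric MeasureTheory Filter Topology
open scoped ContDiff

/-- The bump has positive integral. -/
noncomputable def Jc : ℝ := ∫ y : E3, ps (‖y‖ ^ 2)

theorem ps_norm_cont : Continuous (fun y : E3 => ps (‖y‖ ^ 2)) :=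
  ps_contDiff.continuous.comp (by fun_prop)

theorem psi_zero_of {s : ℝ} (hs : 0 < s) {y : E3} (hy : s ≤ ‖y‖) : psi s y = 0 := by
  unfold psi
  rw [ps_zero, mul_zero]
  rw [le_div_iff₀ (by positivity), one_mul]
  exact pow_le_pow_left₀ hs.le hy 2

theorem psi_contDiff (s : ℝ) : ContDiff ℝ ∞ (psi s) := by
  unfold psi
  have h3 : ContDiff ℝ ∞ (fun y : E3 => ‖y‖ ^ 2) := contDiff_norm_sq ℝ
  exact contDiff_const.mul (ps_contDiff.comp (h3.div_const _))

theorem psi_compact {s : ℝ} (hs : 0 < s) : HasCompactSupport (psi s) := by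
  apply HasCompactSupport.of_support_subset_isCompact (isCompact_closedBall (0 : E3) s)
  intro y hy
  rw [Function.mem_support] at hy
  by_contra hcon
  rw [mem_closedBall, dist_zero_right, not_le] at hcon
  exact hy (psi_zero_of hs hcon.le)

theorem psi_nonneg {s : ℝ} (hs : 0 < s) (y : E3) : 0 ≤ psi s y :=
  mul_nonneg (by positivity) (ps_nonneg _)

theorem Jc_pos : 0 < Jc := by
  have hcomp : HasCompactSupport (fun y : E3 => ps (‖y‖ ^ 2)) := by
    have := psi_compact (s := 1) one_pos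
    have e1 : (fun y : E3 => ps (‖y‖ ^ 2)) = psi 1 := by
      funext y; simp [psi]
    rw [e1]; exact this
  apply ps_norm_cont.integral_pos_of_hasCompactSupport_nonneg_nonzero hcomp
    (fun y => ps_nonneg _) (x := 0)
  simp only [norm_zero]
  have := ps_pos
  norm_num
  exact this.ne'

theorem integral_psi {s : ℝ} (hs : 0 < s) : ∫ y, psi s y = Jc := by
  have e1 : psi s = fun y : E3 => (s ^ 3)⁻¹ * (fun z : E3 => ps (‖z‖ ^ 2)) (s⁻¹ • y) := by
    funext y
    unfold psi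
    congr 2
    rw [norm_smul, mul_pow, norm_inv, Real.norm_eq_abs, abs_of_pos hs, inv_pow]
    field_simp
  have key := Measure.integral_comp_inv_smul_of_nonneg (volume : Measure E3)
    (fun z : E3 => ps (‖z‖ ^ 2)) hs.le
  have h3 : Module.finrank ℝ E3 = 3 := by simp
  rw [e1, integral_const_mul, key, h3, smul_eq_mul]
  unfold Jc
  field_simp

/-- The derivative of the bump. -/
theorem psi_fderiv {s : ℝ} (b y : E3) :
    fderiv ℝ (psi s) y b = (s ^ 3)⁻¹ * (deriv ps (‖y‖ ^ 2 / s ^ 2) * (2 * ⟪y, b⟫ / s ^ 2)) := by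
  have h1 : HasFDerivAt (fun y : E3 => ‖y‖ ^ 2) (2 • (innerSL ℝ y)) y :=
    (hasStrictFDerivAt_norm_sq y).hasFDerivAt
  have h2 : HasFDerivAt (fun y : E3 => ‖y‖ ^ 2 / s ^ 2) ((s ^ 2)⁻¹ • (2 • (innerSL ℝ y))) y := by
    have e1 : (fun y : E3 => ‖y‖ ^ 2 / s ^ 2) = fun y : E3 => (s ^ 2)⁻¹ * ‖y‖ ^ 2 := by
      funext z
      rw [div_eq_inv_mul]
    rw [e1]
    exact h1.const_mul (s ^ 2)⁻¹
  have h3 : HasDerivAt ps (deriv ps (‖y‖ ^ 2 / s ^ 2)) (‖y‖ ^ 2 / s ^ 2) :=
    (ps_contDiff.differentiable (by simp) _).hasDerivAt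
  have h4 := (HasDerivAt.comp_hasFDerivAt (h₂ := ps) (f := fun y : E3 => ‖y‖ ^ 2 / s ^ 2) y
    h3 h2).const_mul (s ^ 3)⁻¹
  have h5 : fderiv ℝ (psi s) y = _ := h4.fderiv
  rw [h5]
  simp only [smul_apply, innerSL_apply_apply, smul_eq_mul, nsmul_eq_mul]
  push_cast
  ring

/-- The far part. -/
theorem far_bound : ∃ C : ℝ, 0 < C ∧ ∀ (v : E3 → E3), ContDiff ℝ 1 v → ∀ (ξ c : E3) (ρ : ℝ),
    0 < ρ → |∫ y, ⟪ξ, fderiv ℝ v y ξ⟫ * psi ρ y|
      ≤ C * ‖ξ‖ ^ 2 * ρ ^ (-(5 / 2) : ℝ) * √(∫ y in closedBall (0 : E3) ρ, ‖v y - c‖ ^ 2) := by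
  obtain ⟨C0, hC0, hC0'⟩ := ps_deriv_bound
  set V : ℝ := (volume (closedBall (0 : E3) 1)).toReal with hV
  have hVnn : 0 ≤ V := ENNReal.toReal_nonneg
  refine ⟨2 * C0 * (√V + 1), by positivity, ?_⟩
  intro v hv ξ c ρ hρ
  have hdv : ∀ y, HasFDerivAt v (fderiv ℝ v y) y := fun y =>
    (hv.differentiable (by norm_num) y).hasFDerivAt
  set w : E3 → ℝ := fun y => ⟪ξ, v y - c⟫ with hw
  have hvc : ContDiff ℝ 1 (fun y => v y - c) := hv.sub contDiff_const
  have hwc : ContDiff ℝ 1 w := contDiff_const.inner ℝ hvc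
  have hwd : ∀ y b : E3, fderiv ℝ w y b = ⟪ξ, fderiv ℝ v y b⟫ := by
    intro y b
    have := ((innerSL ℝ ξ).hasFDerivAt.comp y ((hdv y).sub_const c)).fderiv
    have h2 : fderiv ℝ w y = _ := this
    rw [h2]
    simp
  have hψ1 : ContDiff ℝ 1 (psi ρ) := contDiff_infty.mp (psi_contDiff ρ) 1
  have hψd : Continuous (fun y => fderiv ℝ (psi ρ) y ξ) :=
    (hψ1.continuous_fderiv (by norm_num)).clm_apply continuous_const
  have hψs : HasCompactSupport (fun y => fderiv ℝ (psi ρ) y ξ) :=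
    ((psi_compact hρ).fderiv (𝕜 := ℝ)).comp_left (g := fun L : E3 →L[ℝ] ℝ => L ξ) rfl
  have hwdc : Continuous (fun y => fderiv ℝ w y ξ) :=
    (hwc.continuous_fderiv (by norm_num)).clm_apply continuous_const
  have ibp : ∫ y, w y * fderiv ℝ (psi ρ) y ξ = - ∫ y, fderiv ℝ w y ξ * psi ρ y := by
    apply integral_mul_fderiv_eq_neg_fderiv_mul_of_integrable
    · exact (hwdc.mul hψ1.continuous).integrable_of_hasCompactSupport ((psi_compact hρ).mul_left)
    · exact (hwc.continuous.mul hψd).integrable_of_hasCompactSupport (hψs.mul_left)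
    · exact (hwc.continuous.mul hψ1.continuous).integrable_of_hasCompactSupport
        ((psi_compact hρ).mul_left)
    · intro x _
      exact (hwc.differentiable (by norm_num)) x
    · intro x _
      exact (hψ1.differentiable (by norm_num)) x
  have e1 : ∫ y, ⟪ξ, fderiv ℝ v y ξ⟫ * psi ρ y = - ∫ y, w y * fderiv ℝ (psi ρ) y ξ := by
    rw [ibp, neg_neg]
    congr 1
    funext y
    rw [hwd]
  rw [e1, abs_neg]
  -- pointwise bound
  have hpt : ∀ y, ‖w y * fderiv ℝ (psi ρ) y ξ‖ ≤ (closedBall (0 : E3) ρ).indicator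
      (fun y => (2 * C0 * ‖ξ‖ ^ 2 / ρ ^ 4) * ‖v y - c‖) y := by
    intro y
    by_cases hy : y ∈ closedBall (0 : E3) ρ
    · rw [indicator_of_mem hy, norm_mul, Real.norm_eq_abs, Real.norm_eq_abs, psi_fderiv]
      have hy' : ‖y‖ ≤ ρ := by simpa using hy
      have a1 : |w y| ≤ ‖ξ‖ * ‖v y - c‖ := abs_real_inner_le_norm _ _
      have a2 : |deriv ps (‖y‖ ^ 2 / ρ ^ 2)| ≤ C0 := hC0' _ (by positivity)
      have a3 : |⟪y, ξ⟫| ≤ ρ * ‖ξ‖ := (abs_real_inner_le_norm _ _).trans (by gcongr)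
      have a4 : |(ρ ^ 3)⁻¹ * (deriv ps (‖y‖ ^ 2 / ρ ^ 2) * (2 * ⟪y, ξ⟫ / ρ ^ 2))|
          ≤ (ρ ^ 3)⁻¹ * (C0 * (2 * (ρ * ‖ξ‖) / ρ ^ 2)) := by
        rw [abs_mul, abs_mul, abs_div, abs_mul, abs_of_pos (show (0:ℝ) < (ρ ^ 3)⁻¹ by positivity),
          abs_of_pos (show (0:ℝ) < 2 by norm_num), abs_of_pos (show (0:ℝ) < ρ ^ 2 by positivity)]
        gcongr
      calc |w y| * |(ρ ^ 3)⁻¹ * (deriv ps (‖y‖ ^ 2 / ρ ^ 2) * (2 * ⟪y, ξ⟫ / ρ ^ 2))|
          ≤ (‖ξ‖ * ‖v y - c‖) * ((ρ ^ 3)⁻¹ * (C0 * (2 * (ρ * ‖ξ‖) / ρ ^ 2))) := by gcongr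
        _ = (2 * C0 * ‖ξ‖ ^ 2 / ρ ^ 4) * ‖v y - c‖ := by field_simp
    · rw [indicator_of_notMem hy]
      have hy' : ρ < ‖y‖ := by
        rw [mem_closedBall, dist_zero_right, not_le] at hy
        exact hy
      have : fderiv ℝ (psi ρ) y = 0 := by
        have h1 : psi ρ =ᶠ[𝓝 y] fun _ => 0 := by
          have : ∀ᶠ z in 𝓝 y, ρ < ‖z‖ := continuous_norm.continuousAt.eventually_const_lt hy'
          filter_upwards [this] with z hz
          exact psi_zero_of hρ hz.le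
        rw [h1.fderiv_eq]
        simp
      rw [this]
      simp
  have hB : MeasurableSet (closedBall (0 : E3) ρ) := measurableSet_closedBall
  have hnc : Continuous (fun y => ‖v y - c‖) := hvc.continuous.norm
  have hI : IntegrableOn (fun y => (2 * C0 * ‖ξ‖ ^ 2 / ρ ^ 4) * ‖v y - c‖) (closedBall (0 : E3) ρ) :=
    (continuous_const.mul hnc).continuousOn.integrableOn_compact (isCompact_closedBall _ _)
  have h1 : |∫ y, w y * fderiv ℝ (psi ρ) y ξ| ≤ (2 * C0 * ‖ξ‖ ^ 2 / ρ ^ 4)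
      * ∫ y in closedBall (0 : E3) ρ, ‖v y - c‖ := by
    rw [← Real.norm_eq_abs]
    calc ‖∫ y, w y * fderiv ℝ (psi ρ) y ξ‖ ≤ ∫ y, (closedBall (0 : E3) ρ).indicator
          (fun y => (2 * C0 * ‖ξ‖ ^ 2 / ρ ^ 4) * ‖v y - c‖) y :=
          norm_integral_le_of_norm_le ((integrable_indicator_iff hB).mpr hI)
            (ae_of_all _ hpt)
      _ = _ := by rw [integral_indicator hB, integral_const_mul]
  -- Cauchy-Schwarz
  have h2 : ∫ y in closedBall (0 : E3) ρ, ‖v y - c‖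
      ≤ √(V * ρ ^ 3) * √(∫ y in closedBall (0 : E3) ρ, ‖v y - c‖ ^ 2) := by
    have hfin : IsFiniteMeasure (volume.restrict (closedBall (0 : E3) ρ)) :=
      ⟨by rw [Measure.restrict_apply_univ]; exact (isCompact_closedBall (0 : E3) ρ).measure_lt_top⟩
    have hm1 : MemLp (fun _ : E3 => (1 : ℝ)) (ENNReal.ofReal 2)
        (volume.restrict (closedBall (0 : E3) ρ)) := memLp_const 1
    have hm2 : MemLp (fun y : E3 => ‖v y - c‖) (ENNReal.ofReal 2)
        (volume.restrict (closedBall (0 : E3) ρ)) := by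
      obtain ⟨B, hB'⟩ := (isCompact_closedBall (0 : E3) ρ).exists_bound_of_continuousOn
        hnc.continuousOn
      apply MemLp.of_bound hnc.aestronglyMeasurable B
      rw [ae_restrict_iff' hB]
      exact ae_of_all _ hB'
    have := integral_mul_le_Lp_mul_Lq_of_nonneg (μ := volume.restrict (closedBall (0 : E3) ρ))
      (p := 2) (q := 2) (by constructor <;> norm_num)
      (ae_of_all _ (fun _ => zero_le_one)) (ae_of_all _ (fun y => norm_nonneg (v y - c))) hm1 hm2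
    simp only [one_mul, Real.one_rpow] at this
    rw [← Real.sqrt_eq_rpow, ← Real.sqrt_eq_rpow] at this
    have e2 : ∫ _ in closedBall (0 : E3) ρ, (1 : ℝ) = V * ρ ^ 3 := by
      rw [setIntegral_const, smul_eq_mul, mul_one]
      have h3 := Measure.addHaar_closedBall' (μ := (volume : Measure E3)) (0 : E3) hρ.le
      rw [measureReal_def, h3, ENNReal.toReal_mul, ENNReal.toReal_ofReal (by positivity)]
      have : Module.finrank ℝ E3 = 3 := by simp
      rw [this, hV]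
      ring
    rw [e2] at this
    have e3 : ∀ y, ‖v y - c‖ ^ (2 : ℝ) = ‖v y - c‖ ^ 2 := fun y => Real.rpow_two _
    simp only [e3] at this
    exact this
  have h3 : √(V * ρ ^ 3) = √V * ρ ^ (3 / 2 : ℝ) := by
    rw [Real.sqrt_mul hVnn]
    congr 1
    rw [Real.sqrt_eq_rpow, ← Real.rpow_natCast ρ 3, ← Real.rpow_mul hρ.le]
    norm_num
  set R := √(∫ y in closedBall (0 : E3) ρ, ‖v y - c‖ ^ 2) with hR
  have hRnn : 0 ≤ R := Real.sqrt_nonneg _
  have h4 : ρ ^ (-(5 / 2) : ℝ) = ρ ^ (3 / 2 : ℝ) / ρ ^ 4 := by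
    rw [eq_div_iff (by positivity), ← Real.rpow_natCast ρ 4, ← Real.rpow_add hρ]
    norm_num
  calc |∫ y, w y * fderiv ℝ (psi ρ) y ξ|
      ≤ (2 * C0 * ‖ξ‖ ^ 2 / ρ ^ 4) * (√V * ρ ^ (3 / 2 : ℝ) * R) := by
        refine h1.trans ?_
        rw [← h3]
        gcongr
    _ = 2 * C0 * √V * ‖ξ‖ ^ 2 * ρ ^ (-(5 / 2) : ℝ) * R := by rw [h4]; ring
    _ ≤ 2 * C0 * (√V + 1) * ‖ξ‖ ^ 2 * ρ ^ (-(5 / 2) : ℝ) * R := by
        gcongr
        linarith

/-- The local one-sided bound of the stretching rate. -/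
theorem local_stretch : ∃ C : ℝ, 0 < C ∧ ∀ (v : E3 → E3), ContDiff ℝ 1 v →
    (∀ y, LinearMap.trace ℝ E3 (fderiv ℝ v y) = 0) → ∀ (ξ c : E3) (ρ K : ℝ), 0 < ρ →
    (∀ ε r : ℝ, 0 < ε → ε < r → r ≤ ρ →
      ∫ y in {y : E3 | ε < ‖y‖ ∧ ‖y‖ ≤ r}, ⟪y, ξ⟫ * det3 y (curl v y) ξ / ‖y‖ ^ 5 ≤ K) →
    Jc * ⟪ξ, fderiv ℝ v 0 ξ⟫
      ≤ 4 * K + C * ‖ξ‖ ^ 2 * ρ ^ (-(5 / 2) : ℝ) * √(∫ y in closedBall (0 : E3) ρ, ‖v y - c‖ ^ 2) := by
  obtain ⟨C, hC, hC'⟩ := far_bound
  refine ⟨C, hC, ?_⟩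
  intro v hv hdiv ξ c ρ K hρ hK
  set R := C * ‖ξ‖ ^ 2 * ρ ^ (-(5 / 2) : ℝ) * √(∫ y in closedBall (0 : E3) ρ, ‖v y - c‖ ^ 2) with hR
  set F : E3 → ℝ := fun y => ⟪ξ, fderiv ℝ v y ξ⟫ with hF
  have hFc : Continuous F := by
    have h1 : Continuous (fun y => fderiv ℝ v y ξ) :=
      (hv.continuous_fderiv (by norm_num)).clm_apply continuous_const
    exact continuous_const.inner h1
  have hint : ∀ s : ℝ, 0 < s → Integrable (fun y => F y * psi s y) := fun s hs =>
    (hFc.mul (psi_contDiff s).continuous).integrable_of_hasCompactSupport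
      ((psi_compact hs).mul_left)
  have hpsiI : ∀ s : ℝ, 0 < s → Integrable (psi s) := fun s hs =>
    (psi_contDiff s).continuous.integrable_of_hasCompactSupport (psi_compact hs)
  apply le_of_forall_pos_le_add
  intro η hη
  have hJ := Jc_pos
  -- choose ε
  have hev : ∀ᶠ y in 𝓝 (0 : E3), |F y - F 0| < η / Jc := by
    have := (Metric.tendsto_nhds.mp (hFc.continuousAt (x := (0 : E3))).tendsto) (η / Jc)
      (by positivity)
    simpa [Real.dist_eq] using this
  obtain ⟨δ, hδ, hball⟩ := Metric.eventually_nhds_iff_ball.mp hev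
  set ε : ℝ := min (δ / 2) (ρ / 2) with hε
  have hε0 : 0 < ε := by positivity
  have hερ : ε < ρ := (min_le_right _ _).trans_lt (by linarith)
  have hεδ : ε < δ := (min_le_left _ _).trans_lt (by linarith)
  have hlow : Jc * (F 0 - η / Jc) ≤ ∫ y, F y * psi ε y := by
    calc Jc * (F 0 - η / Jc) = ∫ y, (F 0 - η / Jc) * psi ε y := by
          rw [integral_const_mul, integral_psi hε0]; ring
      _ ≤ ∫ y, F y * psi ε y := by
          apply integral_mono ((hpsiI ε hε0).const_mul _) (hint ε hε0)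
          intro y
          simp only
          rcases lt_or_ge ‖y‖ ε with hy | hy
          · apply mul_le_mul_of_nonneg_right _ (psi_nonneg hε0 y)
            have := hball y (by simpa using hy.trans hεδ)
            rw [abs_lt] at this
            linarith [this.1]
          · rw [psi_zero_of hε0 hy]
            simp
  have hid := local_identity hv hdiv ξ hε0 hερ
  have hdiff : ∫ y, F y * psi ε y = (∫ y, F y * (psi ε y - psi ρ y)) + ∫ y, F y * psi ρ y := by
    have hi1 : Integrable (fun y => F y * (psi ε y - psi ρ y)) := by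
      have := (hint ε hε0).sub (hint ρ hρ)
      refine this.congr (ae_of_all _ fun y => ?_)
      simp only [Pi.sub_apply]
      ring
    rw [← integral_add hi1 (hint ρ hρ)]
    congr 1
    funext y
    ring
  have hfar := (abs_le.mp (hC' v hv ξ c ρ hρ)).2
  -- the near part
  have hnear : ∫ y, hh ε ρ (‖y‖ ^ 2) * (⟪y, ξ⟫ * det3 y (curl v y) ξ) ≤ K := by
    have e1 : ∀ y : E3, hh ε ρ (‖y‖ ^ 2) * (⟪y, ξ⟫ * det3 y (curl v y) ξ)
        = (stp (‖y‖ ^ 2 / ε ^ 2) - stp (‖y‖ ^ 2 / ρ ^ 2))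
          * (⟪y, ξ⟫ * det3 y (curl v y) ξ / ‖y‖ ^ 5) := by
      intro y
      rw [hh_norm hε0 hρ]
      ring
    simp only [e1]
    apply shell_mix _ hε0 hερ hK
    -- continuity of the kernel away from zero
    have c1 : Continuous (fun y => curl v y) := by
      have h1 : ∀ i : Fin 3, Continuous (fun y => fderiv ℝ v y (e i)) := fun i =>
        (hv.continuous_fderiv (by norm_num)).clm_apply continuous_const
      have h2 : ∀ i j : Fin 3, Continuous (fun y => (fderiv ℝ v y (e i)) j) := fun i j =>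
        (EuclideanSpace.proj (𝕜 := ℝ) (ι := Fin 3) j).continuous.comp (h1 i)
      have h3 : (fun y => curl v y) = fun y =>
          ((fderiv ℝ v y (e 1)) 2 - (fderiv ℝ v y (e 2)) 1) • e 0
          + ((fderiv ℝ v y (e 2)) 0 - (fderiv ℝ v y (e 0)) 2) • e 1
          + ((fderiv ℝ v y (e 0)) 1 - (fderiv ℝ v y (e 1)) 0) • e 2 := by
        funext y
        rw [expand (curl v y)]
        unfold curl
        rw [axial_zero, axial_one, axial_two]
      rw [h3]
      exact ((((h2 1 2).sub (h2 2 1)).smul continuous_const).add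
        (((h2 2 0).sub (h2 0 2)).smul continuous_const)).add
        (((h2 0 1).sub (h2 1 0)).smul continuous_const)
    have c2 : ∀ j : Fin 3, Continuous (fun y => (curl v y) j) := fun j =>
      (EuclideanSpace.proj (𝕜 := ℝ) (ι := Fin 3) j).continuous.comp c1
    have c3 : ∀ j : Fin 3, Continuous (fun y : E3 => y j) := fun j =>
      (EuclideanSpace.proj (𝕜 := ℝ) (ι := Fin 3) j).continuous
    have c4 : Continuous (fun y => det3 y (curl v y) ξ) := by
      unfold det3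
      have a0 := c3 0
      have a1 := c3 1
      have a2 := c3 2
      have b0 := c2 0
      have b1 := c2 1
      have b2 := c2 2
      fun_prop
    have c5 : Continuous (fun y : E3 => ⟪y, ξ⟫) := continuous_id.inner continuous_const
    apply ContinuousOn.div (c5.mul c4).continuousOn (by fun_prop)
    intro y hy
    have : ‖y‖ ≠ 0 := norm_ne_zero_iff.mpr hy
    positivity
  have h0 : Jc * (η / Jc) = η := by field_simp
  have hfin : Jc * F 0 - η ≤ 4 * K + R := by
    calc Jc * F 0 - η = Jc * (F 0 - η / Jc) := by rw [mul_sub, h0]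
      _ ≤ ∫ y, F y * psi ε y := hlow
      _ = (∫ y, F y * (psi ε y - psi ρ y)) + ∫ y, F y * psi ρ y := hdiff
      _ ≤ 4 * K + R := by
          apply add_le_add _ hfar
          have : ∫ y, F y * (psi ε y - psi ρ y) = _ := hid
          rw [this]
          linarith
  change Jc * F 0 ≤ 4 * K + R + η
  linarith

end Pool.Agent.Work.MP_b0497c_an
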