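import Mathlib
import Pool.Agent.Work.MP_b0497c_an.Flow

set_option autoImplicit false

namespace Pool.Agent.Work.MP_b0497c_an

open Set RealInnerProductSpace Metric MeasureTheory

theorem integral_affine (a b : ℝ) : ∫ θ in (0 : ℝ)..1, (a + θ * b) = a + b / 2 := by
  have h1 : ∫ θ in (0 : ℝ)..1, (a + θ * b) = (∫ _ in (0 : ℝ)..1, a) + ∫ θ in (0 : ℝ)..1, θ * b :=
    intervalIntegral.integral_add (by simp)
      ((continuous_id.mul continuous_const).intervalIntegrable 0 1)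
  rw [h1, intervalIntegral.integral_mul_const]
  simp
  ring

theorem seg_mem {x0 y z : E3} {ρ : ℝ} (hy : ‖y - x0‖ ≤ ρ) (hz : ‖z - x0‖ ≤ ρ) {θ : ℝ}
    (hθ : θ ∈ Icc (0 : ℝ) 1) : ‖y + θ • (z - y) - x0‖ ≤ ρ := by
  have e : y + θ • (z - y) - x0 = (1 - θ) • (y - x0) + θ • (z - x0) := by
    simp only [smul_sub, sub_smul, one_smul]
    abel
  rw [e]
  refine (norm_add_le _ _).trans ?_
  rw [norm_smul, norm_smul, Real.norm_of_nonneg (sub_nonneg.mpr hθ.2), Real.norm_of_nonneg hθ.1]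
  have h1 := mul_le_mul_of_nonneg_left hy (sub_nonneg.mpr hθ.2)
  have h2 := mul_le_mul_of_nonneg_left hz hθ.1
  linarith

theorem seg_integral {v : E3 → E3} (hv : Continuous v) {x0 : E3} (M : E3 →L[ℝ] E3) {κ ρ : ℝ}
    (hlin : ∀ y, ‖y - x0‖ ≤ ρ → ‖v y - v x0 - M (y - x0)‖ ≤ κ) {y z : E3}
    (hy : ‖y - x0‖ ≤ ρ) (hz : ‖z - x0‖ ≤ ρ) (D : E3) :
    |(∫ θ in (0 : ℝ)..1, ⟪v (y + θ • (z - y)), D⟫)
      - ⟪v x0 + M ((1 / 2 : ℝ) • ((y - x0) + (z - x0))), D⟫| ≤ κ * ‖D‖ := by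
  have haff : ∫ θ in (0 : ℝ)..1, ⟪v x0 + M (y + θ • (z - y) - x0), D⟫
      = ⟪v x0 + M ((1 / 2 : ℝ) • ((y - x0) + (z - x0))), D⟫ := by
    have e1 : ∀ θ : ℝ, ⟪v x0 + M (y + θ • (z - y) - x0), D⟫
        = ⟪v x0 + M (y - x0), D⟫ + θ * ⟪M (z - y), D⟫ := by
      intro θ
      have : y + θ • (z - y) - x0 = (y - x0) + θ • (z - y) := by abel
      rw [this, map_add, map_smul, ← add_assoc, inner_add_left, real_inner_smul_left]
    simp_rw [e1]
    rw [integral_affine]
    have e2 : (1 / 2 : ℝ) • ((y - x0) + (z - x0)) = (y - x0) + (1 / 2 : ℝ) • (z - y) := by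
      have : (z - x0) = (z - y) + (y - x0) := by abel
      rw [this]
      module
    rw [e2, map_add, map_smul, ← add_assoc, inner_add_left (v x0 + M (y - x0)),
      real_inner_smul_left]
    ring
  have hc1 : Continuous fun θ : ℝ => ⟪v (y + θ • (z - y)), D⟫ := by fun_prop
  have hc2 : Continuous fun θ : ℝ => ⟪v x0 + M (y + θ • (z - y) - x0), D⟫ := by fun_prop
  rw [← haff, ← intervalIntegral.integral_sub (hc1.intervalIntegrable 0 1)
    (hc2.intervalIntegrable 0 1)]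
  have := intervalIntegral.norm_integral_le_of_norm_le_const (a := (0 : ℝ)) (b := 1)
    (f := fun θ : ℝ => ⟪v (y + θ • (z - y)), D⟫ - ⟪v x0 + M (y + θ • (z - y) - x0), D⟫)
    (C := κ * ‖D‖) (by
      intro θ hθ
      rw [uIoc_of_le zero_le_one] at hθ
      have hθ' : θ ∈ Icc (0 : ℝ) 1 := ⟨hθ.1.le, hθ.2⟩
      have e3 : ⟪v (y + θ • (z - y)), D⟫ - ⟪v x0 + M (y + θ • (z - y) - x0), D⟫
          = ⟪v (y + θ • (z - y)) - v x0 - M (y + θ • (z - y) - x0), D⟫ := by
        rw [← inner_sub_left, sub_sub]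
      rw [e3]
      refine (norm_inner_le_norm _ _).trans ?_
      exact mul_le_mul_of_nonneg_right (hlin _ (seg_mem hy hz hθ')) (norm_nonneg _))
  simpa using this

variable {T : ℝ} {u : ℝ → E3 → E3} {p : ℝ → E3 → ℝ}

/-- Integral of the velocity along a segment between two moving points. -/
noncomputable def segI (u : ℝ → E3 → E3) (Y Z : ℝ → E3) (s : ℝ) : ℝ :=
  ∫ θ in (0 : ℝ)..1, ⟪u s (Y s + θ • (Z s - Y s)), Z s - Y s⟫

theorem pair_deriv (h : IsClassicalSolution T u p) {α β : ℝ} (hα : 0 ≤ α) (hβ : β < T)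
    {Y Z : ℝ → E3} (hY : ∀ s ∈ Ioo α β, HasDerivAt Y (u s (Y s)) s)
    (hZ : ∀ s ∈ Ioo α β, HasDerivAt Z (u s (Z s)) s)
    {B : ℝ} (hB : ∀ s ∈ Ioo α β, ‖Z s - Y s‖ ≤ B) {t : ℝ} (ht : t ∈ Ioo α β)
    {K : ℝ} (hK0 : 0 ≤ K) (hK : ∀ x, ‖fderiv ℝ (u t) x‖ ≤ K)
    {x0 : E3} {ρ κ : ℝ}
    (hlin : ∀ y, ‖y - x0‖ ≤ ρ → ‖u t y - u t x0 - fderiv ℝ (u t) x0 (y - x0)‖ ≤ κ)
    (hy : ‖Y t - x0‖ ≤ ρ) (hz : ‖Z t - x0‖ ≤ ρ) :
    ∃ D : ℝ, HasDerivAt (segI u Y Z) D t ∧
      |D - ((1 / 2) * (‖u t (Z t)‖ ^ 2 - ‖u t (Y t)‖ ^ 2) - (p t (Z t) - p t (Y t)))|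
        ≤ 4 * K * κ * ‖Z t - Y t‖ := by
  obtain ⟨U, hU0, hU⟩ := h.bound_u hα hβ
  obtain ⟨K', hK'0, hK'⟩ := h.bound_M hα hβ
  obtain ⟨C, hC0, hC⟩ := h.bound_dt hα hβ
  have hsub : Ioo α β ⊆ Ico 0 T := fun s hs => Icc_subset_of hα hβ (Ioo_subset_Icc_self hs)
  set dt : ℝ → E3 → E3 := fun s x => derivWithin (fun r => u r x) (Ico 0 T) s with hdt
  set γ : ℝ → ℝ → E3 := fun s θ => Y s + θ • (Z s - Y s) with hγ
  set F' : ℝ → ℝ → ℝ := fun s θ =>
    ⟪dt s (γ s θ) + fderiv ℝ (u s) (γ s θ) (u s (Y s) + θ • (u s (Z s) - u s (Y s))), Z s - Y s⟫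
      + ⟪u s (γ s θ), u s (Z s) - u s (Y s)⟫ with hF'
  have hcu : ∀ s ∈ Ioo α β, Continuous (u s) := fun s hs =>
    continuous_iff_continuousAt.mpr fun x => (h.differentiableAt (hsub hs) x).continuousAt
  have hcM : ∀ s ∈ Ioo α β, Continuous (fun x => fderiv ℝ (u s) x) := by
    intro s hs
    have h1 := h.cont_M hα hβ
    have h2 : Continuous (fun x : E3 => (s, x)) := by fun_prop
    exact continuousOn_univ.mp (h1.comp h2.continuousOn
      (fun x _ => ⟨Ioo_subset_Icc_self hs, mem_univ _⟩))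
  have hcdt : ∀ s ∈ Ioo α β, Continuous (dt s) := by
    intro s hs
    have h1 := h.cont_dt hα hβ
    have h2 : Continuous (fun x : E3 => (s, x)) := by fun_prop
    exact continuousOn_univ.mp (h1.comp h2.continuousOn
      (fun x _ => ⟨Ioo_subset_Icc_self hs, mem_univ _⟩))
  have hcγ : ∀ s, Continuous (γ s) := by
    intro s
    simp only [hγ]
    fun_prop
  -- derivative of the integrand
  have hd : ∀ θ : ℝ, ∀ s ∈ Ioo α β,
      HasDerivAt (fun s => ⟪u s (γ s θ), Z s - Y s⟫) (F' s θ) s := by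
    intro θ s hs
    have hγ' : HasDerivAt (fun s => γ s θ) (u s (Y s) + θ • (u s (Z s) - u s (Y s))) s :=
      (hY s hs).add (((hZ s hs).sub (hY s hs)).const_smul θ)
    have h1 := hasDerivWithinAt_along h.contDiff_u hsub hs
      (X := fun s => γ s θ) hγ'.hasDerivWithinAt
    have h2 : HasDerivAt (fun s => u s (γ s θ))
        (dt s (γ s θ) + fderiv ℝ (u s) (γ s θ) (u s (Y s) + θ • (u s (Z s) - u s (Y s)))) s :=
      h1.hasDerivAt (Ioo_mem_nhds hs.1 hs.2)
    have h3 := h2.inner ℝ ((hZ s hs).sub (hY s hs))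
    have e0 : F' s θ = ⟪u s (γ s θ), u s (Z s) - u s (Y s)⟫
        + ⟪dt s (γ s θ) + fderiv ℝ (u s) (γ s θ) (u s (Y s) + θ • (u s (Z s) - u s (Y s))),
            Z s - Y s⟫ := add_comm _ _
    rw [e0]
    exact h3
  have hint := intervalIntegral.hasDerivAt_integral_of_dominated_loc_of_deriv_le
    (μ := volume) (𝕜 := ℝ) (a := (0 : ℝ)) (b := 1)
    (F := fun s θ => ⟪u s (γ s θ), Z s - Y s⟫) (F' := F') (x₀ := t) (s := Ioo α β)
    (bound := fun _ => (C + K' * (3 * U)) * B + U * (2 * U))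
    (Ioo_mem_nhds ht.1 ht.2)
    (by
      filter_upwards [Ioo_mem_nhds ht.1 ht.2] with s hs
      apply Continuous.aestronglyMeasurable
      exact ((hcu s hs).comp (hcγ s)).inner continuous_const)
    (by
      apply Continuous.intervalIntegrable
      exact ((hcu t ht).comp (hcγ t)).inner continuous_const)
    (by
      apply Continuous.aestronglyMeasurable
      simp only [hF']
      refine Continuous.add (Continuous.inner (Continuous.add ((hcdt t ht).comp (hcγ t)) ?_)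
        continuous_const) (((hcu t ht).comp (hcγ t)).inner continuous_const)
      exact ((hcM t ht).comp (hcγ t)).clm_apply (by fun_prop))
    (by
      refine Filter.Eventually.of_forall (fun θ hθ s hs => ?_)
      rw [uIoc_of_le zero_le_one] at hθ
      have hs' := Ioo_subset_Icc_self hs
      have b1 : ‖u s (Z s) - u s (Y s)‖ ≤ 2 * U := by
        refine (norm_sub_le _ _).trans ?_
        linarith [hU s hs' (Z s), hU s hs' (Y s)]
      have b2 : ‖u s (Y s) + θ • (u s (Z s) - u s (Y s))‖ ≤ 3 * U := by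
        refine (norm_add_le _ _).trans ?_
        rw [norm_smul, Real.norm_of_nonneg hθ.1.le]
        have := mul_le_mul hθ.2 b1 (norm_nonneg _) zero_le_one
        linarith [hU s hs' (Y s)]
      have b3 : ‖fderiv ℝ (u s) (γ s θ) (u s (Y s) + θ • (u s (Z s) - u s (Y s)))‖
          ≤ K' * (3 * U) := by
        refine (ContinuousLinearMap.le_opNorm _ _).trans ?_
        exact mul_le_mul (hK' s hs' _) b2 (norm_nonneg _) hK'0
      have b4 : ‖dt s (γ s θ) + fderiv ℝ (u s) (γ s θ) (u s (Y s) + θ • (u s (Z s) - u s (Y s)))‖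
          ≤ C + K' * (3 * U) := (norm_add_le _ _).trans (add_le_add (hC s hs' _) b3)
      simp only [hF']
      refine (norm_add_le _ _).trans (add_le_add ?_ ?_)
      · refine (norm_inner_le_norm _ _).trans ?_
        exact mul_le_mul b4 (hB s hs) (norm_nonneg _) (by positivity)
      · refine (norm_inner_le_norm _ _).trans ?_
        exact mul_le_mul (hU s hs' _) b1 (norm_nonneg _) hU0)
    (by simp)
    (Filter.Eventually.of_forall (fun θ _ s hs => hd θ s hs))
  refine ⟨∫ θ in (0 : ℝ)..1, F' t θ, hint.2, ?_⟩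
  have htT : t ∈ Ico 0 T := hsub ht
  set D := Z t - Y t with hD
  -- the pressure part
  have hgrad : ∀ x, HasGradientAt (p t) (gradient (p t) x) x := fun x =>
    (h.differentiableAt_p htT x).hasGradientAt
  have hcgrad : Continuous (fun x => gradient (p t) x) := by
    have : (fun x => gradient (p t) x) = fun x => -(dt t x + fderiv ℝ (u t) x (u t x)) := by
      funext x
      rw [h.momentum t htT x, neg_neg]
    rw [this]
    exact ((hcdt t ht).add ((hcM t ht).clm_apply (hcu t ht))).neg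
  have hpint : ∫ θ in (0 : ℝ)..1, ⟪gradient (p t) (γ t θ), D⟫ = p t (Z t) - p t (Y t) := by
    have h1 : ∀ θ ∈ uIcc (0 : ℝ) 1, HasDerivAt (fun θ => p t (γ t θ))
        (⟪gradient (p t) (γ t θ), D⟫) θ := by
      intro θ _
      have h2 : HasDerivAt (fun θ => γ t θ) D θ := by
        simp only [hγ]
        have := ((hasDerivAt_id θ).smul_const (Z t - Y t)).const_add (Y t)
        simpa using this
      have h3 : HasDerivAt (fun θ => p t (γ t θ))
          ((InnerProductSpace.toDual ℝ E3 (gradient (p t) (γ t θ))) D) θ :=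
        (hgrad (γ t θ)).hasFDerivAt.comp_hasDerivAt θ h2
      exact h3
    have h4 := intervalIntegral.integral_eq_sub_of_hasDerivAt h1
      (((hcgrad.comp (hcγ t)).inner continuous_const).intervalIntegrable 0 1)
    rw [h4]
    simp [hγ]
  have hsplit : ∀ θ, F' t θ = -⟪gradient (p t) (γ t θ), D⟫
      + (⟪fderiv ℝ (u t) (γ t θ)
          ((u t (Y t) + θ • (u t (Z t) - u t (Y t))) - u t (γ t θ)), D⟫
      + ⟪u t (γ t θ), u t (Z t) - u t (Y t)⟫) := by
    intro θ
    simp only [hF']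
    have hm := h.momentum t htT (γ t θ)
    have e1 : dt t (γ t θ) = -gradient (p t) (γ t θ) - fderiv ℝ (u t) (γ t θ) (u t (γ t θ)) := by
      rw [← hm]
      simp [hdt]
    rw [e1, map_sub, ← hD]
    simp only [inner_add_left, inner_sub_left, inner_neg_left]
    ring
  have hcA : Continuous fun θ => ⟪gradient (p t) (γ t θ), D⟫ :=
    (hcgrad.comp (hcγ t)).inner continuous_const
  have hcB : Continuous fun θ => ⟪fderiv ℝ (u t) (γ t θ)
          ((u t (Y t) + θ • (u t (Z t) - u t (Y t))) - u t (γ t θ)), D⟫ := by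
    refine Continuous.inner ?_ continuous_const
    refine ((hcM t ht).comp (hcγ t)).clm_apply ?_
    exact Continuous.sub (by fun_prop) ((hcu t ht).comp (hcγ t))
  have hcC : Continuous fun θ => ⟪u t (γ t θ), u t (Z t) - u t (Y t)⟫ :=
    ((hcu t ht).comp (hcγ t)).inner continuous_const
  have hIeq : ∫ θ in (0 : ℝ)..1, F' t θ = -(p t (Z t) - p t (Y t))
      + ((∫ θ in (0 : ℝ)..1, ⟪fderiv ℝ (u t) (γ t θ)
          ((u t (Y t) + θ • (u t (Z t) - u t (Y t))) - u t (γ t θ)), D⟫)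
        + ∫ θ in (0 : ℝ)..1, ⟪u t (γ t θ), u t (Z t) - u t (Y t)⟫) := by
    simp_rw [hsplit]
    have i1 := intervalIntegral.integral_add (μ := volume) (hcA.neg.intervalIntegrable 0 1)
      ((hcB.add hcC).intervalIntegrable 0 1)
    have i2 := intervalIntegral.integral_add (μ := volume) (hcB.intervalIntegrable 0 1)
      (hcC.intervalIntegrable 0 1)
    simp only [Pi.add_apply, Pi.neg_apply] at i1 i2
    rw [i1, i2, intervalIntegral.integral_neg, hpint]
  -- bound of the second integral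
  have hκ0 : 0 ≤ κ := (norm_nonneg _).trans (hlin _ hy)
  have hb2 : |∫ θ in (0 : ℝ)..1, ⟪fderiv ℝ (u t) (γ t θ)
          ((u t (Y t) + θ • (u t (Z t) - u t (Y t))) - u t (γ t θ)), D⟫| ≤ K * (2 * κ) * ‖D‖ := by
    have := intervalIntegral.norm_integral_le_of_norm_le_const (a := (0 : ℝ)) (b := 1)
      (f := fun θ : ℝ => ⟪fderiv ℝ (u t) (γ t θ)
          ((u t (Y t) + θ • (u t (Z t) - u t (Y t))) - u t (γ t θ)), D⟫)
      (C := K * (2 * κ) * ‖D‖) (by
        intro θ hθ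
        rw [uIoc_of_le zero_le_one] at hθ
        have hθ' : θ ∈ Icc (0 : ℝ) 1 := ⟨hθ.1.le, hθ.2⟩
        refine (norm_inner_le_norm _ _).trans ?_
        refine mul_le_mul_of_nonneg_right ?_ (norm_nonneg _)
        refine (ContinuousLinearMap.le_opNorm _ _).trans ?_
        refine mul_le_mul (hK _) ?_ (norm_nonneg _) hK0
        -- remainder
        set r : E3 → E3 := fun y => u t y - u t x0 - fderiv ℝ (u t) x0 (y - x0) with hr
        have e1 : (u t (Y t) + θ • (u t (Z t) - u t (Y t))) - u t (γ t θ)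
            = (1 - θ) • r (Y t) + θ • r (Z t) - r (γ t θ) := by
          have e2 : γ t θ - x0 = (1 - θ) • (Y t - x0) + θ • (Z t - x0) := by
            simp only [hγ]
            module
          simp only [hr]
          rw [e2, map_add, map_smul, map_smul]
          module
        rw [e1]
        refine (norm_sub_le _ _).trans ?_
        have n1 : ‖(1 - θ) • r (Y t) + θ • r (Z t)‖ ≤ κ := by
          refine (norm_add_le _ _).trans ?_
          rw [norm_smul, norm_smul, Real.norm_of_nonneg (sub_nonneg.mpr hθ'.2),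
            Real.norm_of_nonneg hθ'.1]
          have m1 := mul_le_mul_of_nonneg_left (hlin _ hy) (sub_nonneg.mpr hθ'.2)
          have m2 := mul_le_mul_of_nonneg_left (hlin _ hz) hθ'.1
          linarith
        have n2 : ‖r (γ t θ)‖ ≤ κ := hlin _ (seg_mem hy hz hθ')
        linarith)
    simpa using this
  -- bound of the third integral
  have hb3 : |(∫ θ in (0 : ℝ)..1, ⟪u t (γ t θ), u t (Z t) - u t (Y t)⟫)
      - (1 / 2) * (‖u t (Z t)‖ ^ 2 - ‖u t (Y t)‖ ^ 2)| ≤ 2 * κ * (K * ‖D‖) := by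
    have hD' : ‖u t (Z t) - u t (Y t)‖ ≤ K * ‖D‖ := h.lip_u htT hK0 hK _ _
    have s1 := seg_integral (hcu t ht) (fderiv ℝ (u t) x0) hlin hy hz (u t (Z t) - u t (Y t))
    have e1 : (1 / 2) * (‖u t (Z t)‖ ^ 2 - ‖u t (Y t)‖ ^ 2)
        = ⟪(1 / 2 : ℝ) • (u t (Y t) + u t (Z t)), u t (Z t) - u t (Y t)⟫ := by
      rw [real_inner_smul_left, inner_add_left, inner_sub_right, inner_sub_right,
        real_inner_self_eq_norm_sq, real_inner_self_eq_norm_sq, real_inner_comm (u t (Z t))]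
      ring
    have e2 : (1 / 2 : ℝ) • (u t (Y t) + u t (Z t))
        - (u t x0 + fderiv ℝ (u t) x0 ((1 / 2 : ℝ) • ((Y t - x0) + (Z t - x0))))
        = (1 / 2 : ℝ) • ((u t (Y t) - u t x0 - fderiv ℝ (u t) x0 (Y t - x0))
          + (u t (Z t) - u t x0 - fderiv ℝ (u t) x0 (Z t - x0))) := by
      rw [map_smul, map_add]
      module
    have e3 : ‖(1 / 2 : ℝ) • (u t (Y t) + u t (Z t))
        - (u t x0 + fderiv ℝ (u t) x0 ((1 / 2 : ℝ) • ((Y t - x0) + (Z t - x0))))‖ ≤ κ := by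
      rw [e2, norm_smul]
      have := norm_add_le (u t (Y t) - u t x0 - fderiv ℝ (u t) x0 (Y t - x0))
        (u t (Z t) - u t x0 - fderiv ℝ (u t) x0 (Z t - x0))
      have m1 := hlin _ hy
      have m2 := hlin _ hz
      rw [Real.norm_of_nonneg (by norm_num : (0 : ℝ) ≤ 1 / 2)]
      linarith
    have e4 : |⟪u t x0 + fderiv ℝ (u t) x0 ((1 / 2 : ℝ) • ((Y t - x0) + (Z t - x0))),
          u t (Z t) - u t (Y t)⟫
        - ⟪(1 / 2 : ℝ) • (u t (Y t) + u t (Z t)), u t (Z t) - u t (Y t)⟫|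
        ≤ κ * ‖u t (Z t) - u t (Y t)‖ := by
      rw [abs_sub_comm, ← inner_sub_left]
      refine (abs_real_inner_le_norm _ _).trans ?_
      exact mul_le_mul_of_nonneg_right e3 (norm_nonneg _)
    rw [e1]
    have e5 := (abs_sub_le _ _ _).trans (add_le_add s1 e4)
    have e6 := mul_le_mul_of_nonneg_left hD' hκ0
    refine e5.trans ?_
    linarith
  rw [hIeq]
  have e7 : -(p t (Z t) - p t (Y t))
      + ((∫ θ in (0 : ℝ)..1, ⟪fderiv ℝ (u t) (γ t θ)
          ((u t (Y t) + θ • (u t (Z t) - u t (Y t))) - u t (γ t θ)), D⟫)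
        + ∫ θ in (0 : ℝ)..1, ⟪u t (γ t θ), u t (Z t) - u t (Y t)⟫)
      - ((1 / 2) * (‖u t (Z t)‖ ^ 2 - ‖u t (Y t)‖ ^ 2) - (p t (Z t) - p t (Y t)))
      = (∫ θ in (0 : ℝ)..1, ⟪fderiv ℝ (u t) (γ t θ)
          ((u t (Y t) + θ • (u t (Z t) - u t (Y t))) - u t (γ t θ)), D⟫)
        + ((∫ θ in (0 : ℝ)..1, ⟪u t (γ t θ), u t (Z t) - u t (Y t)⟫)
          - (1 / 2) * (‖u t (Z t)‖ ^ 2 - ‖u t (Y t)‖ ^ 2)) := by ring
  rw [e7]
  refine (abs_add_le _ _).trans ?_
  refine (add_le_add hb2 hb3).trans ?_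
  apply le_of_eq
  ring

end Pool.Agent.Work.MP_b0497c_an
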