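import Mathlib
import Pool.Agent.Work.MP_b0497c_an.Circ

set_option autoImplicit false
set_option maxHeartbeats 4000000

namespace Pool.Agent.Work.MP_b0497c_an

open Set RealInnerProductSpace Metric MeasureTheory

variable {T : ℝ} {u : ℝ → E3 → E3} {p : ℝ → E3 → ℝ}

/-- The antisymmetric form of `A`. -/
noncomputable def Om (A : E3 →L[ℝ] E3) (x y : E3) : ℝ := ⟪A x, y⟫ - ⟪A y, x⟫

theorem Om_bound (A : E3 →L[ℝ] E3) {K : ℝ} (hK : ‖A‖ ≤ K) (x y : E3) :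
    |Om A x y| ≤ 2 * K * ‖x‖ * ‖y‖ := by
  unfold Om
  have h1 : |⟪A x, y⟫| ≤ K * ‖x‖ * ‖y‖ := by
    refine (abs_real_inner_le_norm _ _).trans ?_
    refine mul_le_mul_of_nonneg_right ?_ (norm_nonneg _)
    exact (A.le_opNorm x).trans (mul_le_mul_of_nonneg_right hK (norm_nonneg _))
  have h2 : |⟪A y, x⟫| ≤ K * ‖y‖ * ‖x‖ := by
    refine (abs_real_inner_le_norm _ _).trans ?_
    refine mul_le_mul_of_nonneg_right ?_ (norm_nonneg _)
    exact (A.le_opNorm y).trans (mul_le_mul_of_nonneg_right hK (norm_nonneg _))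
  refine (abs_sub _ _).trans ?_
  linarith

theorem Om_sub (A B : E3 →L[ℝ] E3) (x y : E3) : Om A x y - Om B x y = Om (A - B) x y := by
  unfold Om
  simp only [_root_.sub_apply, inner_sub_left]
  ring

theorem Om_add_left (A : E3 →L[ℝ] E3) (x x' y : E3) : Om A (x + x') y = Om A x y + Om A x' y := by
  unfold Om
  simp only [map_add, inner_add_left, inner_add_right]
  ring

theorem Om_add_right (A : E3 →L[ℝ] E3) (x y y' : E3) : Om A x (y + y') = Om A x y + Om A x y' := by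
  unfold Om
  simp only [map_add, inner_add_left, inner_add_right]
  ring

theorem Om_smul_left (A : E3 →L[ℝ] E3) (c : ℝ) (x y : E3) : Om A (c • x) y = c * Om A x y := by
  unfold Om
  simp only [map_smul, real_inner_smul_left, real_inner_smul_right]
  ring

theorem Om_smul_right (A : E3 →L[ℝ] E3) (c : ℝ) (x y : E3) : Om A x (c • y) = c * Om A x y := by
  unfold Om
  simp only [map_smul, real_inner_smul_left, real_inner_smul_right]
  ring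

/-- Circulation around the triangle with three moving vertices. -/
noncomputable def circ (u : ℝ → E3 → E3) (X0 X1 X2 : ℝ → E3) (s : ℝ) : ℝ :=
  segI u X0 X1 s + segI u X1 X2 s + segI u X2 X0 s

theorem tri_value {v : E3 → E3} (hv : Continuous v) {x0 : E3} (M : E3 →L[ℝ] E3) {κ ρ : ℝ}
    (hlin : ∀ y, ‖y - x0‖ ≤ ρ → ‖v y - v x0 - M (y - x0)‖ ≤ κ) {x1 x2 : E3} (hρ : 0 ≤ ρ)
    (h1 : ‖x1 - x0‖ ≤ ρ) (h2 : ‖x2 - x0‖ ≤ ρ) :
    |((∫ θ in (0 : ℝ)..1, ⟪v (x0 + θ • (x1 - x0)), x1 - x0⟫)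
      + (∫ θ in (0 : ℝ)..1, ⟪v (x1 + θ • (x2 - x1)), x2 - x1⟫)
      + (∫ θ in (0 : ℝ)..1, ⟪v (x2 + θ • (x0 - x2)), x0 - x2⟫))
      - (1 / 2) * Om M (x1 - x0) (x2 - x0)| ≤ 4 * κ * ρ := by
  have h0 : ‖x0 - x0‖ ≤ ρ := by simpa using hρ
  have hκ : 0 ≤ κ := (norm_nonneg _).trans (hlin _ h0)
  have s1 := seg_integral hv M hlin h0 h1 (x1 - x0)
  have s2 := seg_integral hv M hlin h1 h2 (x2 - x1)
  have s3 := seg_integral hv M hlin h2 h0 (x0 - x2)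
  have n1 : κ * ‖x1 - x0‖ ≤ κ * ρ := mul_le_mul_of_nonneg_left h1 hκ
  have n2 : κ * ‖x2 - x1‖ ≤ κ * (2 * ρ) := by
    refine mul_le_mul_of_nonneg_left ?_ hκ
    have : x2 - x1 = (x2 - x0) - (x1 - x0) := by abel
    rw [this]
    refine (norm_sub_le _ _).trans ?_
    linarith
  have n3 : κ * ‖x0 - x2‖ ≤ κ * ρ := by
    rw [norm_sub_rev]
    exact mul_le_mul_of_nonneg_left h2 hκ
  have hsum : ⟪v x0 + M ((1 / 2 : ℝ) • ((x0 - x0) + (x1 - x0))), x1 - x0⟫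
      + ⟪v x0 + M ((1 / 2 : ℝ) • ((x1 - x0) + (x2 - x0))), x2 - x1⟫
      + ⟪v x0 + M ((1 / 2 : ℝ) • ((x2 - x0) + (x0 - x0))), x0 - x2⟫
      = (1 / 2) * Om M (x1 - x0) (x2 - x0) := by
    set a := x1 - x0 with ha
    set b := x2 - x0 with hb
    have e1 : x2 - x1 = b - a := by rw [ha, hb]; abel
    have e2 : x0 - x2 = -b := by rw [hb]; abel
    rw [e1, e2, sub_self]
    unfold Om
    simp only [zero_add, add_zero, map_smul, map_add, smul_add, inner_add_left, inner_sub_right,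
      inner_neg_right, real_inner_smul_left]
    ring
  rw [← hsum]
  have e3 : ∀ a b c a' b' c' : ℝ, (a + b + c) - (a' + b' + c') = (a - a') + (b - b') + (c - c') := by
    intros; ring
  rw [e3]
  refine (abs_add_le _ _).trans ?_
  have := abs_add_le ((∫ θ in (0 : ℝ)..1, ⟪v (x0 + θ • (x1 - x0)), x1 - x0⟫)
    - ⟪v x0 + M ((1 / 2 : ℝ) • ((x0 - x0) + (x1 - x0))), x1 - x0⟫)
    ((∫ θ in (0 : ℝ)..1, ⟪v (x1 + θ • (x2 - x1)), x2 - x1⟫)
    - ⟪v x0 + M ((1 / 2 : ℝ) • ((x1 - x0) + (x2 - x0))), x2 - x1⟫)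
  linarith

theorem circ_deriv (h : IsClassicalSolution T u p) {α β : ℝ} (hα : 0 ≤ α) (hβ : β < T)
    {X0 X1 X2 : ℝ → E3} (hX0 : ∀ s ∈ Ioo α β, HasDerivAt X0 (u s (X0 s)) s)
    (hX1 : ∀ s ∈ Ioo α β, HasDerivAt X1 (u s (X1 s)) s)
    (hX2 : ∀ s ∈ Ioo α β, HasDerivAt X2 (u s (X2 s)) s)
    {ρ κ K : ℝ} (hρ : 0 ≤ ρ) (hK0 : 0 ≤ K) (hK : ∀ t ∈ Icc α β, ∀ x, ‖fderiv ℝ (u t) x‖ ≤ K)
    (h1 : ∀ s ∈ Ioo α β, ‖X1 s - X0 s‖ ≤ ρ) (h2 : ∀ s ∈ Ioo α β, ‖X2 s - X0 s‖ ≤ ρ)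
    (hlin : ∀ s ∈ Ioo α β, ∀ y, ‖y - X0 s‖ ≤ ρ →
      ‖u s y - u s (X0 s) - fderiv ℝ (u s) (X0 s) (y - X0 s)‖ ≤ κ)
    {s t : ℝ} (hs : s ∈ Ioo α β) (ht : t ∈ Ioo α β) :
    |circ u X0 X1 X2 s - circ u X0 X1 X2 t| ≤ 16 * K * κ * ρ * |s - t| := by
  have h12 : ∀ s ∈ Ioo α β, ‖X2 s - X1 s‖ ≤ 2 * ρ := by
    intro s hs
    have : X2 s - X1 s = (X2 s - X0 s) - (X1 s - X0 s) := by abel
    rw [this]
    refine (norm_sub_le _ _).trans ?_
    linarith [h1 s hs, h2 s hs]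
  have h20 : ∀ s ∈ Ioo α β, ‖X0 s - X2 s‖ ≤ ρ := by
    intro s hs
    rw [norm_sub_rev]
    exact h2 s hs
  have key : ∀ r ∈ Ioo α β, ∃ D, HasDerivAt (circ u X0 X1 X2) D r ∧ ‖D‖ ≤ 16 * K * κ * ρ := by
    intro r hr
    have h0 : ‖X0 r - X0 r‖ ≤ ρ := by simpa using hρ
    have hκ : 0 ≤ κ := (norm_nonneg _).trans (hlin r hr _ h0)
    have hKr := hK r (Ioo_subset_Icc_self hr)
    obtain ⟨D1, hD1, b1⟩ := pair_deriv h hα hβ hX0 hX1 h1 hr hK0 hKr (hlin r hr) h0 (h1 r hr)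
    obtain ⟨D2, hD2, b2⟩ := pair_deriv h hα hβ hX1 hX2 h12 hr hK0 hKr (hlin r hr) (h1 r hr) (h2 r hr)
    obtain ⟨D3, hD3, b3⟩ := pair_deriv h hα hβ hX2 hX0 h20 hr hK0 hKr (hlin r hr) (h2 r hr) h0
    refine ⟨D1 + D2 + D3, (hD1.add hD2).add hD3, ?_⟩
    have c0 : 0 ≤ 4 * K * κ := by positivity
    have m1 := mul_le_mul_of_nonneg_left (h1 r hr) c0
    have m2 := mul_le_mul_of_nonneg_left (h12 r hr) c0
    have m3 := mul_le_mul_of_nonneg_left (h20 r hr) c0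
    have e1 : D1 + D2 + D3
        = (D1 - ((1 / 2) * (‖u r (X1 r)‖ ^ 2 - ‖u r (X0 r)‖ ^ 2) - (p r (X1 r) - p r (X0 r))))
        + (D2 - ((1 / 2) * (‖u r (X2 r)‖ ^ 2 - ‖u r (X1 r)‖ ^ 2) - (p r (X2 r) - p r (X1 r))))
        + (D3 - ((1 / 2) * (‖u r (X0 r)‖ ^ 2 - ‖u r (X2 r)‖ ^ 2) - (p r (X0 r) - p r (X2 r)))) := by
      ring
    rw [e1, Real.norm_eq_abs]
    refine (abs_add_le _ _).trans ?_
    have := abs_add_le
      (D1 - ((1 / 2) * (‖u r (X1 r)‖ ^ 2 - ‖u r (X0 r)‖ ^ 2) - (p r (X1 r) - p r (X0 r))))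
      (D2 - ((1 / 2) * (‖u r (X2 r)‖ ^ 2 - ‖u r (X1 r)‖ ^ 2) - (p r (X2 r) - p r (X1 r))))
    linarith
  choose! D hD using key
  have := Convex.norm_image_sub_le_of_norm_hasDerivWithin_le (f := circ u X0 X1 X2) (f' := D)
    (s := Ioo α β) (C := 16 * K * κ * ρ)
    (fun r hr => (hD r hr).1.hasDerivWithinAt) (fun r hr => (hD r hr).2) (convex_Ioo α β) ht hs
  simpa using this

theorem transport_key (h : IsClassicalSolution T u p) {α β : ℝ} (hα : 0 ≤ α) (hβ : β < T)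
    {t0 : ℝ} (ht0 : t0 ∈ Ioo α β) {x0 : E3} {Φ : E3 → ℝ → E3} {L : ℝ} (hL0 : 0 ≤ L)
    (hΦ0 : ∀ x, ‖x - x0‖ ≤ 1 → Φ x t0 = x)
    (hΦ : ∀ x, ‖x - x0‖ ≤ 1 → ∀ t ∈ Ioo α β, HasDerivAt (Φ x) (u t (Φ x t)) t)
    (hL : ∀ t ∈ Ioo α β, ∀ x y, ‖x - x0‖ ≤ 1 → ‖y - x0‖ ≤ 1 →
        ‖Φ x t - Φ y t‖ ≤ L * ‖x - y‖)
    {U K : ℝ} (hU0 : 0 ≤ U) (hU : ∀ t ∈ Icc α β, ∀ x, ‖u t x‖ ≤ U)
    (hK1 : 1 ≤ K) (hK : ∀ t ∈ Icc α β, ∀ x, ‖fderiv ℝ (u t) x‖ ≤ K)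
    (v w : E3) (c : ℝ) (hc : 0 < c) :
    ∃ δ : ℝ, 0 < δ ∧ ∀ s ∈ Ioo α β, |s - t0| < δ → s ≠ t0 → ∃ P Q : E3,
      ‖P - fderiv ℝ (u t0) x0 v‖ ≤ c ∧ ‖Q - fderiv ℝ (u t0) x0 w‖ ≤ c ∧
      |Om (fderiv ℝ (u s) (Φ x0 s)) (v + (s - t0) • P) (w + (s - t0) • Q)
        - Om (fderiv ℝ (u t0) x0) v w| ≤ c * |s - t0| ∧
      ‖fderiv ℝ (u s) (Φ x0 s) - fderiv ℝ (u t0) x0‖ ≤ c := by
  have hK0 : 0 ≤ K := zero_le_one.trans hK1
  have h00 : ‖x0 - x0‖ ≤ 1 := by simp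
  set N : ℝ := ‖v‖ + ‖w‖ + 1 with hN
  have hN1 : 1 ≤ N := by
    have := norm_nonneg v; have := norm_nonneg w; linarith
  have hvN : ‖v‖ ≤ N := by have := norm_nonneg w; linarith
  have hwN : ‖w‖ ≤ N := by have := norm_nonneg v; linarith
  set H : ℝ := (L + 1) * N with hH
  have hH1 : 1 ≤ H := by
    have : 1 * 1 ≤ (L + 1) * N := mul_le_mul (by linarith) hN1 zero_le_one (by linarith)
    linarith
  have hHpos : 0 < H := by linarith
  set η : ℝ := c / (4 * H) with hη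
  have hηpos : 0 < η := by positivity
  have hηH : 2 * η * H = c / 2 := by
    rw [hη]; field_simp; ring
  have hηc : η ≤ c := by
    rw [hη, div_le_iff₀ (by positivity)]
    nlinarith
  obtain ⟨δ1, hδ1, hM1⟩ := h.unif_M hα hβ η hηpos
  set δ : ℝ := min δ1 (min (δ1 / (U + 1)) (min (c / (2 * K ^ 2 * H)) 1)) with hδ
  have hKpos : 0 < K := by linarith
  have hδpos : 0 < δ := by
    refine lt_min hδ1 (lt_min (by positivity) (lt_min (by positivity) one_pos))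
  have ht0' := Ioo_subset_Icc_self ht0
  -- the base trajectory
  set X0 : ℝ → E3 := Φ x0 with hX0def
  have hX0t : X0 t0 = x0 := hΦ0 x0 h00
  have hX0 : ∀ s ∈ Ioo α β, HasDerivAt X0 (u s (X0 s)) s := hΦ x0 h00
  have hX0lip : ∀ r ∈ Ioo α β, ‖X0 r - x0‖ ≤ U * |r - t0| := by
    intro r hr
    have := Convex.norm_image_sub_le_of_norm_hasDerivWithin_le (f := X0)
      (f' := fun r => u r (X0 r)) (s := Ioo α β) (C := U)
      (fun r hr => (hX0 r hr).hasDerivWithinAt) (fun r hr => hU r (Ioo_subset_Icc_self hr) _)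
      (convex_Ioo α β) ht0 hr
    rw [hX0t] at this
    simpa using this
  have hMr : ∀ r ∈ Ioo α β, |r - t0| < δ →
      ‖fderiv ℝ (u r) (X0 r) - fderiv ℝ (u t0) x0‖ ≤ η := by
    intro r hr hrδ
    refine (hM1 r (Ioo_subset_Icc_self hr) t0 ht0' (X0 r) x0 ?_ ?_).le
    · exact hrδ.trans_le (min_le_left _ _)
    · have h1 : |r - t0| < δ1 / (U + 1) :=
        hrδ.trans_le ((min_le_right _ _).trans (min_le_left _ _))
      rw [lt_div_iff₀ (by linarith)] at h1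
      have h2 := hX0lip r hr
      have h3 := abs_nonneg (r - t0)
      nlinarith
  refine ⟨δ, hδpos, ?_⟩
  intro s hs hsδ hst
  set τ : ℝ := s - t0 with hτ
  have hτ0 : τ ≠ 0 := sub_ne_zero.mpr hst
  have hτpos : 0 < |τ| := abs_pos.mpr hτ0
  have hτ1 : |τ| ≤ 1 :=
    (hsδ.trans_le ((min_le_right _ _).trans ((min_le_right _ _).trans (min_le_right _ _)))).le
  have hτc : K ^ 2 * H * |τ| ≤ c / 2 := by
    have h1 : |τ| < c / (2 * K ^ 2 * H) :=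
      hsδ.trans_le ((min_le_right _ _).trans ((min_le_right _ _).trans (min_le_left _ _)))
    rw [lt_div_iff₀ (by positivity)] at h1
    nlinarith
  set η' : ℝ := min η (c * |τ| / (48 * K * H ^ 2)) with hη'
  have hη'pos : 0 < η' := lt_min hηpos (by positivity)
  have hη'η : η' ≤ η := min_le_left _ _
  have hη'2 : η' * (48 * K * H ^ 2) ≤ c * |τ| := by
    have : η' ≤ c * |τ| / (48 * K * H ^ 2) := min_le_right _ _
    rwa [le_div_iff₀ (by positivity)] at this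
  obtain ⟨δ', hδ', hM'⟩ := h.unif_M hα hβ η' hη'pos
  set ε : ℝ := min (1 / N) (δ' / (2 * H)) with hε
  have hNpos : 0 < N := by linarith
  have hεpos : 0 < ε := lt_min (by positivity) (by positivity)
  have hεN : ε * N ≤ 1 := by
    have : ε ≤ 1 / N := min_le_left _ _
    rwa [le_div_iff₀ hNpos] at this
  have hεH : H * ε < δ' := by
    have : ε ≤ δ' / (2 * H) := min_le_right _ _
    rw [le_div_iff₀ (by positivity)] at this
    nlinarith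
  set ρ : ℝ := H * ε with hρdef
  have hρpos : 0 < ρ := by positivity
  -- neighbouring trajectories
  have hnb : ∀ z : E3, ‖z‖ ≤ N → ‖x0 + ε • z - x0‖ ≤ 1 ∧
      ∀ r ∈ Ioo α β, ‖Φ (x0 + ε • z) r - X0 r‖ ≤ ρ := by
    intro z hz
    have e1 : ‖x0 + ε • z - x0‖ = ε * ‖z‖ := by
      rw [add_sub_cancel_left, norm_smul, Real.norm_of_nonneg hεpos.le]
    have e2 : ε * ‖z‖ ≤ ε * N := mul_le_mul_of_nonneg_left hz hεpos.le
    refine ⟨by rw [e1]; linarith, ?_⟩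
    intro r hr
    refine (hL r hr _ _ (by rw [e1]; linarith) h00).trans ?_
    rw [e1, hρdef, hH]
    have := mul_le_mul_of_nonneg_left e2 hL0
    nlinarith
  have hlin : ∀ r ∈ Ioo α β, ∀ y, ‖y - X0 r‖ ≤ ρ →
      ‖u r y - u r (X0 r) - fderiv ℝ (u r) (X0 r) (y - X0 r)‖ ≤ η' * ρ := by
    intro r hr y hy
    have hr' := Ioo_subset_Icc_self hr
    refine (h.lin_u (Icc_subset_of hα hβ hr') (ρ := ρ) (η := η') ?_ y hy).trans ?_
    · intro x hx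
      refine (hM' r hr' r hr' x (X0 r) ?_ ?_).le
      · simpa using hδ'
      · exact hx.trans_lt hεH
    · exact mul_le_mul_of_nonneg_left hy hη'pos.le
  -- growth of the separation
  have hgrow : ∀ z : E3, ‖z‖ ≤ N →
      ‖Φ (x0 + ε • z) s - X0 s - ε • z - τ • (ε • fderiv ℝ (u t0) x0 z)‖ ≤ ε * c * |τ| := by
    intro z hz
    obtain ⟨hz1, hz2⟩ := hnb z hz
    set X1 : ℝ → E3 := Φ (x0 + ε • z) with hX1def
    have hX1t : X1 t0 = x0 + ε • z := hΦ0 _ hz1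
    have hX1 : ∀ s ∈ Ioo α β, HasDerivAt X1 (u s (X1 s)) s := hΦ _ hz1
    have hsep : ∀ r ∈ Ioo α β, ‖X1 r - X0 r - ε • z‖ ≤ K * ρ * |r - t0| := by
      intro r hr
      have := Convex.norm_image_sub_le_of_norm_hasDerivWithin_le (f := fun r => X1 r - X0 r)
        (f' := fun r => u r (X1 r) - u r (X0 r)) (s := Ioo α β) (C := K * ρ)
        (fun r hr => ((hX1 r hr).sub (hX0 r hr)).hasDerivWithinAt) (fun r hr => by
          have hr' := Ioo_subset_Icc_self hr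
          refine (h.lip_u (Icc_subset_of hα hβ hr') hK0 (hK r hr') _ _).trans ?_
          exact mul_le_mul_of_nonneg_left (hz2 r hr) hK0)
        (convex_Ioo α β) ht0 hr
      rw [hX1t, hX0t, add_sub_cancel_left] at this
      simpa using this
    have hconv : Convex ℝ (Ioo α β ∩ closedBall t0 |τ|) :=
      (convex_Ioo α β).inter (convex_closedBall t0 |τ|)
    have hbd : ∀ r ∈ Ioo α β ∩ closedBall t0 |τ|,
        ‖(u r (X1 r) - u r (X0 r)) - ε • fderiv ℝ (u t0) x0 z‖ ≤ ε * c := by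
      rintro r ⟨hr, hrτ⟩
      have hrτ' : |r - t0| ≤ |τ| := by simpa [Real.dist_eq] using hrτ
      have n1 := hlin r hr (X1 r) (hz2 r hr)
      have n2 : ‖(fderiv ℝ (u r) (X0 r) - fderiv ℝ (u t0) x0) (X1 r - X0 r)‖ ≤ η * ρ := by
        refine (ContinuousLinearMap.le_opNorm _ _).trans ?_
        exact mul_le_mul (hMr r hr (hrτ'.trans_lt hsδ)) (hz2 r hr) (norm_nonneg _) hηpos.le
      have n3 : ‖fderiv ℝ (u t0) x0 (X1 r - X0 r - ε • z)‖ ≤ K * (K * ρ * |τ|) := by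
        refine (ContinuousLinearMap.le_opNorm _ _).trans ?_
        refine mul_le_mul (hK t0 ht0' x0) ((hsep r hr).trans ?_) (norm_nonneg _) hK0
        exact mul_le_mul_of_nonneg_left hrτ' (by positivity)
      have e1 : (u r (X1 r) - u r (X0 r)) - ε • fderiv ℝ (u t0) x0 z
          = (u r (X1 r) - u r (X0 r) - fderiv ℝ (u r) (X0 r) (X1 r - X0 r))
          + (fderiv ℝ (u r) (X0 r) - fderiv ℝ (u t0) x0) (X1 r - X0 r)
          + fderiv ℝ (u t0) x0 (X1 r - X0 r - ε • z) := by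
        rw [_root_.sub_apply, map_sub (fderiv ℝ (u t0) x0) (X1 r - X0 r), map_smul]
        abel
      rw [e1]
      have n4 := norm_add₃_le (a := u r (X1 r) - u r (X0 r) - fderiv ℝ (u r) (X0 r) (X1 r - X0 r))
        (b := (fderiv ℝ (u r) (X0 r) - fderiv ℝ (u t0) x0) (X1 r - X0 r))
        (c := fderiv ℝ (u t0) x0 (X1 r - X0 r - ε • z))
      have n5 : η' * ρ ≤ η * ρ := mul_le_mul_of_nonneg_right hη'η hρpos.le
      have n6 : 2 * (η * ρ) + K * (K * ρ * |τ|) = ε * (2 * η * H + K ^ 2 * H * |τ|) := by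
        rw [hρdef]; ring
      have n7 : ε * (2 * η * H + K ^ 2 * H * |τ|) ≤ ε * c := by
        refine mul_le_mul_of_nonneg_left ?_ hεpos.le
        linarith
      linarith
    have := Convex.norm_image_sub_le_of_norm_hasDerivWithin_le
      (f := fun r => X1 r - X0 r - r • (ε • fderiv ℝ (u t0) x0 z))
      (f' := fun r => (u r (X1 r) - u r (X0 r)) - ε • fderiv ℝ (u t0) x0 z)
      (s := Ioo α β ∩ closedBall t0 |τ|) (C := ε * c)
      (fun r hr => by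
        have d1 := ((hX1 r hr.1).sub (hX0 r hr.1))
        have d2 := (hasDerivAt_id r).smul_const (ε • fderiv ℝ (u t0) x0 z)
        have d3 := d1.sub d2
        simp only [one_smul, id] at d3
        exact d3.hasDerivWithinAt) hbd hconv
      (x := t0) (y := s) ⟨ht0, by simp⟩ ⟨hs, by simp [Real.dist_eq, hτ]⟩
    rw [hX1t, hX0t, add_sub_cancel_left] at this
    have e2 : X1 s - X0 s - ε • z - τ • (ε • fderiv ℝ (u t0) x0 z)
        = X1 s - X0 s - s • (ε • fderiv ℝ (u t0) x0 z)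
          - (ε • z - t0 • (ε • fderiv ℝ (u t0) x0 z)) := by
      rw [hτ, sub_smul]
      abel
    rw [e2]
    simpa using this
  obtain ⟨hv1, hv2⟩ := hnb v hvN
  obtain ⟨hw1, hw2⟩ := hnb w hwN
  set X1 : ℝ → E3 := Φ (x0 + ε • v) with hX1def
  set X2 : ℝ → E3 := Φ (x0 + ε • w) with hX2def
  have hX1t : X1 t0 = x0 + ε • v := hΦ0 _ hv1
  have hX2t : X2 t0 = x0 + ε • w := hΦ0 _ hw1
  have hX1 : ∀ s ∈ Ioo α β, HasDerivAt X1 (u s (X1 s)) s := hΦ _ hv1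
  have hX2 : ∀ s ∈ Ioo α β, HasDerivAt X2 (u s (X2 s)) s := hΦ _ hw1
  have hcu : ∀ s ∈ Ioo α β, Continuous (u s) := fun s hs =>
    continuous_iff_continuousAt.mpr fun x =>
      (h.differentiableAt (Icc_subset_of hα hβ (Ioo_subset_Icc_self hs)) x).continuousAt
  have c1 := circ_deriv h hα hβ hX0 hX1 hX2 hρpos.le hK0 hK hv2 hw2 hlin hs ht0
  have c2 := tri_value (hcu s hs) (fderiv ℝ (u s) (X0 s)) (hlin s hs) hρpos.le (hv2 s hs) (hw2 s hs)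
  have c3 := tri_value (hcu t0 ht0) (fderiv ℝ (u t0) (X0 t0)) (hlin t0 ht0) hρpos.le
    (hv2 t0 ht0) (hw2 t0 ht0)
  change |circ u X0 X1 X2 s - _| ≤ _ at c2
  change |circ u X0 X1 X2 t0 - _| ≤ _ at c3
  rw [hX1t, hX2t, hX0t, add_sub_cancel_left, add_sub_cancel_left, Om_smul_left, Om_smul_right]
    at c3
  have hcirc : |Om (fderiv ℝ (u s) (X0 s)) (X1 s - X0 s) (X2 s - X0 s)
      - ε ^ 2 * Om (fderiv ℝ (u t0) x0) v w| ≤ ε ^ 2 * (c * |τ|) := by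
    have d1 : |(1 / 2) * Om (fderiv ℝ (u s) (X0 s)) (X1 s - X0 s) (X2 s - X0 s)
        - (1 / 2) * (ε * (ε * Om (fderiv ℝ (u t0) x0) v w))|
        ≤ 4 * (η' * ρ) * ρ + 16 * K * (η' * ρ) * ρ * |s - t0| + 4 * (η' * ρ) * ρ := by
      have e1 : (1 / 2) * Om (fderiv ℝ (u s) (X0 s)) (X1 s - X0 s) (X2 s - X0 s)
          - (1 / 2) * (ε * (ε * Om (fderiv ℝ (u t0) x0) v w))
          = -(circ u X0 X1 X2 s - (1 / 2) * Om (fderiv ℝ (u s) (X0 s)) (X1 s - X0 s) (X2 s - X0 s))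
            + (circ u X0 X1 X2 s - circ u X0 X1 X2 t0)
            + (circ u X0 X1 X2 t0 - (1 / 2) * (ε * (ε * Om (fderiv ℝ (u t0) x0) v w))) := by ring
      rw [e1]
      refine (abs_add_le _ _).trans (add_le_add ?_ c3)
      refine (abs_add_le _ _).trans (add_le_add ?_ c1)
      rw [abs_neg]
      exact c2
    have e2 : Om (fderiv ℝ (u s) (X0 s)) (X1 s - X0 s) (X2 s - X0 s)
        - ε ^ 2 * Om (fderiv ℝ (u t0) x0) v w
        = 2 * ((1 / 2) * Om (fderiv ℝ (u s) (X0 s)) (X1 s - X0 s) (X2 s - X0 s)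
          - (1 / 2) * (ε * (ε * Om (fderiv ℝ (u t0) x0) v w))) := by ring
    rw [e2, abs_mul, abs_two]
    rw [← hτ] at d1
    have d2 : 2 * (4 * (η' * ρ) * ρ + 16 * K * (η' * ρ) * ρ * |τ| + 4 * (η' * ρ) * ρ)
        ≤ ε ^ 2 * (η' * (48 * K * H ^ 2)) := by
      have d3 : 2 * (4 * (η' * ρ) * ρ + 16 * K * (η' * ρ) * ρ * |τ| + 4 * (η' * ρ) * ρ)
          = (η' * ρ ^ 2) * (16 + 32 * (K * |τ|)) := by ring
      have d4 : ε ^ 2 * (η' * (48 * K * H ^ 2)) = (η' * ρ ^ 2) * (48 * K) := by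
        rw [hρdef]; ring
      rw [d3, d4]
      refine mul_le_mul_of_nonneg_left ?_ (by positivity)
      have : K * |τ| ≤ K * 1 := mul_le_mul_of_nonneg_left hτ1 hK0
      linarith
    have d5 : ε ^ 2 * (η' * (48 * K * H ^ 2)) ≤ ε ^ 2 * (c * |τ|) :=
      mul_le_mul_of_nonneg_left hη'2 (by positivity)
    linarith
  -- definition of `P`, `Q`
  have hPQ : ∀ z : E3, ‖z‖ ≤ N →
      ‖(τ⁻¹ • (ε⁻¹ • (Φ (x0 + ε • z) s - X0 s) - z)) - fderiv ℝ (u t0) x0 z‖ ≤ c := by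
    intro z hz
    have e1 : (τ⁻¹ • (ε⁻¹ • (Φ (x0 + ε • z) s - X0 s) - z)) - fderiv ℝ (u t0) x0 z
        = (τ⁻¹ * ε⁻¹) • (Φ (x0 + ε • z) s - X0 s - ε • z - τ • (ε • fderiv ℝ (u t0) x0 z)) := by
      simp only [smul_sub, smul_smul]
      have f1 : τ⁻¹ * ε⁻¹ * ε = τ⁻¹ := by field_simp
      have f2 : τ⁻¹ * ε⁻¹ * (τ * ε) = 1 := by field_simp
      rw [f1, f2, one_smul]
    rw [e1, norm_smul, norm_mul, norm_inv, norm_inv, Real.norm_eq_abs, Real.norm_eq_abs,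
      abs_of_pos hεpos]
    have := hgrow z hz
    calc |τ|⁻¹ * ε⁻¹ * ‖Φ (x0 + ε • z) s - X0 s - ε • z - τ • (ε • fderiv ℝ (u t0) x0 z)‖
        ≤ |τ|⁻¹ * ε⁻¹ * (ε * c * |τ|) := mul_le_mul_of_nonneg_left this (by positivity)
      _ = c := by field_simp
  refine ⟨τ⁻¹ • (ε⁻¹ • (X1 s - X0 s) - v), τ⁻¹ • (ε⁻¹ • (X2 s - X0 s) - w), hPQ v hvN, hPQ w hwN,
    ?_, (hMr s hs hsδ).trans hηc⟩
  have e3 : ∀ z y : E3, z + τ • (τ⁻¹ • (ε⁻¹ • y - z)) = ε⁻¹ • y := by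
    intro z y
    rw [smul_smul, mul_inv_cancel₀ hτ0, one_smul]
    abel
  rw [e3, e3, Om_smul_left, Om_smul_right]
  have e4 : ε⁻¹ * (ε⁻¹ * Om (fderiv ℝ (u s) (X0 s)) (X1 s - X0 s) (X2 s - X0 s))
      - Om (fderiv ℝ (u t0) x0) v w
      = (ε ^ 2)⁻¹ * (Om (fderiv ℝ (u s) (X0 s)) (X1 s - X0 s) (X2 s - X0 s)
      - ε ^ 2 * Om (fderiv ℝ (u t0) x0) v w) := by
    field_simp
  rw [e4, abs_mul, abs_of_pos (by positivity : 0 < (ε ^ 2)⁻¹)]
  calc (ε ^ 2)⁻¹ * |Om (fderiv ℝ (u s) (X0 s)) (X1 s - X0 s) (X2 s - X0 s)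
      - ε ^ 2 * Om (fderiv ℝ (u t0) x0) v w| ≤ (ε ^ 2)⁻¹ * (ε ^ 2 * (c * |τ|)) :=
        mul_le_mul_of_nonneg_left hcirc (by positivity)
    _ = c * |τ| := by field_simp

end Pool.Agent.Work.MP_b0497c_an
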