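import Mathlib
import Pool.Agent.Work.MP_b0497c_an.Transport

set_option autoImplicit false
set_option maxHeartbeats 4000000

namespace Pool.Agent.Work.MP_b0497c_an

open Set RealInnerProductSpace Metric MeasureTheory

variable {T : ℝ} {u : ℝ → E3 → E3} {p : ℝ → E3 → ℝ}

theorem hasDerivAt_Om (h : IsClassicalSolution T u p) {α β : ℝ} (hα : 0 ≤ α) (hβ : β < T)
    {t0 : ℝ} (ht0 : t0 ∈ Ioo α β) {x0 : E3} {Φ : E3 → ℝ → E3} {L : ℝ} (hL0 : 0 ≤ L)
    (hΦ0 : ∀ x, ‖x - x0‖ ≤ 1 → Φ x t0 = x)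
    (hΦ : ∀ x, ‖x - x0‖ ≤ 1 → ∀ t ∈ Ioo α β, HasDerivAt (Φ x) (u t (Φ x t)) t)
    (hL : ∀ t ∈ Ioo α β, ∀ x y, ‖x - x0‖ ≤ 1 → ‖y - x0‖ ≤ 1 →
        ‖Φ x t - Φ y t‖ ≤ L * ‖x - y‖) (v w : E3) :
    HasDerivAt (fun s => Om (fderiv ℝ (u s) (Φ x0 s)) v w)
      (-(Om (fderiv ℝ (u t0) x0) (fderiv ℝ (u t0) x0 v) w
        + Om (fderiv ℝ (u t0) x0) v (fderiv ℝ (u t0) x0 w))) t0 := by
  obtain ⟨U, hU0, hU⟩ := h.bound_u hα hβ
  obtain ⟨K', hK'0, hK'⟩ := h.bound_M hα hβ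
  set K : ℝ := K' + 1 with hKdef
  have hK1 : 1 ≤ K := by linarith
  have hKpos : 0 < K := by linarith
  have hK : ∀ t ∈ Icc α β, ∀ x, ‖fderiv ℝ (u t) x‖ ≤ K := fun t ht x => by
    linarith [hK' t ht x]
  set N : ℝ := ‖v‖ + ‖w‖ + 1 with hN
  have hN1 : 1 ≤ N := by
    have := norm_nonneg v; have := norm_nonneg w; linarith
  have hNpos : 0 < N := by linarith
  have hvN : ‖v‖ ≤ N := by have := norm_nonneg w; linarith
  have hwN : ‖w‖ ≤ N := by have := norm_nonneg v; linarith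
  have hx00 : Φ x0 t0 = x0 := hΦ0 x0 (by simp)
  set M0 := fderiv ℝ (u t0) x0 with hM0
  have hM0K : ‖M0‖ ≤ K := hK t0 (Ioo_subset_Icc_self ht0) x0
  have hM0v : ‖M0 v‖ ≤ K * N :=
    (M0.le_opNorm v).trans (mul_le_mul hM0K hvN (norm_nonneg _) hKpos.le)
  have hM0w : ‖M0 w‖ ≤ K * N :=
    (M0.le_opNorm w).trans (mul_le_mul hM0K hwN (norm_nonneg _) hKpos.le)
  rw [hasDerivAt_iff_isLittleO, Asymptotics.isLittleO_iff]
  intro c hc
  set c' : ℝ := min 1 (c / (17 * K ^ 3 * N ^ 2)) with hc'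
  have hc'pos : 0 < c' := lt_min one_pos (by positivity)
  have hc'1 : c' ≤ 1 := min_le_left _ _
  have hc'c : c' * (17 * K ^ 3 * N ^ 2) ≤ c := by
    have : c' ≤ c / (17 * K ^ 3 * N ^ 2) := min_le_right _ _
    rwa [le_div_iff₀ (by positivity)] at this
  obtain ⟨δ, hδ, hkey⟩ := transport_key h hα hβ ht0 hL0 hΦ0 hΦ hL hU0 hU hK1 hK v w c' hc'pos
  filter_upwards [Ioo_mem_nhds ht0.1 ht0.2, ball_mem_nhds t0 (lt_min hδ hc'pos)] with s hs hsb
  have hsb' : |s - t0| < min δ c' := by simpa [Real.dist_eq] using hsb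
  by_cases hst : s = t0
  · subst hst
    simp
  obtain ⟨P, Q, hP, hQ, hO, hMs⟩ := hkey s hs (hsb'.trans_le (min_le_left _ _)) hst
  rw [hx00, smul_eq_mul, Real.norm_eq_abs, Real.norm_eq_abs]
  set τ := s - t0 with hτ
  have hτc' : |τ| ≤ c' := (hsb'.trans_le (min_le_right _ _)).le
  set Ms := fderiv ℝ (u s) (Φ x0 s) with hMsdef
  have hMsK : ‖Ms‖ ≤ K := hK s (Ioo_subset_Icc_self hs) _
  have hPn : ‖P‖ ≤ 2 * K * N := by
    have : P = (P - M0 v) + M0 v := by abel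
    rw [this]
    refine (norm_add_le _ _).trans ?_
    have h1 : 1 * 1 ≤ K * N := mul_le_mul hK1 hN1 zero_le_one (by linarith)
    linarith
  have hQn : ‖Q‖ ≤ 2 * K * N := by
    have : Q = (Q - M0 w) + M0 w := by abel
    rw [this]
    refine (norm_add_le _ _).trans ?_
    have h1 : 1 * 1 ≤ K * N := mul_le_mul hK1 hN1 zero_le_one (by linarith)
    linarith
  have hexp : Om Ms (v + τ • P) (w + τ • Q)
      = Om Ms v w + τ * Om Ms v Q + τ * Om Ms P w + τ * (τ * Om Ms P Q) := by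
    rw [Om_add_left, Om_add_right, Om_add_right, Om_smul_left, Om_smul_left, Om_smul_right,
      Om_smul_right]
    ring
  have hPw : |Om Ms P w - Om M0 (M0 v) w| ≤ 2 * K * c' * N + 2 * c' * (K * N) * N := by
    have e1 : Om Ms P w - Om M0 (M0 v) w = Om Ms (P - M0 v) w + Om (Ms - M0) (M0 v) w := by
      rw [← Om_sub]
      have : Om Ms P w = Om Ms (P - M0 v) w + Om Ms (M0 v) w := by
        rw [← Om_add_left, sub_add_cancel]
      rw [this]
      ring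
    rw [e1]
    refine (abs_add_le _ _).trans (add_le_add ?_ ?_)
    · refine (Om_bound Ms hMsK _ _).trans ?_
      have := mul_le_mul hP hwN (norm_nonneg _) hc'pos.le
      calc 2 * K * ‖P - M0 v‖ * ‖w‖ = 2 * K * (‖P - M0 v‖ * ‖w‖) := by ring
        _ ≤ 2 * K * (c' * N) := mul_le_mul_of_nonneg_left this (by positivity)
        _ = 2 * K * c' * N := by ring
    · refine (Om_bound (Ms - M0) hMs _ _).trans ?_
      have := mul_le_mul hM0v hwN (norm_nonneg _) (by positivity)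
      calc 2 * c' * ‖M0 v‖ * ‖w‖ = 2 * c' * (‖M0 v‖ * ‖w‖) := by ring
        _ ≤ 2 * c' * (K * N * N) := mul_le_mul_of_nonneg_left this (by positivity)
        _ = 2 * c' * (K * N) * N := by ring
  have hvQ : |Om Ms v Q - Om M0 v (M0 w)| ≤ 2 * K * c' * N + 2 * c' * (K * N) * N := by
    have e1 : Om Ms v Q - Om M0 v (M0 w) = Om Ms v (Q - M0 w) + Om (Ms - M0) v (M0 w) := by
      rw [← Om_sub]
      have : Om Ms v Q = Om Ms v (Q - M0 w) + Om Ms v (M0 w) := by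
        rw [← Om_add_right, sub_add_cancel]
      rw [this]
      ring
    rw [e1]
    refine (abs_add_le _ _).trans (add_le_add ?_ ?_)
    · refine (Om_bound Ms hMsK _ _).trans ?_
      have := mul_le_mul hvN hQ (norm_nonneg _) (by positivity)
      calc 2 * K * ‖v‖ * ‖Q - M0 w‖ = 2 * K * (‖v‖ * ‖Q - M0 w‖) := by ring
        _ ≤ 2 * K * (N * c') := mul_le_mul_of_nonneg_left this (by positivity)
        _ = 2 * K * c' * N := by ring
    · refine (Om_bound (Ms - M0) hMs _ _).trans ?_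
      have := mul_le_mul hvN hM0w (norm_nonneg _) (by positivity)
      calc 2 * c' * ‖v‖ * ‖M0 w‖ = 2 * c' * (‖v‖ * ‖M0 w‖) := by ring
        _ ≤ 2 * c' * (N * (K * N)) := mul_le_mul_of_nonneg_left this (by positivity)
        _ = 2 * c' * (K * N) * N := by ring
  have hPQ : |Om Ms P Q| ≤ 8 * K ^ 3 * N ^ 2 := by
    refine (Om_bound Ms hMsK _ _).trans ?_
    have := mul_le_mul hPn hQn (norm_nonneg _) (by positivity)
    calc 2 * K * ‖P‖ * ‖Q‖ = 2 * K * (‖P‖ * ‖Q‖) := by ring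
      _ ≤ 2 * K * (2 * K * N * (2 * K * N)) := mul_le_mul_of_nonneg_left this (by positivity)
      _ = 8 * K ^ 3 * N ^ 2 := by ring
  have hmain : Om Ms v w - Om M0 v w - τ * -(Om M0 (M0 v) w + Om M0 v (M0 w))
      = (Om Ms (v + τ • P) (w + τ • Q) - Om M0 v w)
        - τ * (Om Ms P w - Om M0 (M0 v) w) - τ * (Om Ms v Q - Om M0 v (M0 w))
        - τ * (τ * Om Ms P Q) := by
    rw [hexp]; ring
  rw [hmain]
  have hτ0 : 0 ≤ |τ| := abs_nonneg τ
  have t1 : |τ * (Om Ms P w - Om M0 (M0 v) w)|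
      ≤ |τ| * (2 * K * c' * N + 2 * c' * (K * N) * N) := by
    rw [abs_mul]; exact mul_le_mul_of_nonneg_left hPw hτ0
  have t2 : |τ * (Om Ms v Q - Om M0 v (M0 w))|
      ≤ |τ| * (2 * K * c' * N + 2 * c' * (K * N) * N) := by
    rw [abs_mul]; exact mul_le_mul_of_nonneg_left hvQ hτ0
  have t3 : |τ * (τ * Om Ms P Q)| ≤ |τ| * (c' * (8 * K ^ 3 * N ^ 2)) := by
    rw [abs_mul, abs_mul]
    refine mul_le_mul_of_nonneg_left ?_ hτ0
    exact mul_le_mul hτc' hPQ (abs_nonneg _) hc'pos.le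
  have s1 := abs_sub ((Om Ms (v + τ • P) (w + τ • Q) - Om M0 v w)
        - τ * (Om Ms P w - Om M0 (M0 v) w) - τ * (Om Ms v Q - Om M0 v (M0 w)))
        (τ * (τ * Om Ms P Q))
  have s2 := abs_sub ((Om Ms (v + τ • P) (w + τ • Q) - Om M0 v w)
        - τ * (Om Ms P w - Om M0 (M0 v) w)) (τ * (Om Ms v Q - Om M0 v (M0 w)))
  have s3 := abs_sub (Om Ms (v + τ • P) (w + τ • Q) - Om M0 v w)
        (τ * (Om Ms P w - Om M0 (M0 v) w))
  have hfin : c' * |τ| + |τ| * (2 * K * c' * N + 2 * c' * (K * N) * N)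
      + |τ| * (2 * K * c' * N + 2 * c' * (K * N) * N) + |τ| * (c' * (8 * K ^ 3 * N ^ 2))
      ≤ c * |τ| := by
    have f1 : c' * |τ| + |τ| * (2 * K * c' * N + 2 * c' * (K * N) * N)
      + |τ| * (2 * K * c' * N + 2 * c' * (K * N) * N) + |τ| * (c' * (8 * K ^ 3 * N ^ 2))
      = (c' * (1 + 4 * (K * N) + 4 * (K * N ^ 2) + 8 * (K ^ 3 * N ^ 2))) * |τ| := by ring
    rw [f1]
    refine mul_le_mul_of_nonneg_right (le_trans ?_ hc'c) hτ0
    refine mul_le_mul_of_nonneg_left ?_ hc'pos.le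
    have g1 : (1 : ℝ) ≤ K ^ 3 := one_le_pow₀ hK1
    have g2 : K ≤ K ^ 3 := le_self_pow₀ hK1 (by norm_num)
    have g3 : N ≤ N ^ 2 := le_self_pow₀ hN1 (by norm_num)
    have g4 : (1 : ℝ) ≤ N ^ 2 := one_le_pow₀ hN1
    have g5 : K * N ≤ K ^ 3 * N ^ 2 := mul_le_mul g2 g3 (by linarith) (by positivity)
    have g6 : K * N ^ 2 ≤ K ^ 3 * N ^ 2 := mul_le_mul_of_nonneg_right g2 (by positivity)
    have g7 : 1 * 1 ≤ K ^ 3 * N ^ 2 := mul_le_mul g1 g4 zero_le_one (by positivity)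
    linarith
  linarith

theorem axial_eq_Om (A : E3 →L[ℝ] E3) :
    axial A = (Om A (e 1) (e 2)) • e 0 + (Om A (e 2) (e 0)) • e 1 + (Om A (e 0) (e 1)) • e 2 := by
  ext i
  fin_cases i
  · simp [axial, Om, inner_eq, e]
  · simp [axial, Om, inner_eq, e]
  · simp [axial, Om, inner_eq, e]

theorem e_apply (i j : Fin 3) : (e i) j = if j = i then 1 else 0 := by
  simp [e]

theorem axial_deriv_eq (A : E3 →L[ℝ] E3) (htr : LinearMap.trace ℝ E3 A = 0) :
    (-(Om A (A (e 1)) (e 2) + Om A (e 1) (A (e 2)))) • e 0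
    + (-(Om A (A (e 2)) (e 0) + Om A (e 2) (A (e 0)))) • e 1
    + (-(Om A (A (e 0)) (e 1) + Om A (e 0) (A (e 1)))) • e 2 = A (axial A) := by
  rw [trace_eq] at htr
  have hA : ∀ (x : E3) (i : Fin 3), (A x) i
      = x 0 * (A (e 0)) i + x 1 * (A (e 1)) i + x 2 * (A (e 2)) i := apply_expand A
  ext i
  rw [hA (axial A) i, axial_zero, axial_one, axial_two]
  unfold Om
  simp only [inner_eq, hA (A (e 0)), hA (A (e 1)), hA (A (e 2))]
  set a00 := (A (e 0)) 0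
  set a10 := (A (e 0)) 1
  set a20 := (A (e 0)) 2
  set a01 := (A (e 1)) 0
  set a11 := (A (e 1)) 1
  set a21 := (A (e 1)) 2
  set a02 := (A (e 2)) 0
  set a12 := (A (e 2)) 1
  set a22 := (A (e 2)) 2
  fin_cases i
  · simp [e_apply]
    linear_combination (a12 - a21) * htr
  · simp [e_apply]
    linear_combination (a20 - a02) * htr
  · simp [e_apply]
    linear_combination (a01 - a10) * htr

theorem curl_along_local (h : IsClassicalSolution T u p) {t0 : ℝ} (ht0 : t0 ∈ Ioo 0 T) (x0 : E3) :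
    ∃ X : ℝ → E3, X t0 = x0 ∧
      (∀ s ∈ Ioo (t0 / 2) ((t0 + T) / 2), HasDerivAt X (u s (X s)) s) ∧
      HasDerivAt (fun s => curl (u s) (X s)) (fderiv ℝ (u t0) x0 (curl (u t0) x0)) t0 := by
  set α : ℝ := t0 / 2 with hαdef
  set β : ℝ := (t0 + T) / 2 with hβdef
  have hα : 0 ≤ α := by have := ht0.1; positivity
  have hβ : β < T := by have := ht0.2; linarith
  have ht0' : t0 ∈ Ioo α β := ⟨by have := ht0.1; linarith, by have := ht0.2; linarith⟩
  obtain ⟨Φ, hΦ, L, hL0, hL⟩ := h.exists_flow hα hβ (Ioo_subset_Icc_self ht0') x0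
  have hΦ0 : ∀ x, ‖x - x0‖ ≤ 1 → Φ x t0 = x := fun x hx => (hΦ x hx).1
  have hΦ1 : ∀ x, ‖x - x0‖ ≤ 1 → ∀ t ∈ Ioo α β, HasDerivAt (Φ x) (u t (Φ x t)) t :=
    fun x hx t ht => ((hΦ x hx).2 t (Ioo_subset_Icc_self ht)).hasDerivAt (Icc_mem_nhds ht.1 ht.2)
  have hL' : ∀ t ∈ Ioo α β, ∀ x y, ‖x - x0‖ ≤ 1 → ‖y - x0‖ ≤ 1 →
      ‖Φ x t - Φ y t‖ ≤ L * ‖x - y‖ := fun t ht => hL t (Ioo_subset_Icc_self ht)
  have hx00 : Φ x0 t0 = x0 := hΦ0 x0 (by simp)
  refine ⟨Φ x0, hx00, hΦ1 x0 (by simp), ?_⟩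
  have hOm := hasDerivAt_Om h hα hβ ht0' hL0 hΦ0 hΦ1 hL'
  have d0 := (hOm (e 1) (e 2)).smul_const (e 0)
  have d1 := (hOm (e 2) (e 0)).smul_const (e 1)
  have d2 := (hOm (e 0) (e 1)).smul_const (e 2)
  have d := (d0.add d1).add d2
  have htr := h.div_free t0 ⟨ht0.1.le, ht0.2⟩ x0
  rw [axial_deriv_eq _ htr] at d
  have e1 : (fun s => curl (u s) (Φ x0 s)) = fun s =>
      (Om (fderiv ℝ (u s) (Φ x0 s)) (e 1) (e 2)) • e 0
      + (Om (fderiv ℝ (u s) (Φ x0 s)) (e 2) (e 0)) • e 1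
      + (Om (fderiv ℝ (u s) (Φ x0 s)) (e 0) (e 1)) • e 2 := by
    funext s
    exact axial_eq_Om _
  rw [e1]
  exact d

/-- The vorticity equation along particle trajectories, for `C¹` solutions. -/
theorem curl_along (h : IsClassicalSolution T u p) {a b : ℝ} (hab : Ioo a b ⊆ Ioo 0 T)
    {X : ℝ → E3} (hX : ∀ s ∈ Ioo a b, HasDerivAt X (u s (X s)) s) {t : ℝ} (ht : t ∈ Ioo a b) :
    HasDerivAt (fun s => curl (u s) (X s)) (fderiv ℝ (u t) (X t) (curl (u t) (X t))) t := by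
  have htT := hab ht
  obtain ⟨Y, hY0, hY, hYc⟩ := curl_along_local h htT (X t)
  set α : ℝ := t / 2 with hαdef
  set β : ℝ := (t + T) / 2 with hβdef
  have hα : 0 ≤ α := by have := htT.1; positivity
  have hβ : β < T := by have := htT.2; linarith
  have ht' : t ∈ Ioo α β := ⟨by have := htT.1; linarith, by have := htT.2; linarith⟩
  obtain ⟨K, hK0, hK⟩ := h.bound_M hα hβ
  have hXY : X =ᶠ[nhds t] Y := by
    refine ODE_solution_unique_of_eventually (v := u) (s := fun _ => univ) (K := ⟨K, hK0⟩)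
      ?_ ?_ ?_ hY0.symm
    · filter_upwards [Ioo_mem_nhds ht'.1 ht'.2] with s hs
      apply LipschitzWith.lipschitzOnWith
      apply LipschitzWith.of_dist_le_mul
      intro x y
      rw [dist_eq_norm, dist_eq_norm]
      exact h.lip_u (Icc_subset_of hα hβ (Ioo_subset_Icc_self hs)) hK0
        (hK s (Ioo_subset_Icc_self hs)) x y
    · filter_upwards [Ioo_mem_nhds ht.1 ht.2] with s hs
      exact ⟨hX s hs, mem_univ _⟩
    · filter_upwards [Ioo_mem_nhds ht'.1 ht'.2] with s hs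
      exact ⟨hY s hs, mem_univ _⟩
  refine hYc.congr_of_eventuallyEq ?_
  filter_upwards [hXY] with s hs
  rw [hs]

end Pool.Agent.Work.MP_b0497c_an
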