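import Mathlib
import Pool.Agent.Work.MP_b0497c_an.Vorticity

set_option autoImplicit false
set_option maxHeartbeats 1000000

namespace Pool.Agent.Work.MP_b0497c_an

open Set RealInnerProductSpace Metric MeasureTheory Filter Topology

variable {T : ℝ} {u : ℝ → E3 → E3} {p : ℝ → E3 → ℝ}

theorem continuous_axial : Continuous (axial : (E3 →L[ℝ] E3) → E3) := by
  have h : ∀ i j : Fin 3, Continuous fun A : E3 →L[ℝ] E3 => (A (e i)) j := by
    intro i j
    have h1 : Continuous fun A : E3 →L[ℝ] E3 => A (e i) :=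
      continuous_id.clm_apply continuous_const
    exact (EuclideanSpace.proj (𝕜 := ℝ) (ι := Fin 3) j).continuous.comp h1
  have h2 : (axial : (E3 →L[ℝ] E3) → E3) = fun A =>
      ((A (e 1)) 2 - (A (e 2)) 1) • e 0 + ((A (e 2)) 0 - (A (e 0)) 2) • e 1
        + ((A (e 0)) 1 - (A (e 1)) 0) • e 2 := by
    funext A
    rw [expand (axial A), axial_zero, axial_one, axial_two]
  rw [h2]
  exact ((((h 1 2).sub (h 2 1)).smul continuous_const).add
    (((h 2 0).sub (h 0 2)).smul continuous_const)).add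
    (((h 0 1).sub (h 1 0)).smul continuous_const)

theorem IsClassicalSolution.cont_curl (h : IsClassicalSolution T u p) {α β : ℝ} (hα : 0 ≤ α)
    (hβ : β < T) : ContinuousOn (fun z : ℝ × E3 => curl (u z.1) z.2) (Icc α β ×ˢ univ) :=
  continuous_axial.comp_continuousOn (h.cont_M hα hβ)

theorem IsClassicalSolution.per_curl (h : IsClassicalSolution T u p) {t : ℝ} (ht : t ∈ Ico 0 T) :
    Periodic3 (curl (u t)) := by
  intro i x
  unfold curl
  rw [(h.periodic_u t ht).fderiv i x]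

theorem IsClassicalSolution.cont_curl_space (h : IsClassicalSolution T u p) {t : ℝ}
    (ht : t ∈ Ico 0 T) : Continuous (curl (u t)) := by
  have h1 := h.cont_curl ht.1 ht.2
  have h2 : Continuous (fun x : E3 => (t, x)) := by fun_prop
  have h3 : ContinuousOn ((fun z : ℝ × E3 => curl (u z.1) z.2) ∘ (fun x : E3 => (t, x))) univ :=
    ContinuousOn.comp h1 h2.continuousOn (fun x _ => ⟨⟨le_rfl, le_rfl⟩, mem_univ _⟩)
  exact continuousOn_univ.mp h3

theorem IsClassicalSolution.exists_argmax (h : IsClassicalSolution T u p) {t : ℝ}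
    (ht : t ∈ Ico 0 T) : ∃ xm : E3, ∀ y, ‖curl (u t) y‖ ≤ ‖curl (u t) xm‖ := by
  have hcc : ContinuousOn (fun x => ‖curl (u t) x‖) (closedBall (0 : E3) 13) :=
    (h.cont_curl_space ht).norm.continuousOn
  obtain ⟨xm, _, hxm⟩ := (isCompact_closedBall (0 : E3) 13).exists_isMaxOn
    ⟨0, by simp⟩ hcc
  refine ⟨xm, fun y => ?_⟩
  obtain ⟨v, hv, hv'⟩ := exists_shift y
  have e1 : curl (u t) (y + v) = curl (u t) y := hv' E3 _ (h.per_curl ht) y
  rw [← e1]
  exact hxm (by simpa using hv : y + v ∈ closedBall (0 : E3) 13)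

/-- If `q` has derivative less than `r` at `t`, then to the left of `t`, `q` lies above the line
of slope `r`. -/
theorem eventually_above {q : ℝ → ℝ} {q' t r : ℝ} (hq : HasDerivAt q q' t) (hr : q' < r) :
    ∀ᶠ s in 𝓝[<] t, q t - q s < r * (t - s) := by
  have h1 := (hasDerivAt_iff_tendsto_slope.mp hq).eventually_lt_const hr
  have h2 : ∀ᶠ s in 𝓝[<] t, slope q t s < r :=
    nhdsWithin_mono t (fun s hs => ne_of_lt hs) h1
  filter_upwards [h2, self_mem_nhdsWithin] with s hs hst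
  have hst' : s < t := hst
  rw [slope_def_field, div_lt_iff_of_neg (by linarith)] at hs
  linarith

theorem vorticity_max_principle (h : IsClassicalSolution T u p) {Φ g : ℝ → ℝ}
    (hΦc : ContinuousOn Φ (Ioi 0)) (hΦpos : ∀ s, 0 < s → 0 < Φ s)
    (hg : IntegrableOn g (Ioo 0 T)) (hg0 : ∀ t ∈ Ioo 0 T, 0 ≤ g t)
    (hyp : ∀ t ∈ Ioo 0 T, ∀ x, (∀ y, ‖curl (u t) y‖ ≤ ‖curl (u t) x‖) →
      ⟪curl (u t) x, fderiv ℝ (u t) x (curl (u t) x)⟫
        ≤ g t * Φ ‖curl (u t) x‖ * ‖curl (u t) x‖ ^ 2)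
    {m0 : ℝ} (hm0 : 0 < m0) (h0 : ∀ y, ‖curl (u 0) y‖ ≤ m0) {t1 : ℝ} (ht1 : t1 ∈ Ico 0 T)
    (x1 : E3) (hx1 : m0 ≤ ‖curl (u t1) x1‖) :
    ∫ s in m0..‖curl (u t1) x1‖, 1 / (s * Φ s) ≤ ∫ s in (0 : ℝ)..t1, g s := by
  by_contra hcon
  rw [not_le] at hcon
  rcases eq_or_lt_of_le ht1.1 with h01 | h01
  · -- initial time
    subst h01
    have := le_antisymm (h0 x1) hx1
    rw [this] at hcon
    simp at hcon
  set G : ℝ → ℝ := fun m => ∫ s in m0..m, 1 / (s * Φ s) with hG
  have hGc : ContinuousOn (fun s => 1 / (s * Φ s)) (Ioi 0) := by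
    apply ContinuousOn.div continuousOn_const (continuousOn_id.mul hΦc)
    intro s hs
    exact (mul_pos hs (hΦpos s hs)).ne'
  have hGint : ∀ a b : ℝ, 0 < a → 0 < b → IntervalIntegrable (fun s => 1 / (s * Φ s)) volume a b := by
    intro a b ha hb
    apply ContinuousOn.intervalIntegrable
    apply hGc.mono
    intro s hs
    have := hs.1
    exact lt_of_lt_of_le (lt_min ha hb) this
  have hGderiv : ∀ m : ℝ, 0 < m → HasDerivAt G (1 / (m * Φ m)) m := by
    intro m hm
    apply intervalIntegral.integral_hasDerivAt_right (hGint m0 m hm0 hm)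
    · exact hGc.stronglyMeasurableAtFilter isOpen_Ioi m hm
    · exact hGc.continuousAt (Ioi_mem_nhds hm)
  have hGcont : ContinuousOn G (Ioi 0) := fun m hm => (hGderiv m hm).continuousAt.continuousWithinAt
  have hGmono : ∀ a b : ℝ, 0 < a → a ≤ b → G a ≤ G b := by
    intro a b ha hab
    have hb : 0 < b := lt_of_lt_of_le ha hab
    have e1 : G b - G a = ∫ s in a..b, 1 / (s * Φ s) :=
      intervalIntegral.integral_interval_sub_left (hGint m0 b hm0 hb) (hGint m0 a hm0 ha)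
    have e2 : 0 ≤ ∫ s in a..b, 1 / (s * Φ s) := by
      apply intervalIntegral.integral_nonneg hab
      intro s hs
      have : 0 < s := lt_of_lt_of_le ha hs.1
      have := mul_pos this (hΦpos s this)
      positivity
    linarith
  have hGm0 : G m0 = 0 := by simp [hG]
  set c : ℝ := (G ‖curl (u t1) x1‖ - ∫ s in (0 : ℝ)..t1, g s) / 2 with hc
  have hcpos : 0 < c := by
    have : (∫ s in (0 : ℝ)..t1, g s) < G ‖curl (u t1) x1‖ := hcon
    linarith
  -- lower semicontinuous majorant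
  have hgI : IntegrableOn g (Ioc 0 t1) := hg.mono_set (fun s hs => ⟨hs.1, hs.2.trans_lt ht1.2⟩)
  obtain ⟨hE, hE1, hE2, hE3, hE4, hE5⟩ :=
    exists_lt_lowerSemicontinuous_integral_lt (μ := volume.restrict (Ioc 0 t1)) g hgI hcpos
  set Hh : ℝ → ℝ := fun t => ∫ s in (0 : ℝ)..t, (hE s).toReal with hHh
  have hEI : IntegrableOn (fun s => (hE s).toReal) (Icc 0 t1) :=
    (integrableOn_Icc_iff_integrableOn_Ioc).mpr hE3
  have hHc : ContinuousOn Hh (Icc 0 t1) := by
    have := intervalIntegral.continuousOn_primitive_interval (μ := volume) (a := 0) (b := t1)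
      (f := fun s => (hE s).toReal) (by rwa [uIcc_of_le h01.le])
    rwa [uIcc_of_le h01.le] at this
  have hH0 : Hh 0 = 0 := by simp [hHh]
  have hHt1 : Hh t1 < (∫ s in (0 : ℝ)..t1, g s) + c := by
    simp only [hHh]
    rw [intervalIntegral.integral_of_le h01.le, intervalIntegral.integral_of_le h01.le]
    exact hE5
  have hEnn : ∀ s ∈ Ioc 0 t1, 0 ≤ (hE s).toReal := by
    intro s hs
    apply EReal.toReal_nonneg
    have h1 : (0 : EReal) ≤ (g s : EReal) := by
      exact_mod_cast hg0 s ⟨hs.1, hs.2.trans_lt ht1.2⟩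
    exact h1.trans (hE1 s).le
  have hHnn : ∀ t ∈ Icc 0 t1, 0 ≤ Hh t := by
    intro t ht
    apply intervalIntegral.integral_nonneg_of_ae_restrict ht.1
    have : ∀ᵐ s ∂(volume.restrict (Icc 0 t)), s ≠ 0 := by
      apply ae_restrict_of_ae
      exact (measure_eq_zero_iff_ae_notMem.mp (by simp : volume ({0} : Set ℝ) = 0)).mono
        (fun s hs => by simpa using hs)
    filter_upwards [this, ae_restrict_mem measurableSet_Icc] with s hs hs'
    exact hEnn s ⟨lt_of_le_of_ne hs'.1 (Ne.symm hs), hs'.2.trans ht.2⟩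
  -- the compact violation set
  set Kc : Set (ℝ × E3) := Icc 0 t1 ×ˢ closedBall (0 : E3) 13 with hKc
  have hKcc : IsCompact Kc := isCompact_Icc.prod (isCompact_closedBall 0 13)
  set f1 : ℝ × E3 → ℝ := fun z => ‖curl (u z.1) z.2‖ with hf1
  have hf1c : ContinuousOn f1 Kc :=
    ((h.cont_curl le_rfl ht1.2).norm).mono (prod_mono (Subset.refl _) (subset_univ _))
  set A : Set (ℝ × E3) := Kc ∩ f1 ⁻¹' (Ici m0) with hA
  have hAcl : IsClosed A := hf1c.preimage_isClosed_of_isClosed hKcc.isClosed isClosed_Ici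
  set f2 : ℝ × E3 → ℝ := fun z => G (f1 z) - Hh z.1 - c with hf2
  have hf2c : ContinuousOn f2 A := by
    have a1 : ContinuousOn (fun z => G (f1 z)) A :=
      hGcont.comp (hf1c.mono inter_subset_left) (fun z hz => lt_of_lt_of_le hm0 hz.2)
    have a2 : ContinuousOn (fun z : ℝ × E3 => Hh z.1) A :=
      hHc.comp continuousOn_fst (fun z hz => hz.1.1)
    exact (a1.sub a2).sub continuousOn_const
  set V : Set (ℝ × E3) := A ∩ f2 ⁻¹' (Ici 0) with hV
  have hVcl : IsClosed V := hf2c.preimage_isClosed_of_isClosed hAcl isClosed_Ici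
  have hVcomp : IsCompact V := hKcc.of_isClosed_subset hVcl (fun z hz => hz.1.1)
  -- membership criterion for arbitrary points
  have hmemV : ∀ t ∈ Icc 0 t1, ∀ x : E3, m0 ≤ ‖curl (u t) x‖ →
      Hh t + c ≤ G ‖curl (u t) x‖ → ∃ y, (t, y) ∈ V := by
    intro t ht x hx hx'
    obtain ⟨v, hv, hv'⟩ := exists_shift x
    have htT : t ∈ Ico 0 T := ⟨ht.1, ht.2.trans_lt ht1.2⟩
    have e1 : curl (u t) (x + v) = curl (u t) x := hv' E3 _ (h.per_curl htT) x
    refine ⟨x + v, ⟨⟨⟨ht, by simpa using hv⟩, ?_⟩, ?_⟩⟩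
    · change m0 ≤ ‖curl (u t) (x + v)‖
      rw [e1]; exact hx
    · change 0 ≤ G ‖curl (u t) (x + v)‖ - Hh t - c
      rw [e1]; linarith
  have hVne : V.Nonempty := by
    obtain ⟨y, hy⟩ := hmemV t1 ⟨h01.le, le_rfl⟩ x1 hx1 (by
      have : G ‖curl (u t1) x1‖ = (∫ s in (0 : ℝ)..t1, g s) + 2 * c := by rw [hc]; ring
      rw [this]
      linarith)
    exact ⟨_, hy⟩
  obtain ⟨⟨ts, xs⟩, hzV, hmin⟩ := hVcomp.exists_isMinOn hVne (continuousOn_fst)
  have htsI : ts ∈ Icc 0 t1 := hzV.1.1.1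
  have hxs1 : m0 ≤ ‖curl (u ts) xs‖ := hzV.1.2
  have hxs2 : 0 ≤ G ‖curl (u ts) xs‖ - Hh ts - c := hzV.2
  have hts0 : 0 < ts := by
    rcases eq_or_lt_of_le htsI.1 with h1 | h1
    · exfalso
      rw [← h1] at hxs1 hxs2
      have := le_antisymm (h0 xs) hxs1
      rw [this, hGm0, hH0] at hxs2
      linarith
    · exact h1
  have htsT : ts ∈ Ioo 0 T := ⟨hts0, htsI.2.trans_lt ht1.2⟩
  -- point of maximal vorticity
  obtain ⟨xm, hxmax⟩ := h.exists_argmax ⟨htsT.1.le, htsT.2⟩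
  set W : ℝ := ‖curl (u ts) xm‖ with hW
  have hWG : Hh ts + c ≤ G W := by
    have := hGmono _ _ (lt_of_lt_of_le hm0 hxs1) (hxmax xs)
    linarith
  have hHts := hHnn ts htsI
  have hWm0 : m0 < W := by
    rcases lt_or_eq_of_le (hxs1.trans (hxmax xs)) with h1 | h1
    · exact h1
    · exfalso
      rw [← h1, hGm0] at hWG
      linarith
  have hWpos : 0 < W := hm0.trans hWm0
  obtain ⟨X, hX0, hX, hXc⟩ := curl_along_local h htsT xm
  set ω : ℝ → E3 := fun s => curl (u s) (X s) with hω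
  have hωts : ω ts = curl (u ts) xm := by simp only [hω, hX0]
  set D : E3 := fderiv ℝ (u ts) xm (curl (u ts) xm) with hD
  have hnorm : HasDerivAt (fun s => ‖ω s‖) (⟪curl (u ts) xm, D⟫ / W) ts := by
    have h1 : HasDerivAt (fun s => ‖ω s‖ ^ 2) (2 * ⟪ω ts, D⟫) ts := hXc.norm_sq
    have h2 : ‖ω ts‖ ^ 2 ≠ 0 := by rw [hωts]; positivity
    have h3 := h1.sqrt h2
    have e1 : (fun s => √(‖ω s‖ ^ 2)) = fun s => ‖ω s‖ := by
      funext s
      exact Real.sqrt_sq (norm_nonneg _)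
    rw [e1, Real.sqrt_sq (norm_nonneg _), hωts] at h3
    convert h3 using 1
    rw [← hW]
    field_simp
  have hq : HasDerivAt (fun s => G ‖ω s‖) (1 / (W * Φ W) * (⟪curl (u ts) xm, D⟫ / W)) ts := by
    have h1 : HasDerivAt G (1 / (W * Φ W)) (‖ω ts‖) := by
      rw [hωts]
      exact hGderiv W hWpos
    exact h1.comp ts hnorm
  have hΦW := hΦpos W hWpos
  have hq' : 1 / (W * Φ W) * (⟪curl (u ts) xm, D⟫ / W) ≤ g ts := by
    have h1 := hyp ts htsT xm hxmax
    rw [← hW] at h1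
    have h2 : ⟪curl (u ts) xm, D⟫ / W ≤ g ts * Φ W * W := by
      rw [div_le_iff₀ hWpos]
      calc ⟪curl (u ts) xm, D⟫ ≤ g ts * Φ W * W ^ 2 := h1
        _ = g ts * Φ W * W * W := by ring
    calc 1 / (W * Φ W) * (⟪curl (u ts) xm, D⟫ / W) ≤ 1 / (W * Φ W) * (g ts * Φ W * W) :=
          mul_le_mul_of_nonneg_left h2 (by positivity)
      _ = g ts := by field_simp
  -- choose the real number between
  obtain ⟨r, hr1, hr2⟩ := EReal.lt_iff_exists_real_btwn.mp (hE1 ts)
  have hr1' : g ts < r := by exact_mod_cast hr1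
  have hlsc : ∀ᶠ s in 𝓝 ts, (r : EReal) < hE s := hE2 ts r hr2
  obtain ⟨δ, hδ, hball⟩ := Metric.eventually_nhds_iff_ball.mp hlsc
  have ev1 := eventually_above hq (hq'.trans_lt hr1')
  have ev2 : ∀ᶠ s in 𝓝[<] ts, m0 < ‖ω s‖ := by
    have : Tendsto (fun s => ‖ω s‖) (𝓝 ts) (𝓝 (‖ω ts‖)) := hnorm.continuousAt
    rw [hωts] at this
    exact nhdsWithin_le_nhds (this.eventually_const_lt hWm0)
  have ev3 : ∀ᶠ s in 𝓝[<] ts, s ∈ Ioo (max 0 (ts - δ)) ts :=
    Ioo_mem_nhdsLT (max_lt hts0 (by linarith))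
  obtain ⟨s, hs1, hs2, hs3⟩ := (ev1.and (ev2.and ev3)).exists
  have hs0 : 0 < s := (le_max_left _ _).trans_lt hs3.1
  have hsδ : ts - δ < s := (le_max_right _ _).trans_lt hs3.1
  have hsI : s ∈ Icc 0 t1 := ⟨hs0.le, hs3.2.le.trans htsI.2⟩
  -- lower bound on the increment of `Hh`
  have hinc : r * (ts - s) ≤ Hh ts - Hh s := by
    have i1 : IntervalIntegrable (fun s => (hE s).toReal) volume 0 ts := by
      rw [intervalIntegrable_iff_integrableOn_Icc_of_le htsI.1]
      exact hEI.mono_set (Icc_subset_Icc le_rfl htsI.2)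
    have i2 : IntervalIntegrable (fun s => (hE s).toReal) volume 0 s := by
      rw [intervalIntegrable_iff_integrableOn_Icc_of_le hsI.1]
      exact hEI.mono_set (Icc_subset_Icc le_rfl hsI.2)
    have i3 : IntegrableOn (fun s => (hE s).toReal) (Icc s ts) :=
      hEI.mono_set (Icc_subset_Icc hsI.1 htsI.2)
    have e1 : Hh ts - Hh s = ∫ y in s..ts, (hE y).toReal :=
      intervalIntegral.integral_interval_sub_left i1 i2
    rw [e1]
    have e2 : r * (ts - s) = ∫ _ in s..ts, r := by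
      rw [intervalIntegral.integral_const, smul_eq_mul]; ring
    rw [e2]
    apply intervalIntegral.integral_mono_ae_restrict hs3.2.le (by simp)
    · rw [intervalIntegrable_iff_integrableOn_Icc_of_le hs3.2.le]
      exact i3
    · have a1 : ∀ᵐ y ∂(volume.restrict (Icc s ts)), hE y < ⊤ := by
        have : Icc s ts ⊆ Ioc 0 t1 := fun y hy => ⟨hs0.trans_le hy.1, hy.2.trans htsI.2⟩
        exact ae_mono (Measure.restrict_mono this le_rfl) hE4
      filter_upwards [a1, ae_restrict_mem measurableSet_Icc] with y hy hy'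
      have hyb : (r : EReal) < hE y := by
        apply hball
        rw [Real.ball_eq_Ioo]
        constructor
        · linarith [hy'.1]
        · linarith [hy'.2]
      have h3 : (r : EReal) ≤ ((hE y).toReal : EReal) := by
        rw [EReal.coe_toReal hy.ne (ne_bot_of_gt hyb)]
        exact hyb.le
      exact_mod_cast h3
  have hωG : G ‖ω ts‖ = G W := by rw [hωts]
  obtain ⟨y, hyV⟩ := hmemV s hsI (X s) hs2.le (by
    change Hh s + c ≤ G ‖ω s‖
    have : G ‖ω ts‖ - G ‖ω s‖ < r * (ts - s) := hs1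
    rw [hωG] at this
    linarith)
  have := hmin hyV
  simp at this
  linarith [hs3.2]

end Pool.Agent.Work.MP_b0497c_an
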