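import Mathlib
import Pool.Agent.Work.MP_b0497c_an.MaxPrinciple

set_option autoImplicit false
set_option maxHeartbeats 1000000

namespace Pool.Agent.Work.MP_b0497c_an

open Set RealInnerProductSpace Metric MeasureTheory Filter Topology

variable {T : ℝ} {u : ℝ → E3 → E3} {p : ℝ → E3 → ℝ}

/-- The maximum of the vorticity at time `t`. -/
noncomputable def maxVort (u : ℝ → E3 → E3) (t : ℝ) : ℝ := ⨆ x, ‖curl (u t) x‖

theorem maxVort_eq {t : ℝ} {x : E3} (hx : ∀ y, ‖curl (u t) y‖ ≤ ‖curl (u t) x‖) :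
    maxVort u t = ‖curl (u t) x‖ := by
  apply le_antisymm
  · exact ciSup_le hx
  · exact le_ciSup (f := fun x => ‖curl (u t) x‖) ⟨_, by rintro _ ⟨y, rfl⟩; exact hx y⟩ x

theorem IsClassicalSolution.le_maxVort (h : IsClassicalSolution T u p) {t : ℝ}
    (ht : t ∈ Ico 0 T) (x : E3) : ‖curl (u t) x‖ ≤ maxVort u t := by
  obtain ⟨xm, hxm⟩ := h.exists_argmax ht
  rw [maxVort_eq hxm]
  exact hxm x

theorem Icc_sub_Ico {α β T : ℝ} (hα : 0 ≤ α) (hβ : β < T) : Icc α β ⊆ Ico 0 T :=
  fun _ ht => ⟨hα.trans ht.1, ht.2.trans_lt hβ⟩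

/-- The vorticity bound on a compact time interval. -/
theorem IsClassicalSolution.bound_curl (h : IsClassicalSolution T u p) {α β : ℝ} (hα : 0 ≤ α)
    (hβ : β < T) : ∃ W : ℝ, 0 ≤ W ∧ ∀ t ∈ Icc α β, ∀ x, ‖curl (u t) x‖ ≤ W :=
  exists_bound (G := fun t x => curl (u t) x) (h.cont_curl hα hβ)
    (fun _ ht => h.per_curl (Icc_sub_Ico hα hβ ht))

theorem IsClassicalSolution.cont_maxVort (h : IsClassicalSolution T u p) {β : ℝ} (hβ : β < T) :
    ContinuousOn (maxVort u) (Icc 0 β) := by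
  rw [Metric.continuousOn_iff]
  intro t ht ε hε
  obtain ⟨δ, hδ, hδ'⟩ := unif_cont (G := fun t x => curl (u t) x) (h.cont_curl le_rfl hβ)
    (fun _ ht => h.per_curl (Icc_sub_Ico le_rfl hβ ht)) (ε / 2) (by positivity)
  refine ⟨δ, hδ, ?_⟩
  have key : ∀ s ∈ Icc 0 β, ∀ t ∈ Icc 0 β, |s - t| < δ → maxVort u s ≤ maxVort u t + ε / 2 := by
    intro s hs t ht hst
    obtain ⟨xm, hxm⟩ := h.exists_argmax (Icc_sub_Ico le_rfl hβ hs)
    rw [maxVort_eq hxm]
    have h1 := hδ' s hs t ht xm xm hst (by simpa using hδ)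
    have h2 := h.le_maxVort (Icc_sub_Ico le_rfl hβ ht) xm
    have h3 : ‖curl (u s) xm‖ ≤ ‖curl (u t) xm‖ + ‖curl (u s) xm - curl (u t) xm‖ := by
      have : curl (u s) xm = curl (u t) xm + (curl (u s) xm - curl (u t) xm) := by abel
      calc ‖curl (u s) xm‖ = ‖curl (u t) xm + (curl (u s) xm - curl (u t) xm)‖ := by
            rw [← this]
        _ ≤ _ := norm_add_le _ _
    linarith
  intro s hs hst
  rw [Real.dist_eq] at hst ⊢
  have h1 := key s hs t ht hst
  have h2 := key t ht s hs (by rwa [abs_sub_comm])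
  rw [abs_lt]
  constructor <;> linarith

/-- The maximum of the vorticity is locally Lipschitz in time. -/
theorem IsClassicalSolution.lip_maxVort (h : IsClassicalSolution T u p) {α β : ℝ} (hα : 0 < α)
    (hβ : β < T) : ∃ K : ℝ, 0 ≤ K ∧ ∀ s ∈ Icc α β, ∀ t ∈ Icc α β,
      maxVort u t - maxVort u s ≤ K * |t - s| := by
  rcases lt_or_ge β α with hlt | hle
  · refine ⟨0, le_rfl, fun s hs => ?_⟩
    exact absurd (hs.1.trans hs.2) (not_le.mpr hlt)
  set α' : ℝ := α / 2 with hα'
  set β' : ℝ := (β + T) / 2 with hβ'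
  have h1 : 0 ≤ α' := by positivity
  have h2 : β' < T := by rw [hβ']; linarith
  have hsub : Icc α β ⊆ Ioo α' β' := fun s hs =>
    ⟨by rw [hα']; linarith [hs.1], by rw [hβ']; linarith [hs.2]⟩
  obtain ⟨K, hK0, hK⟩ := h.bound_M h1 h2
  obtain ⟨W, hW0, hW⟩ := h.bound_curl h1 h2
  refine ⟨K * W, mul_nonneg hK0 hW0, ?_⟩
  intro s hs t ht
  have htT : t ∈ Ico 0 T := ⟨hα.le.trans ht.1, ht.2.trans_lt hβ⟩
  have hsT : s ∈ Ico 0 T := ⟨hα.le.trans hs.1, hs.2.trans_lt hβ⟩
  obtain ⟨xm, hxm⟩ := h.exists_argmax htT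
  obtain ⟨Φ, hΦ, -⟩ := h.exists_flow h1 h2 (Ioo_subset_Icc_self (hsub ht)) xm
  obtain ⟨hX0, hX⟩ := hΦ xm (by simp)
  set X : ℝ → E3 := Φ xm with hXdef
  have hX' : ∀ r ∈ Ioo α' β', HasDerivAt X (u r (X r)) r := fun r hr =>
    (hX r (Ioo_subset_Icc_self hr)).hasDerivAt (Icc_mem_nhds hr.1 hr.2)
  have hab : Ioo α' β' ⊆ Ioo 0 T := fun r hr =>
    ⟨(by positivity : (0:ℝ) < α').trans hr.1, hr.2.trans h2⟩
  have hc : ∀ r ∈ Icc α β, HasDerivWithinAt (fun s => curl (u s) (X s))
      (fderiv ℝ (u r) (X r) (curl (u r) (X r))) (Icc α β) r := fun r hr =>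
    (curl_along h hab hX' (hsub hr)).hasDerivWithinAt
  have hbd : ∀ r ∈ Icc α β, ‖fderiv ℝ (u r) (X r) (curl (u r) (X r))‖ ≤ K * W := by
    intro r hr
    have hr' := Ioo_subset_Icc_self (hsub hr)
    exact (ContinuousLinearMap.le_opNorm _ _).trans
      (mul_le_mul (hK r hr' _) (hW r hr' _) (norm_nonneg _) hK0)
  have := (convex_Icc α β).norm_image_sub_le_of_norm_hasDerivWithin_le hc hbd hs ht
  rw [maxVort_eq hxm]
  have h3 := h.le_maxVort hsT (X s)
  have h4 : ‖curl (u t) (X t)‖ - ‖curl (u s) (X s)‖ ≤ ‖curl (u t) (X t) - curl (u s) (X s)‖ :=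
    norm_sub_norm_le _ _
  rw [hX0] at h4 this
  rw [Real.norm_eq_abs] at this
  linarith

/-- At a time of differentiability of the maximum of the vorticity, the stretching rate is the
same at all the points of maximum. -/
theorem IsClassicalSolution.deriv_maxVort (h : IsClassicalSolution T u p) {t : ℝ}
    (ht : t ∈ Ioo 0 T) {x : E3} (hx : ∀ y, ‖curl (u t) y‖ ≤ ‖curl (u t) x‖)
    (hpos : 0 < ‖curl (u t) x‖) {m' : ℝ} (hd : HasDerivAt (maxVort u) m' t) :
    m' = ⟪curl (u t) x, fderiv ℝ (u t) x (curl (u t) x)⟫ / ‖curl (u t) x‖ := by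
  obtain ⟨X, hX0, hX, hXc⟩ := curl_along_local h ht x
  set ω : ℝ → E3 := fun s => curl (u s) (X s) with hω
  have hωts : ω t = curl (u t) x := by simp only [hω, hX0]
  set D : E3 := fderiv ℝ (u t) x (curl (u t) x) with hD
  set W : ℝ := ‖curl (u t) x‖ with hW
  have hnorm : HasDerivAt (fun s => ‖ω s‖) (⟪curl (u t) x, D⟫ / W) t := by
    have h1 : HasDerivAt (fun s => ‖ω s‖ ^ 2) (2 * ⟪ω t, D⟫) t := hXc.norm_sq
    have h2 : ‖ω t‖ ^ 2 ≠ 0 := by rw [hωts]; positivity
    have h3 := h1.sqrt h2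
    have e1 : (fun s => √(‖ω s‖ ^ 2)) = fun s => ‖ω s‖ := by
      funext s
      exact Real.sqrt_sq (norm_nonneg _)
    rw [e1, Real.sqrt_sq (norm_nonneg _), hωts] at h3
    convert h3 using 1
    rw [← hW]
    field_simp
  have hsub := hd.sub hnorm
  have hmin : IsLocalMin (fun s => maxVort u s - ‖ω s‖) t := by
    filter_upwards [Ioo_mem_nhds ht.1 ht.2] with s hs
    have h1 := h.le_maxVort ⟨hs.1.le, hs.2⟩ (X s)
    have h2 : maxVort u t - ‖ω t‖ = 0 := by rw [hωts, maxVort_eq hx, sub_self]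
    rw [h2]
    change 0 ≤ maxVort u s - ‖curl (u s) (X s)‖
    linarith
  have := hmin.hasDerivAt_eq_zero hsub
  linarith

theorem vorticity_max_principle_ae (h : IsClassicalSolution T u p) {Φ g : ℝ → ℝ}
    (hΦc : ContinuousOn Φ (Ioi 0)) (hΦpos : ∀ s, 0 < s → 0 < Φ s)
    (hg : IntegrableOn g (Ioo 0 T)) (hg0 : ∀ᵐ t, t ∈ Ioo 0 T → 0 ≤ g t)
    (hyp : ∀ᵐ t, t ∈ Ioo 0 T → ∃ x, (∀ y, ‖curl (u t) y‖ ≤ ‖curl (u t) x‖) ∧
      ⟪curl (u t) x, fderiv ℝ (u t) x (curl (u t) x)⟫
        ≤ g t * Φ ‖curl (u t) x‖ * ‖curl (u t) x‖ ^ 2)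
    {m0 : ℝ} (hm0 : 0 < m0) (h0 : ∀ y, ‖curl (u 0) y‖ ≤ m0) {t1 : ℝ} (ht1 : t1 ∈ Ico 0 T)
    (x1 : E3) (hx1 : m0 ≤ ‖curl (u t1) x1‖) :
    ∫ s in m0..‖curl (u t1) x1‖, 1 / (s * Φ s) ≤ ∫ s in (0 : ℝ)..t1, g s := by
  rcases eq_or_lt_of_le ht1.1 with h01 | h01
  · -- initial time
    subst h01
    have := le_antisymm (h0 x1) hx1
    rw [this]
    simp
  set G : ℝ → ℝ := fun m => ∫ s in m0..m, 1 / (s * Φ s) with hG
  have hGc : ContinuousOn (fun s => 1 / (s * Φ s)) (Ioi 0) := by
    apply ContinuousOn.div continuousOn_const (continuousOn_id.mul hΦc)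
    intro s hs
    exact (mul_pos hs (hΦpos s hs)).ne'
  have hGint : ∀ a b : ℝ, 0 < a → 0 < b → IntervalIntegrable (fun s => 1 / (s * Φ s)) volume a b := by
    intro a b ha hb
    apply ContinuousOn.intervalIntegrable
    apply hGc.mono
    intro s hs
    have := hs.1
    exact lt_of_lt_of_le (lt_min ha hb) this
  have hGderiv : ∀ m : ℝ, 0 < m → HasDerivAt G (1 / (m * Φ m)) m := by
    intro m hm
    apply intervalIntegral.integral_hasDerivAt_right (hGint m0 m hm0 hm)
    · exact hGc.stronglyMeasurableAtFilter isOpen_Ioi m hm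
    · exact hGc.continuousAt (Ioi_mem_nhds hm)
  have hGcont : ContinuousOn G (Ioi 0) := fun m hm => (hGderiv m hm).continuousAt.continuousWithinAt
  have hGmono : ∀ a b : ℝ, 0 < a → a ≤ b → G a ≤ G b := by
    intro a b ha hab
    have hb : 0 < b := lt_of_lt_of_le ha hab
    have e1 : G b - G a = ∫ s in a..b, 1 / (s * Φ s) :=
      intervalIntegral.integral_interval_sub_left (hGint m0 b hm0 hb) (hGint m0 a hm0 ha)
    have e2 : 0 ≤ ∫ s in a..b, 1 / (s * Φ s) := by
      apply intervalIntegral.integral_nonneg hab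
      intro s hs
      have : 0 < s := lt_of_lt_of_le ha hs.1
      have := mul_pos this (hΦpos s this)
      positivity
    linarith
  have hGm0 : G m0 = 0 := by simp [hG]
  -- the function q
  set N : ℝ → ℝ := fun t => max (maxVort u t) m0 with hN
  have hNm0 : ∀ t, m0 ≤ N t := fun t => le_max_right _ _
  have hNpos : ∀ t, 0 < N t := fun t => hm0.trans_le (hNm0 t)
  set q : ℝ → ℝ := fun t => G (N t) with hq
  have hqnn : ∀ t, 0 ≤ q t := by
    intro t
    have := hGmono m0 (N t) hm0 (hNm0 t)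
    rwa [hGm0] at this
  have hqc : ContinuousOn q (Icc 0 t1) := by
    have h1 : ContinuousOn N (Icc 0 t1) := (h.cont_maxVort ht1.2).sup continuousOn_const
    exact hGcont.comp h1 (fun t _ => hNpos t)
  have hq0 : q 0 = 0 := by
    obtain ⟨xm, hxm⟩ := h.exists_argmax (t := 0) ⟨le_rfl, h01.trans ht1.2⟩
    have : N 0 = m0 := by
      simp only [hN]
      rw [maxVort_eq hxm]
      exact max_eq_right (h0 xm)
    simp only [hq]
    rw [this, hGm0]
  -- the main estimate away from zero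
  have key : ∀ ε ∈ Ioo 0 t1, q t1 - q ε ≤ ∫ s in (0 : ℝ)..t1, g s := by
    intro ε hε
    obtain ⟨K, hK0, hK⟩ := h.lip_maxVort hε.1 ht1.2
    obtain ⟨W, hW0, hW⟩ := h.bound_curl (le_refl (0:ℝ)) ht1.2
    -- bound of the integrand on [m0, max W m0]
    obtain ⟨B, hB⟩ := (isCompact_Icc (a := m0) (b := max W m0)).exists_bound_of_continuousOn
      (f := fun s => 1 / (s * Φ s)) (hGc.mono (fun s hs => hm0.trans_le hs.1))
    have hNW : ∀ t ∈ Icc 0 t1, N t ∈ Icc m0 (max W m0) := by
      intro t ht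
      obtain ⟨xm, hxm⟩ := h.exists_argmax (Icc_sub_Ico le_rfl ht1.2 ht)
      refine ⟨hNm0 t, ?_⟩
      simp only [hN]
      rw [maxVort_eq hxm]
      exact max_le_max (hW t ht xm) le_rfl
    have hB0 : 0 ≤ B := (norm_nonneg _).trans (hB m0 ⟨le_rfl, le_max_right _ _⟩)
    have hGlip : ∀ a ∈ Icc m0 (max W m0), ∀ b ∈ Icc m0 (max W m0), |G b - G a| ≤ B * |b - a| := by
      intro a ha b hb
      have := (convex_Icc m0 (max W m0)).norm_image_sub_le_of_norm_hasDerivWithin_le
        (f := G) (f' := fun m => 1 / (m * Φ m)) (C := B)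
        (fun m hm => (hGderiv m (hm0.trans_le hm.1)).hasDerivWithinAt)
        (fun m hm => hB m hm) ha hb
      simpa [Real.norm_eq_abs] using this
    have hNlip : ∀ s ∈ Icc ε t1, ∀ t ∈ Icc ε t1, |N t - N s| ≤ K * |t - s| := by
      intro s hs t ht
      have h1 : |maxVort u t - maxVort u s| ≤ K * |t - s| := by
        rw [abs_le]
        have := hK s hs t ht
        have h2 := hK t ht s hs
        rw [abs_sub_comm] at h2
        constructor <;> linarith
      exact (abs_max_sub_max_le_abs _ _ _).trans h1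
    have hIcc : Icc ε t1 ⊆ Icc 0 t1 := Icc_subset_Icc hε.1.le le_rfl
    have hqlip : LipschitzOnWith ⟨B * K, mul_nonneg hB0 hK0⟩ q (uIcc ε t1) := by
      rw [uIcc_of_le hε.2.le]
      apply LipschitzOnWith.of_dist_le_mul
      intro s hs t ht
      rw [Real.dist_eq, Real.dist_eq]
      calc |q s - q t| ≤ B * |N s - N t| := hGlip _ (hNW t (hIcc ht)) _ (hNW s (hIcc hs))
        _ ≤ B * (K * |s - t|) := by gcongr; exact hNlip t ht s hs
        _ = B * K * |s - t| := by ring
    have hMlip : LipschitzOnWith ⟨K, hK0⟩ (maxVort u) (uIcc ε t1) := by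
      rw [uIcc_of_le hε.2.le]
      apply LipschitzOnWith.of_dist_le_mul
      intro s hs t ht
      rw [Real.dist_eq, Real.dist_eq]
      change |maxVort u s - maxVort u t| ≤ K * |s - t|
      rw [abs_le]
      have := hK t ht s hs
      have h2 := hK s hs t ht
      rw [abs_sub_comm] at h2
      constructor <;> linarith
    have hqac := hqlip.absolutelyContinuousOnInterval
    have hMac := hMlip.absolutelyContinuousOnInterval
    rw [← hqac.integral_deriv_eq_sub]
    have hgI : IntervalIntegrable g volume ε t1 := by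
      rw [intervalIntegrable_iff_integrableOn_Ioc_of_le hε.2.le]
      exact hg.mono_set (fun s hs => ⟨hε.1.trans hs.1, hs.2.trans_lt ht1.2⟩)
    have hgI0 : IntervalIntegrable g volume 0 t1 := by
      rw [intervalIntegrable_iff_integrableOn_Ioc_of_le h01.le]
      exact hg.mono_set (fun s hs => ⟨hs.1, hs.2.trans_lt ht1.2⟩)
    have hgI1 : IntervalIntegrable g volume 0 ε := by
      rw [intervalIntegrable_iff_integrableOn_Ioc_of_le hε.1.le]
      exact hg.mono_set (fun s hs => ⟨hs.1, (hs.2.trans hε.2.le).trans_lt ht1.2⟩)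
    have hle1 : ∫ s in ε..t1, deriv q s ≤ ∫ s in ε..t1, g s := by
      apply intervalIntegral.integral_mono_ae_restrict hε.2.le hqac.intervalIntegrable_deriv hgI
      have hd1 := hqac.ae_differentiableAt
      have hd2 := hMac.ae_differentiableAt
      rw [EventuallyLE, ae_restrict_iff' measurableSet_Icc]
      have hne : ∀ᵐ s : ℝ, s ≠ ε ∧ s ≠ t1 := by
        have a1 : ∀ᵐ s : ℝ, s ≠ ε :=
          (measure_eq_zero_iff_ae_notMem.mp (by simp : volume ({ε} : Set ℝ) = 0)).mono
            (fun s hs => by simpa using hs)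
        have a2 : ∀ᵐ s : ℝ, s ≠ t1 :=
          (measure_eq_zero_iff_ae_notMem.mp (by simp : volume ({t1} : Set ℝ) = 0)).mono
            (fun s hs => by simpa using hs)
        exact a1.and a2
      filter_upwards [hd1, hd2, hyp, hg0, hne] with s hs1 hs2 hs3 hs4 hs5 hs
      have hsT : s ∈ Ioo 0 T := ⟨hε.1.trans_le hs.1, hs.2.trans_lt ht1.2⟩
      have hsu : s ∈ uIcc ε t1 := by rw [uIcc_of_le hε.2.le]; exact hs
      have hdq := hs1 hsu
      have hdM := hs2 hsu
      have hgs := hs4 hsT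
      obtain ⟨x, hx, hxs⟩ := hs3 hsT
      have hMx := maxVort_eq hx
      have hcM : ContinuousAt (maxVort u) s := hdM.continuousAt
      rcases lt_trichotomy (maxVort u s) m0 with hlt | heq | hgt
      · -- below the threshold, q vanishes near s
        have : q =ᶠ[𝓝 s] fun _ => 0 := by
          filter_upwards [hcM.eventually_lt_const hlt] with r hr
          simp only [hq, hN]
          rw [max_eq_right hr.le, hGm0]
        rw [this.deriv_eq]
        simpa using hgs
      · -- at the threshold, q has a minimum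
        have hqs : q s = 0 := by
          simp only [hq, hN]
          rw [heq, max_self, hGm0]
        have hmin : IsLocalMin q s := by
          filter_upwards with r
          rw [hqs]
          exact hqnn r
        rw [hmin.deriv_eq_zero]
        exact hgs
      · have hpos : 0 < maxVort u s := hm0.trans hgt
        have : q =ᶠ[𝓝 s] fun r => G (maxVort u r) := by
          filter_upwards [hcM.eventually_const_lt hgt] with r hr
          simp only [hq, hN]
          rw [max_eq_left hr.le]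
        rw [this.deriv_eq]
        have h1 := hdM.hasDerivAt
        have h2 : HasDerivAt (fun r => G (maxVort u r))
            (1 / (maxVort u s * Φ (maxVort u s)) * deriv (maxVort u) s) s :=
          (hGderiv _ hpos).comp s h1
        rw [h2.deriv]
        have h3 := h.deriv_maxVort hsT hx (by rw [← hMx]; exact hpos) h1
        rw [h3, hMx]
        rw [hMx] at hpos
        set W' : ℝ := ‖curl (u s) x‖ with hW'
        have hΦW := hΦpos W' hpos
        have h4 : ⟪curl (u s) x, fderiv ℝ (u s) x (curl (u s) x)⟫ / W' ≤ g s * Φ W' * W' := by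
          rw [div_le_iff₀ hpos]
          calc ⟪curl (u s) x, fderiv ℝ (u s) x (curl (u s) x)⟫ ≤ g s * Φ W' * W' ^ 2 := hxs
            _ = g s * Φ W' * W' * W' := by ring
        calc 1 / (W' * Φ W') * (⟪curl (u s) x, fderiv ℝ (u s) x (curl (u s) x)⟫ / W')
            ≤ 1 / (W' * Φ W') * (g s * Φ W' * W') :=
              mul_le_mul_of_nonneg_left h4 (by positivity)
          _ = g s := by field_simp
    have hle2 : ∫ s in ε..t1, g s ≤ ∫ s in (0 : ℝ)..t1, g s := by
      rw [← intervalIntegral.integral_add_adjacent_intervals hgI1 hgI]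
      have : 0 ≤ ∫ s in (0 : ℝ)..ε, g s := by
        apply intervalIntegral.integral_nonneg_of_ae_restrict hε.1.le
        rw [EventuallyLE, ae_restrict_iff' measurableSet_Icc]
        have a1 : ∀ᵐ s : ℝ, s ≠ 0 :=
          (measure_eq_zero_iff_ae_notMem.mp (by simp : volume ({0} : Set ℝ) = 0)).mono
            (fun s hs => by simpa using hs)
        filter_upwards [hg0, a1] with s hs hs1 hs2
        exact hs ⟨lt_of_le_of_ne hs2.1 (Ne.symm hs1), (hs2.2.trans hε.2.le).trans_lt ht1.2⟩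
      linarith
    exact hle1.trans hle2
  -- let ε tend to zero
  have hlim : Tendsto (fun ε => q t1 - q ε) (𝓝[>] 0) (𝓝 (q t1 - q 0)) := by
    have h1 : Tendsto q (𝓝[Icc 0 t1] 0) (𝓝 (q 0)) := hqc 0 ⟨le_rfl, h01.le⟩
    have h2 : 𝓝[>] (0:ℝ) ≤ 𝓝[Icc 0 t1] 0 := by
      rw [← nhdsWithin_Ioo_eq_nhdsGT h01]
      exact nhdsWithin_mono _ Ioo_subset_Icc_self
    exact tendsto_const_nhds.sub (h1.mono_left h2)
  have hfin : q t1 - q 0 ≤ ∫ s in (0 : ℝ)..t1, g s := by
    apply le_of_tendsto hlim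
    filter_upwards [Ioo_mem_nhdsGT h01] with ε hε
    exact key ε hε
  rw [hq0, sub_zero] at hfin
  have hlast : G ‖curl (u t1) x1‖ ≤ q t1 := by
    apply hGmono _ _ (hm0.trans_le hx1)
    exact (h.le_maxVort ht1 x1).trans (le_max_left _ _)
  exact hlast.trans hfin

end Pool.Agent.Work.MP_b0497c_an
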