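import Mathlib
import Pool.Agent.Work.MP_b0497c_an.Osgood
import Pool.Agent.Work.MP_b0497c_an.Energy
import Pool.Agent.Work.MP_b0497c_an.LocalStretch

set_option autoImplicit false
set_option maxHeartbeats 400000

namespace Pool.Agent.Work.MP_b0497c_an.AxisShellsResult

open Set MeasureTheory Filter Topology RealInnerProductSpace Metric
open Pool.Agent.Work.MP_b0497c_an (IsClassicalSolution curl det3)

theorem arith1 {X G W C N S r : ℝ} (hG : 0 ≤ G) (hW : 0 ≤ W) (hC : 0 ≤ C) (hS : 0 ≤ S)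
    (h1 : X ≤ 4 * (G * W) + C * W * r * N) (h2 : r * N ≤ G) :
    X ≤ (4 + C * (1 + S)) * (G * W) := by
  have h3 : C * W * (r * N) ≤ C * W * G := mul_le_mul_of_nonneg_left h2 (mul_nonneg hC hW)
  have h4 : 0 ≤ C * S * (G * W) := mul_nonneg (mul_nonneg hC hS) (mul_nonneg hG hW)
  nlinarith

theorem arith2 {X G W C N S r : ℝ} (hG : 0 ≤ G) (hW : 0 ≤ W) (hC : 0 ≤ C) (hr : 0 ≤ r)
    (hS : 0 ≤ S)
    (h1 : X ≤ 4 * (G * W) + C * W * r * N) (h2 : r ≤ G) (h3 : N ≤ S) :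
    X ≤ (4 + C * (1 + S)) * (G * W) := by
  have h4 : r * N ≤ G * S := by
    calc r * N ≤ r * S := mul_le_mul_of_nonneg_left h3 hr
      _ ≤ G * S := mul_le_mul_of_nonneg_right h2 hS
  have h5 : C * W * (r * N) ≤ C * W * (G * S) :=
    mul_le_mul_of_nonneg_left h4 (mul_nonneg hC hW)
  have h6 : 0 ≤ C * (G * W) := mul_nonneg hC (mul_nonneg hG hW)
  nlinarith

/-- Local one-sided geometric criterion centred at one point of maximal vorticity. -/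
theorem result (T : ℝ) (u : ℝ → EuclideanSpace ℝ (Fin 3) → EuclideanSpace ℝ (Fin 3))
    (p : ℝ → EuclideanSpace ℝ (Fin 3) → ℝ) (h : IsClassicalSolution T u p)
    (Φ : ℝ → ℝ) (hΦc : ContinuousOn Φ (Ioi 0)) (hΦpos : ∀ s, 0 < s → 0 < Φ s)
    (hΦ : Tendsto (fun R : ℝ => ∫ s in (1 : ℝ)..R, 1 / (s * Φ s)) atTop atTop)
    (g : ℝ → ℝ) (hg : IntegrableOn g (Ioo 0 T)) (hg0 : ∀ᵐ t, t ∈ Ioo 0 T → 0 ≤ g t)
    (hyp : ∀ᵐ t, t ∈ Ioo 0 T → ∃ x, (∀ y, ‖curl (u t) y‖ ≤ ‖curl (u t) x‖) ∧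
      ∃ ρ ∈ Ioc (0 : ℝ) 1, ∃ c : EuclideanSpace ℝ (Fin 3),
        ρ ^ (-(5 / 2) : ℝ) * min 1 √(∫ y in closedBall (0 : EuclideanSpace ℝ (Fin 3)) ρ,
          ‖u t (x + y) - c‖ ^ 2) ≤ g t * Φ ‖curl (u t) x‖ ∧
        ∀ ε r : ℝ, 0 < ε → ε < r → r ≤ ρ →
          ∫ y in {y : EuclideanSpace ℝ (Fin 3) | ε < ‖y‖ ∧ ‖y‖ ≤ r},
            ⟪y, curl (u t) x⟫ * det3 y (curl (u t) (x + y)) (curl (u t) x) / ‖y‖ ^ 5
              ≤ g t * Φ ‖curl (u t) x‖ * ‖curl (u t) x‖ ^ 2) :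
    ∃ B : ℝ, ∀ t ∈ Ico 0 T, ∀ x, ‖curl (u t) x‖ ≤ B := by
  obtain ⟨C, hC, hC'⟩ := Pool.Agent.Work.MP_b0497c_an.local_stretch
  set E : ℝ := ∫ x in Pool.Agent.Work.MP_b0497c_an.Qb, ‖u 0 x‖ ^ 2 with hE
  set J : ℝ := Pool.Agent.Work.MP_b0497c_an.Jc with hJ
  have hJ0 : 0 < J := Pool.Agent.Work.MP_b0497c_an.Jc_pos
  set A : ℝ := (4 + C * (1 + √E)) / J with hA
  have hA0 : 0 < A := by positivity
  apply Pool.Agent.Work.MP_b0497c_an.bounded_of_stretching h hΦc hΦpos hΦ (hg.const_mul A)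
  · filter_upwards [hg0] with t h0 ht
    have := h0 ht
    positivity
  · filter_upwards [hyp, hg0] with t hyp hg0 ht
    obtain ⟨x, hx, ρ, hρ, c, hfar, hnear⟩ := hyp ht
    refine ⟨x, hx, ?_⟩
    have ht' : t ∈ Ico 0 T := ⟨ht.1.le, ht.2⟩
    have hgt := hg0 ht
    set w : EuclideanSpace ℝ (Fin 3) := curl (u t) x with hw
    rcases eq_or_ne w 0 with h0 | h0
    · rw [h0]; simp
    have hwpos : 0 < ‖w‖ := norm_pos_iff.mpr h0
    have hΦw := hΦpos _ hwpos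
    set v : EuclideanSpace ℝ (Fin 3) → EuclideanSpace ℝ (Fin 3) := fun y => u t (x + y) with hv
    have hut := h.contDiff_space ht'
    have hvc : ContDiff ℝ 1 v := hut.comp (contDiff_const.add contDiff_id)
    have hvd : ∀ y, fderiv ℝ v y = fderiv ℝ (u t) (x + y) := fun y => fderiv_comp_add_left x
    have hvdiv : ∀ y, LinearMap.trace ℝ (EuclideanSpace ℝ (Fin 3)) (fderiv ℝ v y) = 0 := by
      intro y
      rw [hvd]
      exact h.div_free t ht' (x + y)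
    have hvcurl : ∀ y, curl v y = curl (u t) (x + y) := by
      intro y
      unfold curl
      rw [hvd]
    have hK : ∀ ε r : ℝ, 0 < ε → ε < r → r ≤ ρ →
        ∫ y in {y : EuclideanSpace ℝ (Fin 3) | ε < ‖y‖ ∧ ‖y‖ ≤ r},
          ⟪y, w⟫ * det3 y (curl v y) w / ‖y‖ ^ 5 ≤ g t * Φ ‖w‖ * ‖w‖ ^ 2 := by
      intro ε r hε hεr hr
      simp only [hvcurl]
      exact hnear ε r hε hεr hr
    have key : ∀ c', J * ⟪w, fderiv ℝ (u t) x w⟫ ≤ 4 * (g t * Φ ‖w‖ * ‖w‖ ^ 2)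
        + C * ‖w‖ ^ 2 * ρ ^ (-(5 / 2) : ℝ)
          * √(∫ y in closedBall (0 : EuclideanSpace ℝ (Fin 3)) ρ, ‖v y - c'‖ ^ 2) := by
      intro c'
      have := hC' v hvc hvdiv w c' ρ _ hρ.1 hK
      rw [hvd, add_zero] at this
      exact this
    have hρp : 0 < ρ ^ (-(5 / 2) : ℝ) := Real.rpow_pos_of_pos hρ.1 _
    have hgΦ : 0 ≤ g t * Φ ‖w‖ := mul_nonneg hgt hΦw.le
    have hfin : J * ⟪w, fderiv ℝ (u t) x w⟫
        ≤ (4 + C * (1 + √E)) * (g t * Φ ‖w‖ * ‖w‖ ^ 2) := by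
      set N : ℝ := √(∫ y in closedBall (0 : EuclideanSpace ℝ (Fin 3)) ρ, ‖v y - c‖ ^ 2) with hN
      have hfar' : ρ ^ (-(5 / 2) : ℝ) * min 1 N ≤ g t * Φ ‖w‖ := hfar
      rcases le_or_gt N 1 with hN1 | hN1
      · rw [min_eq_right hN1] at hfar'
        exact arith1 hgΦ (sq_nonneg _) hC.le (Real.sqrt_nonneg _) (key c) hfar'
      · rw [min_eq_left hN1.le, mul_one] at hfar'
        have hloc := h.local_energy ht' x hρ.2
        have h1 := key 0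
        simp only [sub_zero] at h1
        have h2 : √(∫ y in closedBall (0 : EuclideanSpace ℝ (Fin 3)) ρ, ‖v y‖ ^ 2) ≤ √E :=
          Real.sqrt_le_sqrt hloc
        exact arith2 hgΦ (sq_nonneg _) hC.le hρp.le (Real.sqrt_nonneg _) h1 hfar' h2
    have hA' : A * g t * Φ ‖w‖ * ‖w‖ ^ 2
        = (4 + C * (1 + √E)) * (g t * Φ ‖w‖ * ‖w‖ ^ 2) / J := by
      rw [hA]; ring
    rw [hA', le_div_iff₀ hJ0, mul_comm]
    exact hfin

end Pool.Agent.Work.MP_b0497c_an.AxisShellsResult
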