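import Mathlib

set_option autoImplicit false

/-!
Definitions for the strain criteria (Euler equations).
-/

namespace Pool.Agent.Work.MP_b0497c_an

open Set RealInnerProductSpace

/-- The rate of strain in the direction `n`: `⟨grad u(t,x) n, n⟩`. -/
noncomputable def strain (u : ℝ → EuclideanSpace ℝ (Fin 3) → EuclideanSpace ℝ (Fin 3)) (t : ℝ)
    (x n : EuclideanSpace ℝ (Fin 3)) : ℝ := ⟪fderiv ℝ (u t) x n, n⟫

/-- The Hessian of the pressure as a quadratic form: `⟨D²p(t,x) n, n⟩`. -/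
noncomputable def hessP (p : ℝ → EuclideanSpace ℝ (Fin 3) → ℝ) (t : ℝ)
    (x n : EuclideanSpace ℝ (Fin 3)) : ℝ := ⟪fderiv ℝ (gradient (p t)) x n, n⟫

/-- The pressure has a Hessian `D²p(t,x)` which is continuous in `(t,x)` on `[0, T) × ℝ³`. -/
structure HasHessian (T : ℝ) (p : ℝ → EuclideanSpace ℝ (Fin 3) → ℝ) : Prop where
  diff : ∀ t ∈ Ico 0 T, Differentiable ℝ (gradient (p t))
  cont : ContinuousOn (fun z : ℝ × EuclideanSpace ℝ (Fin 3) =>
    fderiv ℝ (gradient (p z.1)) z.2) (Ico 0 T ×ˢ univ)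

/-- `n` is a unit vector and the rate of strain in the direction `n` at `x` is the smallest one
over all points and all unit vectors. -/
def MostCompressed (u : ℝ → EuclideanSpace ℝ (Fin 3) → EuclideanSpace ℝ (Fin 3)) (t : ℝ)
    (x n : EuclideanSpace ℝ (Fin 3)) : Prop :=
  ‖n‖ = 1 ∧ ∀ z m : EuclideanSpace ℝ (Fin 3), ‖m‖ = 1 → strain u t x n ≤ strain u t z m

/-- `n` is a unit vector and the rate of strain in the direction `n` at `x` is the largest one
over all points and all unit vectors. -/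
def MostStretched (u : ℝ → EuclideanSpace ℝ (Fin 3) → EuclideanSpace ℝ (Fin 3)) (t : ℝ)
    (x n : EuclideanSpace ℝ (Fin 3)) : Prop :=
  ‖n‖ = 1 ∧ ∀ z m : EuclideanSpace ℝ (Fin 3), ‖m‖ = 1 → strain u t z m ≤ strain u t x n

/-- `f` is positive and twice continuously differentiable on `[a, b)`, with first derivative `f'`
and second derivative `f''`. -/
structure PosC2 (a b : ℝ) (f f' f'' : ℝ → ℝ) : Prop where
  pos : ∀ t ∈ Ico a b, 0 < f t
  deriv1 : ∀ t ∈ Ico a b, HasDerivWithinAt f (f' t) (Ico a b) t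
  deriv2 : ∀ t ∈ Ico a b, HasDerivWithinAt f' (f'' t) (Ico a b) t
  cont : ContinuousOn f'' (Ico a b)

end Pool.Agent.Work.MP_b0497c_an
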