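import Mathlib
import Pool.Agent.Work.MP_b0497c_an.Vorticity
import Pool.Agent.Work.MP_b0497c_an.StrainDefs

set_option autoImplicit false
set_option maxHeartbeats 4000000

/-!
The velocity gradient along particle trajectories: if the pressure is twice differentiable in space
with jointly continuous Hessian, then `d/dt (grad u) = -(grad u)^2 - Hess p` along the trajectories
of a `C¹` classical solution (no second derivatives of `u` are needed).
-/

namespace Pool.Agent.Work.MP_b0497c_an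

open Set RealInnerProductSpace Metric MeasureTheory

variable {T : ℝ} {u : ℝ → E3 → E3} {p : ℝ → E3 → ℝ}

theorem Periodic3.gradient {f : E3 → ℝ} (hf : Periodic3 f) : Periodic3 (_root_.gradient f) := by
  intro i x
  unfold _root_.gradient
  rw [hf.fderiv i x]

theorem HasHessian.cont_P (hp : HasHessian T p) {α β : ℝ} (hα : 0 ≤ α) (hβ : β < T) :
    ContinuousOn (fun z : ℝ × E3 => fderiv ℝ (gradient (p z.1)) z.2) (Icc α β ×ˢ univ) :=
  hp.cont.mono (prod_mono (Icc_subset_of hα hβ) (Subset.refl _))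

theorem per_P (h : IsClassicalSolution T u p) {α β : ℝ} (hα : 0 ≤ α) (hβ : β < T) :
    ∀ t ∈ Icc α β, Periodic3 (fun x => fderiv ℝ (gradient (p t)) x) :=
  fun t ht => (h.periodic_p t (Icc_subset_of hα hβ ht)).gradient.fderiv

theorem bound_P (h : IsClassicalSolution T u p) (hp : HasHessian T p) {α β : ℝ} (hα : 0 ≤ α)
    (hβ : β < T) :
    ∃ C : ℝ, 0 ≤ C ∧ ∀ t ∈ Icc α β, ∀ x, ‖fderiv ℝ (gradient (p t)) x‖ ≤ C :=
  exists_bound (G := fun t x => fderiv ℝ (gradient (p t)) x) (hp.cont_P hα hβ) (per_P h hα hβ)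

theorem unif_P (h : IsClassicalSolution T u p) (hp : HasHessian T p) {α β : ℝ} (hα : 0 ≤ α)
    (hβ : β < T) (ε : ℝ) (hε : 0 < ε) :
    ∃ δ : ℝ, 0 < δ ∧ ∀ t ∈ Icc α β, ∀ s ∈ Icc α β, ∀ x y : E3, |t - s| < δ → ‖x - y‖ < δ →
      ‖fderiv ℝ (gradient (p t)) x - fderiv ℝ (gradient (p s)) y‖ < ε :=
  unif_cont (G := fun t x => fderiv ℝ (gradient (p t)) x) (hp.cont_P hα hβ) (per_P h hα hβ) ε hε

/-- Linearisation of the pressure gradient at a point. -/
theorem lin_p (hp : HasHessian T p) {t : ℝ} (ht : t ∈ Ico 0 T) {x0 : E3} {ρ η : ℝ}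
    (hM : ∀ x, ‖x - x0‖ ≤ ρ →
      ‖fderiv ℝ (gradient (p t)) x - fderiv ℝ (gradient (p t)) x0‖ ≤ η) (x : E3)
    (hx : ‖x - x0‖ ≤ ρ) :
    ‖gradient (p t) x - gradient (p t) x0 - fderiv ℝ (gradient (p t)) x0 (x - x0)‖
      ≤ η * ‖x - x0‖ := by
  have hρ : 0 ≤ ρ := (norm_nonneg _).trans hx
  have := Convex.norm_image_sub_le_of_norm_hasFDerivWithin_le' (𝕜 := ℝ) (f := gradient (p t))
    (f' := fun z => fderiv ℝ (gradient (p t)) z) (φ := fderiv ℝ (gradient (p t)) x0)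
    (s := closedBall x0 ρ) (C := η)
    (fun z _ => (hp.diff t ht z).hasFDerivAt.hasFDerivWithinAt)
    (fun z hz => hM z (by simpa [dist_eq_norm] using hz)) (convex_closedBall x0 ρ)
    (mem_closedBall_self hρ) (by simpa [dist_eq_norm] using hx)
  exact this

/-- The acceleration of a particle is minus the pressure gradient. -/
theorem accel (h : IsClassicalSolution T u p) {a b : ℝ} (hab : Ioo a b ⊆ Ico 0 T) {X : ℝ → E3}
    {t : ℝ} (ht : t ∈ Ioo a b) (hX : HasDerivAt X (u t (X t)) t) :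
    HasDerivAt (fun s => u s (X s)) (-gradient (p t) (X t)) t := by
  have h1 := hasDerivWithinAt_along h.contDiff_u hab ht hX.hasDerivWithinAt
  rw [h.momentum t (hab ht) (X t)] at h1
  exact h1.hasDerivAt (Ioo_mem_nhds ht.1 ht.2)

theorem second_key (h : IsClassicalSolution T u p) (hp : HasHessian T p) {α β : ℝ} (hα : 0 ≤ α)
    (hβ : β < T) {t0 : ℝ} (ht0 : t0 ∈ Ioo α β) {x0 : E3} {Φ : E3 → ℝ → E3} {L : ℝ} (hL0 : 0 ≤ L)
    (hΦ0 : ∀ x, ‖x - x0‖ ≤ 1 → Φ x t0 = x)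
    (hΦ : ∀ x, ‖x - x0‖ ≤ 1 → ∀ t ∈ Ioo α β, HasDerivAt (Φ x) (u t (Φ x t)) t)
    (hL : ∀ t ∈ Ioo α β, ∀ x y, ‖x - x0‖ ≤ 1 → ‖y - x0‖ ≤ 1 →
        ‖Φ x t - Φ y t‖ ≤ L * ‖x - y‖) (v : E3) (c : ℝ) (hc : 0 < c) :
    ∃ δ : ℝ, 0 < δ ∧ ∀ s ∈ Ioo α β, |s - t0| < δ →
      ‖fderiv ℝ (u s) (Φ x0 s) v - fderiv ℝ (u t0) x0 v + (s - t0) •
        (fderiv ℝ (u t0) x0 (fderiv ℝ (u t0) x0 v) + fderiv ℝ (gradient (p t0)) x0 v)‖
        ≤ c * |s - t0| := by
  obtain ⟨U, hU0, hU⟩ := h.bound_u hα hβ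
  obtain ⟨K', hK'0, hK'⟩ := h.bound_M hα hβ
  obtain ⟨B, hB0, hB⟩ := bound_P h hp hα hβ
  set K : ℝ := K' + 1 with hKdef
  have hK1 : 1 ≤ K := by linarith
  have hK0 : 0 ≤ K := by linarith
  have hKpos : 0 < K := by linarith
  have hK : ∀ t ∈ Icc α β, ∀ x, ‖fderiv ℝ (u t) x‖ ≤ K := fun t ht x => by
    linarith [hK' t ht x]
  have h00 : ‖x0 - x0‖ ≤ 1 := by simp
  set N : ℝ := ‖v‖ + 1 with hN
  have hN1 : 1 ≤ N := by have := norm_nonneg v; linarith
  have hNpos : 0 < N := by linarith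
  have hvN : ‖v‖ ≤ N := by linarith
  set H : ℝ := (L + 1) * N with hH
  have hH1 : 1 ≤ H := by
    have : 1 * 1 ≤ (L + 1) * N := mul_le_mul (by linarith) hN1 zero_le_one (by linarith)
    linarith
  have hHpos : 0 < H := by linarith
  set C1 : ℝ := 4 * H + 2 * K * H + K * N with hC1
  have hC1pos : 0 < C1 := by positivity
  set C2 : ℝ := H * (B * K + K ^ 3) with hC2
  have hC2pos : 0 < C2 := by positivity
  set η : ℝ := c / (2 * C1) with hη
  have hηpos : 0 < η := by positivity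
  have hηC : η * C1 = c / 2 := by
    rw [hη]; field_simp
  obtain ⟨δ1, hδ1, hM1⟩ := h.unif_M hα hβ η hηpos
  obtain ⟨δ2, hδ2, hP1⟩ := unif_P h hp hα hβ η hηpos
  set δ12 : ℝ := min δ1 δ2 with hδ12
  have hδ12pos : 0 < δ12 := lt_min hδ1 hδ2
  set δ : ℝ := min δ12 (min (δ12 / (U + 1)) (c / (2 * C2))) with hδ
  have hδpos : 0 < δ := lt_min hδ12pos (lt_min (by positivity) (by positivity))
  have ht0' := Ioo_subset_Icc_self ht0
  have hsub : Ioo α β ⊆ Ico 0 T := fun s hs => Icc_subset_of hα hβ (Ioo_subset_Icc_self hs)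
  set X0 : ℝ → E3 := Φ x0 with hX0def
  have hX0t : X0 t0 = x0 := hΦ0 x0 h00
  have hX0 : ∀ s ∈ Ioo α β, HasDerivAt X0 (u s (X0 s)) s := hΦ x0 h00
  have hX0lip : ∀ r ∈ Ioo α β, ‖X0 r - x0‖ ≤ U * |r - t0| := by
    intro r hr
    have := Convex.norm_image_sub_le_of_norm_hasDerivWithin_le (f := X0)
      (f' := fun r => u r (X0 r)) (s := Ioo α β) (C := U)
      (fun r hr => (hX0 r hr).hasDerivWithinAt) (fun r hr => hU r (Ioo_subset_Icc_self hr) _)
      (convex_Ioo α β) ht0 hr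
    rw [hX0t] at this
    simpa using this
  have hclose : ∀ r ∈ Ioo α β, |r - t0| < δ → |r - t0| < δ12 ∧ ‖X0 r - x0‖ < δ12 := by
    intro r hr hrδ
    refine ⟨hrδ.trans_le (min_le_left _ _), ?_⟩
    have h1 : |r - t0| < δ12 / (U + 1) :=
      hrδ.trans_le ((min_le_right _ _).trans (min_le_left _ _))
    rw [lt_div_iff₀ (by linarith)] at h1
    have h2 := hX0lip r hr
    have h3 := abs_nonneg (r - t0)
    have h4 : |r - t0| * (U + 1) = U * |r - t0| + |r - t0| := by ring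
    linarith
  have hMr : ∀ r ∈ Ioo α β, |r - t0| < δ →
      ‖fderiv ℝ (u r) (X0 r) - fderiv ℝ (u t0) x0‖ ≤ η := by
    intro r hr hrδ
    obtain ⟨a1, a2⟩ := hclose r hr hrδ
    exact (hM1 r (Ioo_subset_Icc_self hr) t0 ht0' (X0 r) x0 (a1.trans_le (min_le_left _ _))
      (a2.trans_le (min_le_left _ _))).le
  have hPr : ∀ r ∈ Ioo α β, |r - t0| < δ →
      ‖fderiv ℝ (gradient (p r)) (X0 r) - fderiv ℝ (gradient (p t0)) x0‖ ≤ η := by
    intro r hr hrδ
    obtain ⟨a1, a2⟩ := hclose r hr hrδ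
    exact (hP1 r (Ioo_subset_Icc_self hr) t0 ht0' (X0 r) x0 (a1.trans_le (min_le_right _ _))
      (a2.trans_le (min_le_right _ _))).le
  refine ⟨δ, hδpos, ?_⟩
  intro s hs hsδ
  by_cases hst : s = t0
  · rw [hst, hX0t]
    simp
  set τ : ℝ := s - t0 with hτ
  have hτ0 : τ ≠ 0 := sub_ne_zero.mpr hst
  have hτpos : 0 < |τ| := abs_pos.mpr hτ0
  have hτc : C2 * |τ| ≤ c / 2 := by
    have h1 : |τ| < c / (2 * C2) :=
      hsδ.trans_le ((min_le_right _ _).trans (min_le_right _ _))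
    rw [lt_div_iff₀ (by positivity)] at h1
    have h4 : |τ| * (2 * C2) = 2 * (C2 * |τ|) := by ring
    linarith
  set η' : ℝ := min η (η * |τ|) with hη'
  have hη'pos : 0 < η' := lt_min hηpos (by positivity)
  have hη'η : η' ≤ η := min_le_left _ _
  have hη'2 : η' ≤ η * |τ| := min_le_right _ _
  obtain ⟨δ1', hδ1', hM'⟩ := h.unif_M hα hβ η' hη'pos
  obtain ⟨δ2', hδ2', hP'⟩ := unif_P h hp hα hβ η' hη'pos
  set δ' : ℝ := min δ1' δ2' with hδ'def
  have hδ' : 0 < δ' := lt_min hδ1' hδ2'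
  set ε : ℝ := min (1 / N) (δ' / (2 * H)) with hε
  have hεpos : 0 < ε := lt_min (by positivity) (by positivity)
  have hεN : ε * N ≤ 1 := by
    have : ε ≤ 1 / N := min_le_left _ _
    rwa [le_div_iff₀ hNpos] at this
  have hεH : H * ε < δ' := by
    have : ε ≤ δ' / (2 * H) := min_le_right _ _
    rw [le_div_iff₀ (by positivity)] at this
    have h4 : ε * (2 * H) = 2 * (H * ε) := by ring
    have h5 : 0 < H * ε := by positivity
    linarith
  set ρ : ℝ := H * ε with hρdef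
  have hρpos : 0 < ρ := by positivity
  have e1 : ‖x0 + ε • v - x0‖ = ε * ‖v‖ := by
    rw [add_sub_cancel_left, norm_smul, Real.norm_of_nonneg hεpos.le]
  have e2 : ε * ‖v‖ ≤ ε * N := mul_le_mul_of_nonneg_left hvN hεpos.le
  have hz1 : ‖x0 + ε • v - x0‖ ≤ 1 := by rw [e1]; linarith
  set X1 : ℝ → E3 := Φ (x0 + ε • v) with hX1def
  have hz2 : ∀ r ∈ Ioo α β, ‖X1 r - X0 r‖ ≤ ρ := by
    intro r hr
    refine (hL r hr _ _ hz1 h00).trans ?_
    rw [e1, hρdef, hH]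
    have := mul_le_mul_of_nonneg_left e2 hL0
    have h4 : (L + 1) * N * ε = L * (ε * N) + ε * N := by ring
    have h5 : 0 < ε * N := by positivity
    linarith
  have hX1t : X1 t0 = x0 + ε • v := hΦ0 _ hz1
  have hX1 : ∀ s ∈ Ioo α β, HasDerivAt X1 (u s (X1 s)) s := hΦ _ hz1
  have hlin : ∀ r ∈ Ioo α β, ∀ y, ‖y - X0 r‖ ≤ ρ →
      ‖u r y - u r (X0 r) - fderiv ℝ (u r) (X0 r) (y - X0 r)‖ ≤ η' * ρ := by
    intro r hr y hy
    have hr' := Ioo_subset_Icc_self hr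
    refine (h.lin_u (Icc_subset_of hα hβ hr') (ρ := ρ) (η := η') ?_ y hy).trans ?_
    · intro x hx
      refine (hM' r hr' r hr' x (X0 r) ?_ ?_).le
      · simpa using hδ1'
      · exact hx.trans_lt (hεH.trans_le (min_le_left _ _))
    · exact mul_le_mul_of_nonneg_left hy hη'pos.le
  have hlinp : ∀ r ∈ Ioo α β, ∀ y, ‖y - X0 r‖ ≤ ρ →
      ‖gradient (p r) y - gradient (p r) (X0 r)
        - fderiv ℝ (gradient (p r)) (X0 r) (y - X0 r)‖ ≤ η' * ρ := by
    intro r hr y hy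
    have hr' := Ioo_subset_Icc_self hr
    refine (lin_p hp (Icc_subset_of hα hβ hr') (ρ := ρ) (η := η') ?_ y hy).trans ?_
    · intro x hx
      refine (hP' r hr' r hr' x (X0 r) ?_ ?_).le
      · simpa using hδ2'
      · exact hx.trans_lt (hεH.trans_le (min_le_right _ _))
    · exact mul_le_mul_of_nonneg_left hy hη'pos.le
  have hsep : ∀ r ∈ Ioo α β, ‖X1 r - X0 r - ε • v‖ ≤ K * ρ * |r - t0| := by
    intro r hr
    have := Convex.norm_image_sub_le_of_norm_hasDerivWithin_le (f := fun r => X1 r - X0 r)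
      (f' := fun r => u r (X1 r) - u r (X0 r)) (s := Ioo α β) (C := K * ρ)
      (fun r hr => ((hX1 r hr).sub (hX0 r hr)).hasDerivWithinAt) (fun r hr => by
        have hr' := Ioo_subset_Icc_self hr
        refine (h.lip_u (Icc_subset_of hα hβ hr') hK0 (hK r hr') _ _).trans ?_
        exact mul_le_mul_of_nonneg_left (hz2 r hr) hK0)
      (convex_Ioo α β) ht0 hr
    rw [hX1t, hX0t, add_sub_cancel_left] at this
    simpa using this
  have hconv : Convex ℝ (Ioo α β ∩ closedBall t0 |τ|) :=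
    (convex_Ioo α β).inter (convex_closedBall t0 |τ|)
  set M0 := fderiv ℝ (u t0) x0 with hM0
  set P0 := fderiv ℝ (gradient (p t0)) x0 with hP0
  -- first order: the separation
  have hbd1 : ∀ r ∈ Ioo α β ∩ closedBall t0 |τ|,
      ‖(u r (X1 r) - u r (X0 r)) - ε • M0 v‖ ≤ ρ * (2 * η + K ^ 2 * |τ|) := by
    rintro r ⟨hr, hrτ⟩
    have hrτ' : |r - t0| ≤ |τ| := by simpa [Real.dist_eq] using hrτ
    have n1 := hlin r hr (X1 r) (hz2 r hr)
    have n2 : ‖(fderiv ℝ (u r) (X0 r) - M0) (X1 r - X0 r)‖ ≤ η * ρ := by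
      refine (ContinuousLinearMap.le_opNorm _ _).trans ?_
      exact mul_le_mul (hMr r hr (hrτ'.trans_lt hsδ)) (hz2 r hr) (norm_nonneg _) hηpos.le
    have n3 : ‖M0 (X1 r - X0 r - ε • v)‖ ≤ K * (K * ρ * |τ|) := by
      refine (ContinuousLinearMap.le_opNorm _ _).trans ?_
      refine mul_le_mul (hK t0 ht0' x0) ((hsep r hr).trans ?_) (norm_nonneg _) hK0
      exact mul_le_mul_of_nonneg_left hrτ' (by positivity)
    have e3 : (u r (X1 r) - u r (X0 r)) - ε • M0 v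
        = (u r (X1 r) - u r (X0 r) - fderiv ℝ (u r) (X0 r) (X1 r - X0 r))
        + (fderiv ℝ (u r) (X0 r) - M0) (X1 r - X0 r)
        + M0 (X1 r - X0 r - ε • v) := by
      rw [_root_.sub_apply, map_sub M0 (X1 r - X0 r), map_smul]
      abel
    rw [e3]
    have n4 := norm_add₃_le (a := u r (X1 r) - u r (X0 r) - fderiv ℝ (u r) (X0 r) (X1 r - X0 r))
      (b := (fderiv ℝ (u r) (X0 r) - M0) (X1 r - X0 r)) (c := M0 (X1 r - X0 r - ε • v))
    have n5 : η' * ρ ≤ η * ρ := mul_le_mul_of_nonneg_right hη'η hρpos.le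
    have n6 : ρ * (2 * η + K ^ 2 * |τ|) = 2 * (η * ρ) + K * (K * ρ * |τ|) := by ring
    linarith
  have hgrow : ‖X1 s - X0 s - ε • v - τ • (ε • M0 v)‖ ≤ ρ * (2 * η + K ^ 2 * |τ|) * |τ| := by
    have := Convex.norm_image_sub_le_of_norm_hasDerivWithin_le
      (f := fun r => X1 r - X0 r - r • (ε • M0 v))
      (f' := fun r => (u r (X1 r) - u r (X0 r)) - ε • M0 v)
      (s := Ioo α β ∩ closedBall t0 |τ|) (C := ρ * (2 * η + K ^ 2 * |τ|))
      (fun r hr => by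
        have d1 := ((hX1 r hr.1).sub (hX0 r hr.1))
        have d2 := (hasDerivAt_id r).smul_const (ε • M0 v)
        have d3 := d1.sub d2
        simp only [one_smul, id] at d3
        exact d3.hasDerivWithinAt) hbd1 hconv
      (x := t0) (y := s) ⟨ht0, by simp⟩ ⟨hs, by simp [Real.dist_eq, hτ]⟩
    rw [hX1t, hX0t, add_sub_cancel_left] at this
    have e4 : X1 s - X0 s - ε • v - τ • (ε • M0 v)
        = X1 s - X0 s - s • (ε • M0 v) - (ε • v - t0 • (ε • M0 v)) := by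
      rw [hτ, sub_smul]
      abel
    rw [e4]
    simpa using this
  -- second order: the relative velocity
  have hbd2 : ∀ r ∈ Ioo α β ∩ closedBall t0 |τ|,
      ‖(-gradient (p r) (X1 r) - -gradient (p r) (X0 r)) + ε • P0 v‖
        ≤ ρ * (2 * η + B * K * |τ|) := by
    rintro r ⟨hr, hrτ⟩
    have hrτ' : |r - t0| ≤ |τ| := by simpa [Real.dist_eq] using hrτ
    have n1 := hlinp r hr (X1 r) (hz2 r hr)
    have n2 : ‖(fderiv ℝ (gradient (p r)) (X0 r) - P0) (X1 r - X0 r)‖ ≤ η * ρ := by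
      refine (ContinuousLinearMap.le_opNorm _ _).trans ?_
      exact mul_le_mul (hPr r hr (hrτ'.trans_lt hsδ)) (hz2 r hr) (norm_nonneg _) hηpos.le
    have n3 : ‖P0 (X1 r - X0 r - ε • v)‖ ≤ B * (K * ρ * |τ|) := by
      refine (ContinuousLinearMap.le_opNorm _ _).trans ?_
      refine mul_le_mul (hB t0 ht0' x0) ((hsep r hr).trans ?_) (norm_nonneg _) hB0
      exact mul_le_mul_of_nonneg_left hrτ' (by positivity)
    have e3 : (-gradient (p r) (X1 r) - -gradient (p r) (X0 r)) + ε • P0 v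
        = -((gradient (p r) (X1 r) - gradient (p r) (X0 r)
            - fderiv ℝ (gradient (p r)) (X0 r) (X1 r - X0 r))
        + (fderiv ℝ (gradient (p r)) (X0 r) - P0) (X1 r - X0 r)
        + P0 (X1 r - X0 r - ε • v)) := by
      rw [_root_.sub_apply, map_sub P0 (X1 r - X0 r), map_smul]
      abel
    rw [e3, norm_neg]
    have n4 := norm_add₃_le (a := gradient (p r) (X1 r) - gradient (p r) (X0 r)
        - fderiv ℝ (gradient (p r)) (X0 r) (X1 r - X0 r))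
      (b := (fderiv ℝ (gradient (p r)) (X0 r) - P0) (X1 r - X0 r))
      (c := P0 (X1 r - X0 r - ε • v))
    have n5 : η' * ρ ≤ η * ρ := mul_le_mul_of_nonneg_right hη'η hρpos.le
    have n6 : ρ * (2 * η + B * K * |τ|) = 2 * (η * ρ) + B * (K * ρ * |τ|) := by ring
    linarith
  have hvel : ‖(u s (X1 s) - u s (X0 s)) - (u t0 (X1 t0) - u t0 (X0 t0)) + τ • (ε • P0 v)‖
      ≤ ρ * (2 * η + B * K * |τ|) * |τ| := by
    have := Convex.norm_image_sub_le_of_norm_hasDerivWithin_le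
      (f := fun r => u r (X1 r) - u r (X0 r) + r • (ε • P0 v))
      (f' := fun r => (-gradient (p r) (X1 r) - -gradient (p r) (X0 r)) + ε • P0 v)
      (s := Ioo α β ∩ closedBall t0 |τ|) (C := ρ * (2 * η + B * K * |τ|))
      (fun r hr => by
        have d1 := (accel h hsub hr.1 (hX1 r hr.1)).sub (accel h hsub hr.1 (hX0 r hr.1))
        have d2 := (hasDerivAt_id r).smul_const (ε • P0 v)
        have d3 := d1.add d2
        simp only [one_smul, id] at d3
        exact d3.hasDerivWithinAt) hbd2 hconv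
      (x := t0) (y := s) ⟨ht0, by simp⟩ ⟨hs, by simp [Real.dist_eq, hτ]⟩
    have e4 : (u s (X1 s) - u s (X0 s)) - (u t0 (X1 t0) - u t0 (X0 t0)) + τ • (ε • P0 v)
        = (u s (X1 s) - u s (X0 s) + s • (ε • P0 v))
          - (u t0 (X1 t0) - u t0 (X0 t0) + t0 • (ε • P0 v)) := by
      rw [hτ, sub_smul]
      abel
    rw [e4]
    simpa using this
  have hs1 := hlin s hs (X1 s) (hz2 s hs)
  have ht1 := hlin t0 ht0 (X1 t0) (hz2 t0 ht0)
  rw [hX0t, hX1t, add_sub_cancel_left, map_smul] at ht1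
  rw [hX0t, hX1t] at hvel
  set Ms := fderiv ℝ (u s) (X0 s) with hMs
  -- combine
  have hcomb : ε • (Ms v - M0 v + τ • (M0 (M0 v) + P0 v))
      = -(u s (X1 s) - u s (X0 s) - Ms (X1 s - X0 s))
        + ((u s (X1 s) - u s (X0 s)) - (u t0 (x0 + ε • v) - u t0 x0) + τ • (ε • P0 v))
        + (u t0 (x0 + ε • v) - u t0 x0 - ε • M0 v)
        - Ms (X1 s - X0 s - ε • v - τ • (ε • M0 v))
        - (τ * ε) • ((Ms - M0) (M0 v)) := by
    have f1 : Ms (X1 s - X0 s - ε • v - τ • (ε • M0 v))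
        = Ms (X1 s - X0 s) - ε • Ms v - τ • (ε • Ms (M0 v)) := by
      rw [map_sub, map_sub, map_smul, map_smul, map_smul]
    have f2 : (Ms - M0) (M0 v) = Ms (M0 v) - M0 (M0 v) := rfl
    rw [f1, f2]
    generalize Ms (X1 s - X0 s) = z1
    generalize Ms (M0 v) = z2
    generalize M0 (M0 v) = z3
    generalize P0 v = z4
    generalize Ms v = z5
    generalize M0 v = z6
    generalize u s (X1 s) - u s (X0 s) = z7
    generalize u t0 (x0 + ε • v) - u t0 x0 = z8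
    module
  have b1 : ‖Ms (X1 s - X0 s - ε • v - τ • (ε • M0 v))‖
      ≤ K * (ρ * (2 * η + K ^ 2 * |τ|) * |τ|) :=
    (ContinuousLinearMap.le_opNorm _ _).trans
      (mul_le_mul (hK s (Ioo_subset_Icc_self hs) _) hgrow (norm_nonneg _) hK0)
  have b2 : ‖(τ * ε) • ((Ms - M0) (M0 v))‖ ≤ |τ| * ε * (η * (K * N)) := by
    rw [norm_smul, norm_mul, Real.norm_eq_abs, Real.norm_of_nonneg hεpos.le]
    refine mul_le_mul_of_nonneg_left ?_ (by positivity)
    refine (ContinuousLinearMap.le_opNorm _ _).trans ?_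
    refine mul_le_mul (hMr s hs hsδ) ?_ (norm_nonneg _) hηpos.le
    exact (ContinuousLinearMap.le_opNorm _ _).trans
      (mul_le_mul (hK t0 ht0' x0) hvN (norm_nonneg _) hK0)
  have hfin : ‖ε • (Ms v - M0 v + τ • (M0 (M0 v) + P0 v))‖ ≤ ε * (c * |τ|) := by
    rw [hcomb]
    have t1 := norm_sub_le (-(u s (X1 s) - u s (X0 s) - Ms (X1 s - X0 s))
        + ((u s (X1 s) - u s (X0 s)) - (u t0 (x0 + ε • v) - u t0 x0) + τ • (ε • P0 v))
        + (u t0 (x0 + ε • v) - u t0 x0 - ε • M0 v)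
        - Ms (X1 s - X0 s - ε • v - τ • (ε • M0 v))) ((τ * ε) • ((Ms - M0) (M0 v)))
    have t2 := norm_sub_le (-(u s (X1 s) - u s (X0 s) - Ms (X1 s - X0 s))
        + ((u s (X1 s) - u s (X0 s)) - (u t0 (x0 + ε • v) - u t0 x0) + τ • (ε • P0 v))
        + (u t0 (x0 + ε • v) - u t0 x0 - ε • M0 v))
        (Ms (X1 s - X0 s - ε • v - τ • (ε • M0 v)))
    have t3 := norm_add₃_le (a := -(u s (X1 s) - u s (X0 s) - Ms (X1 s - X0 s)))
        (b := (u s (X1 s) - u s (X0 s)) - (u t0 (x0 + ε • v) - u t0 x0) + τ • (ε • P0 v))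
        (c := u t0 (x0 + ε • v) - u t0 x0 - ε • M0 v)
    rw [norm_neg] at t3
    have t4 : η' * ρ ≤ η * |τ| * ρ := mul_le_mul_of_nonneg_right hη'2 hρpos.le
    have t5 : 2 * (η * |τ| * ρ) + ρ * (2 * η + B * K * |τ|) * |τ|
        + K * (ρ * (2 * η + K ^ 2 * |τ|) * |τ|) + |τ| * ε * (η * (K * N))
        = ε * |τ| * (η * C1 + C2 * |τ|) := by
      rw [hρdef, hC1, hC2]; ring
    have t6 : ε * |τ| * (η * C1 + C2 * |τ|) ≤ ε * |τ| * c := by
      refine mul_le_mul_of_nonneg_left ?_ (by positivity)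
      linarith
    linarith
  rw [norm_smul, Real.norm_of_nonneg hεpos.le] at hfin
  exact le_of_mul_le_mul_left hfin hεpos

/-- The velocity gradient along a particle trajectory. -/
theorem hasDerivAt_M_local (h : IsClassicalSolution T u p) (hp : HasHessian T p) {t0 : ℝ}
    (ht0 : t0 ∈ Ioo 0 T) (x0 : E3) :
    ∃ X : ℝ → E3, X t0 = x0 ∧
      (∀ s ∈ Ioo (t0 / 2) ((t0 + T) / 2), HasDerivAt X (u s (X s)) s) ∧
      ∀ v, HasDerivAt (fun s => fderiv ℝ (u s) (X s) v)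
        (-(fderiv ℝ (u t0) x0 (fderiv ℝ (u t0) x0 v) + fderiv ℝ (gradient (p t0)) x0 v)) t0 := by
  set α : ℝ := t0 / 2 with hαdef
  set β : ℝ := (t0 + T) / 2 with hβdef
  have hα : 0 ≤ α := by have := ht0.1; positivity
  have hβ : β < T := by have := ht0.2; linarith
  have ht0' : t0 ∈ Ioo α β := ⟨by have := ht0.1; linarith, by have := ht0.2; linarith⟩
  obtain ⟨Φ, hΦ, L, hL0, hL⟩ := h.exists_flow hα hβ (Ioo_subset_Icc_self ht0') x0
  have hΦ0 : ∀ x, ‖x - x0‖ ≤ 1 → Φ x t0 = x := fun x hx => (hΦ x hx).1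
  have hΦ1 : ∀ x, ‖x - x0‖ ≤ 1 → ∀ t ∈ Ioo α β, HasDerivAt (Φ x) (u t (Φ x t)) t :=
    fun x hx t ht => ((hΦ x hx).2 t (Ioo_subset_Icc_self ht)).hasDerivAt (Icc_mem_nhds ht.1 ht.2)
  have hL' : ∀ t ∈ Ioo α β, ∀ x y, ‖x - x0‖ ≤ 1 → ‖y - x0‖ ≤ 1 →
      ‖Φ x t - Φ y t‖ ≤ L * ‖x - y‖ := fun t ht => hL t (Ioo_subset_Icc_self ht)
  have hx00 : Φ x0 t0 = x0 := hΦ0 x0 (by simp)
  refine ⟨Φ x0, hx00, hΦ1 x0 (by simp), ?_⟩
  intro v
  rw [hasDerivAt_iff_isLittleO, Asymptotics.isLittleO_iff]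
  intro c hc
  obtain ⟨δ, hδ, hkey⟩ := second_key h hp hα hβ ht0' hL0 hΦ0 hΦ1 hL' v c hc
  filter_upwards [Ioo_mem_nhds ht0'.1 ht0'.2, ball_mem_nhds t0 hδ] with s hs hsb
  have hsb' : |s - t0| < δ := by simpa [Real.dist_eq] using hsb
  have := hkey s hs hsb'
  rw [hx00, smul_neg, sub_neg_eq_add, Real.norm_eq_abs]
  exact this

theorem hasDerivAt_M (h : IsClassicalSolution T u p) (hp : HasHessian T p) {a b : ℝ}
    (hab : Ioo a b ⊆ Ioo 0 T) {X : ℝ → E3} (hX : ∀ s ∈ Ioo a b, HasDerivAt X (u s (X s)) s) {t : ℝ}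
    (ht : t ∈ Ioo a b) (v : E3) :
    HasDerivAt (fun s => fderiv ℝ (u s) (X s) v)
      (-(fderiv ℝ (u t) (X t) (fderiv ℝ (u t) (X t) v) + fderiv ℝ (gradient (p t)) (X t) v)) t := by
  have htT := hab ht
  obtain ⟨Y, hY0, hY, hYc⟩ := hasDerivAt_M_local h hp htT (X t)
  set α : ℝ := t / 2 with hαdef
  set β : ℝ := (t + T) / 2 with hβdef
  have hα : 0 ≤ α := by have := htT.1; positivity
  have hβ : β < T := by have := htT.2; linarith
  have ht' : t ∈ Ioo α β := ⟨by have := htT.1; linarith, by have := htT.2; linarith⟩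
  obtain ⟨K, hK0, hK⟩ := h.bound_M hα hβ
  have hXY : X =ᶠ[nhds t] Y := by
    refine ODE_solution_unique_of_eventually (v := u) (s := fun _ => univ) (K := ⟨K, hK0⟩)
      ?_ ?_ ?_ hY0.symm
    · filter_upwards [Ioo_mem_nhds ht'.1 ht'.2] with s hs
      apply LipschitzWith.lipschitzOnWith
      apply LipschitzWith.of_dist_le_mul
      intro x y
      rw [dist_eq_norm, dist_eq_norm]
      exact h.lip_u (Icc_subset_of hα hβ (Ioo_subset_Icc_self hs)) hK0
        (hK s (Ioo_subset_Icc_self hs)) x y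
    · filter_upwards [Ioo_mem_nhds ht.1 ht.2] with s hs
      exact ⟨hX s hs, mem_univ _⟩
    · filter_upwards [Ioo_mem_nhds ht'.1 ht'.2] with s hs
      exact ⟨hY s hs, mem_univ _⟩
  refine (hYc v).congr_of_eventuallyEq ?_
  filter_upwards [hXY] with s hs
  rw [hs]

end Pool.Agent.Work.MP_b0497c_an
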