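import Mathlib
import Pool.Agent.Work.MP_b0497c_an.Second
import Pool.Agent.Work.MP_b0497c_an.MaxPrincipleAE

set_option autoImplicit false
set_option maxHeartbeats 4000000

/-!
Extremal values of the quadratic form of the rate of strain over the torus, and their evolution.
-/

namespace Pool.Agent.Work.MP_b0497c_an

open Set RealInnerProductSpace Metric MeasureTheory Filter Topology

variable {T : ℝ} {u : ℝ → E3 → E3} {p : ℝ → E3 → ℝ}

/-! ### Algebra -/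

/-- Cross product. -/
noncomputable def crossE (x y : E3) : E3 :=
  !₂[x 1 * y 2 - x 2 * y 1, x 2 * y 0 - x 0 * y 2, x 0 * y 1 - x 1 * y 0]

theorem det3_eq_inner (x y z : E3) : det3 x y z = ⟪x, crossE y z⟫ := by
  rw [inner_eq]
  simp [crossE, det3]

theorem inner_crossE_self (x y : E3) : ⟪y, crossE x y⟫ = 0 := by
  rw [inner_eq]
  simp [crossE]
  ring

theorem norm_crossE_sq (x y : E3) : ‖crossE x y‖ ^ 2 = ‖x‖ ^ 2 * ‖y‖ ^ 2 - ⟪x, y⟫ ^ 2 := by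
  rw [norm_sq_eq, norm_sq_eq, norm_sq_eq, inner_eq]
  simp [crossE]
  ring

theorem eq_zero_of_forall_mul_le {D E : ℝ} (h : ∀ τ : ℝ, τ * D ≤ τ ^ 2 * E) : D = 0 := by
  by_contra hD
  have hE : 0 < |E| + 1 := by positivity
  have h1 := h (D / (|E| + 1))
  have h2 : D / (|E| + 1) * D = D ^ 2 / (|E| + 1) := by ring
  have h3 : (D / (|E| + 1)) ^ 2 * E = D ^ 2 / (|E| + 1) * (E / (|E| + 1)) := by
    field_simp
  rw [h2, h3] at h1
  have h4 : 0 < D ^ 2 / (|E| + 1) := by positivity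
  have h5 : 1 ≤ E / (|E| + 1) := by
    by_contra hlt
    have := mul_lt_mul_of_pos_left (not_le.mp hlt) h4
    linarith
  rw [le_div_iff₀ hE] at h5
  have := le_abs_self E
  linarith

/-- First order condition at an extremal direction. -/
theorem extremal_symm (A : E3 →L[ℝ] E3) {η : E3} (hη : ‖η‖ = 1) {s : ℝ} (hs : s * s = 1)
    (hmax : ∀ ζ : E3, ‖ζ‖ = 1 → s * ⟪A ζ, ζ⟫ ≤ s * ⟪A η, η⟫) (v : E3) :
    ⟪A η, v⟫ + ⟪A v, η⟫ = 2 * ⟪A η, η⟫ * ⟪η, v⟫ := by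
  have hηη : ⟪η, η⟫ = 1 := by rw [real_inner_self_eq_norm_sq, hη]; norm_num
  have step1 : ∀ w : E3, s * ⟪A w, w⟫ ≤ s * ⟪A η, η⟫ * ⟪w, w⟫ := by
    intro w
    by_cases hw : w = 0
    · simp [hw]
    have hn : 0 < ‖w‖ := norm_pos_iff.mpr hw
    have h1 := hmax (‖w‖⁻¹ • w) (by
      rw [norm_smul, norm_inv, norm_norm, inv_mul_cancel₀ hn.ne'])
    rw [map_smul, real_inner_smul_left, real_inner_smul_right] at h1
    rw [real_inner_self_eq_norm_sq]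
    have h2 := mul_le_mul_of_nonneg_right h1 (sq_nonneg ‖w‖)
    calc s * ⟪A w, w⟫ = s * (‖w‖⁻¹ * (‖w‖⁻¹ * ⟪A w, w⟫)) * ‖w‖ ^ 2 := by
          field_simp
      _ ≤ _ := h2
  have h0 : s * (⟪A η, v⟫ + ⟪A v, η⟫) - 2 * (s * ⟪A η, η⟫) * ⟪η, v⟫ = 0 := by
    apply eq_zero_of_forall_mul_le (E := s * ⟪A η, η⟫ * ⟪v, v⟫ - s * ⟪A v, v⟫)
    intro τ
    have h1 := step1 (η + τ • v)
    simp only [map_add, map_smul, inner_add_left, inner_add_right, real_inner_smul_left,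
      real_inner_smul_right, hηη] at h1
    rw [real_inner_comm η v] at h1
    linarith [h1]
  have h1 : s * (s * (⟪A η, v⟫ + ⟪A v, η⟫)) = s * (2 * (s * ⟪A η, η⟫) * ⟪η, v⟫) := by
    rw [sub_eq_zero.mp h0]
  calc ⟪A η, v⟫ + ⟪A v, η⟫ = (s * s) * (⟪A η, v⟫ + ⟪A v, η⟫) := by rw [hs, one_mul]
    _ = s * (s * (⟪A η, v⟫ + ⟪A v, η⟫)) := by ring
    _ = s * (2 * (s * ⟪A η, η⟫) * ⟪η, v⟫) := h1
    _ = (s * s) * (2 * ⟪A η, η⟫ * ⟪η, v⟫) := by ring
    _ = _ := by rw [hs, one_mul]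

/-- The square of the gradient at an extremal direction of the strain. -/
theorem extremal_sq (A : E3 →L[ℝ] E3) {η : E3} (hη : ‖η‖ = 1) {s : ℝ} (hs : s * s = 1)
    (hmax : ∀ ζ : E3, ‖ζ‖ = 1 → s * ⟪A ζ, ζ⟫ ≤ s * ⟪A η, η⟫) :
    ⟪A (A η), η⟫ = ⟪A η, η⟫ ^ 2 - 1 / 4 * (‖axial A‖ ^ 2 - ⟪axial A, η⟫ ^ 2) := by
  have hsym := extremal_symm A hη hs hmax
  have h1 := hsym (A η)
  have h2 : ∀ v : E3, ⟪A η, v⟫ = ⟪A η, η⟫ * ⟪η, v⟫ + 1 / 2 * ⟪v, crossE (axial A) η⟫ := by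
    intro v
    have a1 := hsym v
    have a2 := antisymm_eq A η v
    rw [det3_eq_inner] at a2
    rw [real_inner_comm (A η) v, real_inner_comm (A v) η] at a2
    linarith
  have h3 := h2 (crossE (axial A) η)
  have h4 := h2 (A η)
  rw [inner_crossE_self, mul_zero, zero_add, real_inner_self_eq_norm_sq, norm_crossE_sq, hη] at h3
  rw [h3] at h4
  rw [real_inner_comm (A η) η] at h1 h4
  linarith

/-- If the trace vanishes, a lower bound for the quadratic form gives an upper bound. -/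
theorem trace_upper (A : E3 →L[ℝ] E3) (htr : LinearMap.trace ℝ E3 A = 0) {q : ℝ}
    (hlow : ∀ ζ : E3, ‖ζ‖ = 1 → q ≤ ⟪A ζ, ζ⟫) {η : E3} (hη : ‖η‖ = 1) :
    ⟪A η, η⟫ ≤ -2 * q := by
  obtain ⟨b, hb⟩ : ∃ b : OrthonormalBasis (Fin 3) ℝ E3, b 0 = η := by
    have horth : Orthonormal ℝ (({0} : Set (Fin 3)).domRestrict ![η, 0, 0]) := by
      constructor
      · rintro ⟨i, hi⟩
        rw [mem_singleton_iff] at hi
        subst hi
        exact hη
      · rintro ⟨i, hi⟩ ⟨j, hj⟩ hij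
        rw [mem_singleton_iff] at hi hj
        subst hi
        subst hj
        exact absurd rfl hij
    obtain ⟨b, hb⟩ := horth.exists_orthonormalBasis_extension_of_card_eq (by simp)
    exact ⟨b, by simpa using hb 0 (by simp)⟩
  have htr' : ⟪A (b 0), b 0⟫ + ⟪A (b 1), b 1⟫ + ⟪A (b 2), b 2⟫ = 0 := by
    have := LinearMap.trace_eq_sum_inner (A : E3 →ₗ[ℝ] E3) b
    rw [htr, Fin.sum_univ_three] at this
    rw [real_inner_comm (b 0), real_inner_comm (b 1), real_inner_comm (b 2)]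
    simpa using this.symm
  have h1 := hlow (b 1) (b.orthonormal.1 1)
  have h2 := hlow (b 2) (b.orthonormal.1 2)
  rw [hb] at htr'
  linarith

/-- A bound of the quadratic form on unit vectors extends to all vectors. -/
theorem quad_le_of_unit (A : E3 →L[ℝ] E3) {q : ℝ} (hup : ∀ ζ : E3, ‖ζ‖ = 1 → ⟪A ζ, ζ⟫ ≤ q)
    (w : E3) : ⟪w, A w⟫ ≤ q * ‖w‖ ^ 2 := by
  by_cases hw : w = 0
  · simp [hw]
  have hn : 0 < ‖w‖ := norm_pos_iff.mpr hw
  have h1 := hup (‖w‖⁻¹ • w) (by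
    rw [norm_smul, norm_inv, norm_norm, inv_mul_cancel₀ hn.ne'])
  rw [map_smul, real_inner_smul_left, real_inner_smul_right] at h1
  have h2 := mul_le_mul_of_nonneg_right h1 (sq_nonneg ‖w‖)
  rw [real_inner_comm]
  calc ⟪A w, w⟫ = (‖w‖⁻¹ * (‖w‖⁻¹ * ⟪A w, w⟫)) * ‖w‖ ^ 2 := by
        field_simp
    _ ≤ _ := h2

/-! ### The extremal rate -/

/-- The largest value of `s ⟨grad u(t,x) η, η⟩` over all points `x` and unit vectors `η`. -/
noncomputable def rate (u : ℝ → E3 → E3) (s t : ℝ) : ℝ :=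
  sSup {r : ℝ | ∃ x η : E3, ‖η‖ = 1 ∧ r = s * ⟪fderiv ℝ (u t) x η, η⟫}

/-- `(x, η)` is extremal for `s ⟨grad u(t,x) η, η⟩`. -/
def IsExt (u : ℝ → E3 → E3) (s t : ℝ) (x η : E3) : Prop :=
  ‖η‖ = 1 ∧ ∀ y ζ : E3, ‖ζ‖ = 1 →
    s * ⟪fderiv ℝ (u t) y ζ, ζ⟫ ≤ s * ⟪fderiv ℝ (u t) x η, η⟫

theorem exists_isExt (h : IsClassicalSolution T u p) {t : ℝ} (ht : t ∈ Ico 0 T) (s : ℝ) :
    ∃ x η : E3, IsExt u s t x η := by
  have hcM : Continuous (fun x => fderiv ℝ (u t) x) := by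
    have h1 := h.cont_M ht.1 ht.2
    have h2 : Continuous (fun x : E3 => (t, x)) := by fun_prop
    have h3 : ContinuousOn ((fun z : ℝ × E3 => fderiv ℝ (u z.1) z.2) ∘
        (fun x : E3 => (t, x))) univ :=
      ContinuousOn.comp h1 h2.continuousOn (fun x _ => ⟨⟨le_rfl, le_rfl⟩, mem_univ _⟩)
    exact continuousOn_univ.mp h3
  have hc : Continuous (fun z : E3 × E3 => s * ⟪fderiv ℝ (u t) z.1 z.2, z.2⟫) := by
    refine continuous_const.mul (Continuous.inner ?_ continuous_snd)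
    exact (hcM.comp continuous_fst).clm_apply continuous_snd
  have hK : IsCompact (closedBall (0 : E3) 13 ×ˢ sphere (0 : E3) 1) :=
    (isCompact_closedBall _ _).prod (isCompact_sphere _ _)
  have hne : (closedBall (0 : E3) 13 ×ˢ sphere (0 : E3) 1).Nonempty :=
    ⟨(0, e 0), by simp, by simp [e]⟩
  obtain ⟨⟨x, η⟩, ⟨_, hη⟩, hmax⟩ := hK.exists_isMaxOn hne hc.continuousOn
  refine ⟨x, η, by simpa using hη, ?_⟩
  intro y ζ hζ
  obtain ⟨v, hv, hv'⟩ := exists_shift y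
  have e1 : fderiv ℝ (u t) (y + v) = fderiv ℝ (u t) y :=
    hv' (E3 →L[ℝ] E3) _ (h.periodic_u t ht).fderiv y
  have h1 := hmax (show (y + v, ζ) ∈ closedBall (0 : E3) 13 ×ˢ sphere (0 : E3) 1 from
    ⟨by simpa using hv, by simpa using hζ⟩)
  change s * ⟪fderiv ℝ (u t) (y + v) ζ, ζ⟫ ≤ s * ⟪fderiv ℝ (u t) x η, η⟫ at h1
  rwa [e1] at h1

theorem rate_eq {s t : ℝ} {x η : E3} (hx : IsExt u s t x η) :
    rate u s t = s * ⟪fderiv ℝ (u t) x η, η⟫ := by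
  have hne : {r : ℝ | ∃ x η : E3, ‖η‖ = 1 ∧ r = s * ⟪fderiv ℝ (u t) x η, η⟫}.Nonempty :=
    ⟨_, x, η, hx.1, rfl⟩
  apply le_antisymm
  · apply csSup_le hne
    rintro r ⟨y, ζ, hζ, rfl⟩
    exact hx.2 y ζ hζ
  · apply le_csSup
    · refine ⟨s * ⟪fderiv ℝ (u t) x η, η⟫, ?_⟩
      rintro r ⟨y, ζ, hζ, rfl⟩
      exact hx.2 y ζ hζ
    · exact ⟨x, η, hx.1, rfl⟩

theorem le_rate (h : IsClassicalSolution T u p) {s t : ℝ} (ht : t ∈ Ico 0 T) (x : E3) {η : E3}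
    (hη : ‖η‖ = 1) : s * ⟪fderiv ℝ (u t) x η, η⟫ ≤ rate u s t := by
  obtain ⟨y, ζ, hy⟩ := exists_isExt h ht s
  rw [rate_eq hy]
  exact hy.2 x η hη

theorem cont_rate (h : IsClassicalSolution T u p) (s : ℝ) {β : ℝ} (hβ : β < T) :
    ContinuousOn (rate u s) (Icc 0 β) := by
  rw [Metric.continuousOn_iff]
  intro t ht ε hε
  obtain ⟨δ, hδ, hδ'⟩ := h.unif_M (le_refl (0:ℝ)) hβ (ε / (2 * (|s| + 1))) (by positivity)
  refine ⟨δ, hδ, ?_⟩
  have key : ∀ r ∈ Icc 0 β, ∀ t ∈ Icc 0 β, |r - t| < δ → rate u s r ≤ rate u s t + ε / 2 := by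
    intro r hr t ht hrt
    obtain ⟨x, η, hx⟩ := exists_isExt h (Icc_sub_Ico le_rfl hβ hr) s
    rw [rate_eq hx]
    have h1 := hδ' r hr t ht x x hrt (by simpa using hδ)
    have h2 := le_rate (s := s) h (Icc_sub_Ico le_rfl hβ ht) x hx.1
    have h3 : s * ⟪fderiv ℝ (u r) x η, η⟫ - s * ⟪fderiv ℝ (u t) x η, η⟫ ≤ ε / 2 := by
      have e1 : s * ⟪fderiv ℝ (u r) x η, η⟫ - s * ⟪fderiv ℝ (u t) x η, η⟫
          = s * ⟪(fderiv ℝ (u r) x - fderiv ℝ (u t) x) η, η⟫ := by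
        rw [_root_.sub_apply, inner_sub_left]; ring
      rw [e1]
      have h4 : |⟪(fderiv ℝ (u r) x - fderiv ℝ (u t) x) η, η⟫| ≤ ε / (2 * (|s| + 1)) := by
        refine (abs_real_inner_le_norm _ _).trans ?_
        rw [hx.1, mul_one]
        refine (ContinuousLinearMap.le_opNorm _ _).trans ?_
        rw [hx.1, mul_one]
        exact h1.le
      refine (le_abs_self _).trans ?_
      rw [abs_mul]
      calc |s| * |⟪(fderiv ℝ (u r) x - fderiv ℝ (u t) x) η, η⟫|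
          ≤ |s| * (ε / (2 * (|s| + 1))) := mul_le_mul_of_nonneg_left h4 (abs_nonneg _)
        _ ≤ (|s| + 1) * (ε / (2 * (|s| + 1))) := by
            apply mul_le_mul_of_nonneg_right (by linarith) (by positivity)
        _ = ε / 2 := by field_simp
    linarith
  intro r hr hrt
  rw [Real.dist_eq] at hrt ⊢
  have h1 := key r hr t ht hrt
  have h2 := key t ht r hr (by rwa [abs_sub_comm])
  rw [abs_lt]
  constructor <;> linarith

/-- Derivative of the quadratic form along a trajectory. -/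
theorem quad_along (h : IsClassicalSolution T u p) (hp : HasHessian T p) {a b : ℝ}
    (hab : Ioo a b ⊆ Ioo 0 T) {X : ℝ → E3} (hX : ∀ s ∈ Ioo a b, HasDerivAt X (u s (X s)) s) {t : ℝ}
    (ht : t ∈ Ioo a b) (s : ℝ) (v : E3) :
    HasDerivAt (fun r => s * ⟪fderiv ℝ (u r) (X r) v, v⟫)
      (s * (-⟪fderiv ℝ (u t) (X t) (fderiv ℝ (u t) (X t) v), v⟫
        - ⟪fderiv ℝ (gradient (p t)) (X t) v, v⟫)) t := by
  have h1 := (hasDerivAt_M h hp hab hX ht v).inner ℝ (hasDerivAt_const t v)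
  have h2 := h1.const_mul s
  have e1 : s * (-⟪fderiv ℝ (u t) (X t) (fderiv ℝ (u t) (X t) v), v⟫
        - ⟪fderiv ℝ (gradient (p t)) (X t) v, v⟫)
      = s * (⟪fderiv ℝ (u t) (X t) v, (0 : E3)⟫
        + ⟪-(fderiv ℝ (u t) (X t) (fderiv ℝ (u t) (X t) v)
          + fderiv ℝ (gradient (p t)) (X t) v), v⟫) := by
    rw [inner_zero_right, inner_neg_left, inner_add_left]
    ring
  rw [e1]
  exact h2

theorem lip_rate (h : IsClassicalSolution T u p) (hp : HasHessian T p) (s : ℝ) {α β : ℝ}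
    (hα : 0 < α) (hβ : β < T) : ∃ K : ℝ, 0 ≤ K ∧ ∀ r ∈ Icc α β, ∀ t ∈ Icc α β,
      rate u s t - rate u s r ≤ K * |t - r| := by
  rcases lt_or_ge β α with hlt | hle
  · refine ⟨0, le_rfl, fun r hr => ?_⟩
    exact absurd (hr.1.trans hr.2) (not_le.mpr hlt)
  set α' : ℝ := α / 2 with hα'
  set β' : ℝ := (β + T) / 2 with hβ'
  have h1 : 0 ≤ α' := by positivity
  have h2 : β' < T := by rw [hβ']; linarith
  have hsub : Icc α β ⊆ Ioo α' β' := fun s hs =>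
    ⟨by rw [hα']; linarith [hs.1], by rw [hβ']; linarith [hs.2]⟩
  obtain ⟨K, hK0, hK⟩ := h.bound_M h1 h2
  obtain ⟨B, hB0, hB⟩ := bound_P h hp h1 h2
  refine ⟨|s| * (K * K + B), by positivity, ?_⟩
  intro r hr t ht
  have htT : t ∈ Ico 0 T := ⟨hα.le.trans ht.1, ht.2.trans_lt hβ⟩
  have hrT : r ∈ Ico 0 T := ⟨hα.le.trans hr.1, hr.2.trans_lt hβ⟩
  obtain ⟨x, η, hx⟩ := exists_isExt h htT s
  obtain ⟨Φ, hΦ, -⟩ := h.exists_flow h1 h2 (Ioo_subset_Icc_self (hsub ht)) x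
  obtain ⟨hX0, hX⟩ := hΦ x (by simp)
  set X : ℝ → E3 := Φ x with hXdef
  have hX' : ∀ r ∈ Ioo α' β', HasDerivAt X (u r (X r)) r := fun r hr =>
    (hX r (Ioo_subset_Icc_self hr)).hasDerivAt (Icc_mem_nhds hr.1 hr.2)
  have hab : Ioo α' β' ⊆ Ioo 0 T := fun r hr =>
    ⟨(by positivity : (0:ℝ) < α').trans hr.1, hr.2.trans h2⟩
  have hbd : ∀ r ∈ Icc α β, ‖s * (-⟪fderiv ℝ (u r) (X r) (fderiv ℝ (u r) (X r) η), η⟫
        - ⟪fderiv ℝ (gradient (p r)) (X r) η, η⟫)‖ ≤ |s| * (K * K + B) := by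
    intro r hr
    have hr' := Ioo_subset_Icc_self (hsub hr)
    rw [norm_mul, Real.norm_eq_abs, Real.norm_eq_abs]
    refine mul_le_mul_of_nonneg_left ?_ (abs_nonneg _)
    have b1 : ‖fderiv ℝ (u r) (X r) η‖ ≤ K := by
      refine (ContinuousLinearMap.le_opNorm _ _).trans ?_
      rw [hx.1, mul_one]
      exact hK r hr' _
    have b2 : |⟪fderiv ℝ (u r) (X r) (fderiv ℝ (u r) (X r) η), η⟫| ≤ K * K := by
      refine (abs_real_inner_le_norm _ _).trans ?_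
      rw [hx.1, mul_one]
      exact (ContinuousLinearMap.le_opNorm _ _).trans
        (mul_le_mul (hK r hr' _) b1 (norm_nonneg _) hK0)
    have b3 : |⟪fderiv ℝ (gradient (p r)) (X r) η, η⟫| ≤ B := by
      refine (abs_real_inner_le_norm _ _).trans ?_
      rw [hx.1, mul_one]
      refine (ContinuousLinearMap.le_opNorm _ _).trans ?_
      rw [hx.1, mul_one]
      exact hB r hr' _
    refine (abs_sub _ _).trans ?_
    rw [abs_neg]
    linarith
  have := (convex_Icc α β).norm_image_sub_le_of_norm_hasDerivWithin_le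
    (f := fun r => s * ⟪fderiv ℝ (u r) (X r) η, η⟫)
    (fun r hr => (quad_along h hp hab hX' (hsub hr) s η).hasDerivWithinAt) hbd hr ht
  rw [rate_eq hx]
  have h3 := le_rate (s := s) h hrT (X r) hx.1
  rw [hX0] at this
  rw [Real.norm_eq_abs, Real.norm_eq_abs] at this
  have h4 := le_abs_self (s * ⟪fderiv ℝ (u t) x η, η⟫ - s * ⟪fderiv ℝ (u r) (X r) η, η⟫)
  linarith

/-- The derivative of the extremal rate, at any extremal point and direction. -/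
theorem deriv_rate (h : IsClassicalSolution T u p) (hp : HasHessian T p) {s : ℝ} (hs : s * s = 1)
    {t : ℝ} (ht : t ∈ Ioo 0 T) {x η : E3} (hx : IsExt u s t x η) {m' : ℝ}
    (hd : HasDerivAt (rate u s) m' t) :
    m' = s * (-(rate u s t) ^ 2 + 1 / 4 * (‖curl (u t) x‖ ^ 2 - ⟪curl (u t) x, η⟫ ^ 2)
      - ⟪fderiv ℝ (gradient (p t)) x η, η⟫) := by
  obtain ⟨X, hX0, hX, -⟩ := hasDerivAt_M_local h hp ht x
  have htt : t ∈ Ioo (t / 2) ((t + T) / 2) :=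
    ⟨by have := ht.1; linarith, by have := ht.2; linarith⟩
  have hab : Ioo (t / 2) ((t + T) / 2) ⊆ Ioo 0 T := fun r hr =>
    ⟨by have := ht.1; have := hr.1; linarith, by have := ht.2; have := hr.2; linarith⟩
  have hq := quad_along h hp hab hX htt s η
  rw [hX0] at hq
  have hsub := hd.sub hq
  have hmin : IsLocalMin (fun r => rate u s r - s * ⟪fderiv ℝ (u r) (X r) η, η⟫) t := by
    filter_upwards [Ioo_mem_nhds ht.1 ht.2] with r hr
    have h1 := le_rate (s := s) h ⟨hr.1.le, hr.2⟩ (X r) hx.1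
    have h2 : rate u s t - s * ⟪fderiv ℝ (u t) (X t) η, η⟫ = 0 := by
      rw [hX0, rate_eq hx, sub_self]
    rw [h2]
    linarith
  have h0 := hmin.hasDerivAt_eq_zero hsub
  have hsq := extremal_sq (fderiv ℝ (u t) x) hx.1 hs (fun ζ hζ => hx.2 x ζ hζ)
  have hcurl : axial (fderiv ℝ (u t) x) = curl (u t) x := rfl
  rw [hcurl] at hsq
  have hr2 : (rate u s t) ^ 2 = ⟪fderiv ℝ (u t) x η, η⟫ ^ 2 := by
    rw [rate_eq hx]
    calc (s * ⟪fderiv ℝ (u t) x η, η⟫) ^ 2 = (s * s) * ⟪fderiv ℝ (u t) x η, η⟫ ^ 2 := by ring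
      _ = _ := by rw [hs, one_mul]
  rw [hr2]
  rw [sub_eq_zero.mp h0, hsq]
  ring

end Pool.Agent.Work.MP_b0497c_an
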