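import Mathlib
import Pool.Agent.Work.MP_b0497c_an.Strain

set_option autoImplicit false
set_option maxHeartbeats 4000000

/-!
Comparison principles for the extremal rates of strain and for the vorticity.
-/

namespace Pool.Agent.Work.MP_b0497c_an

open Set RealInnerProductSpace Metric MeasureTheory Filter Topology

theorem ac_of_deriv {f f' : ℝ → ℝ} {a b : ℝ} (hab : a ≤ b)
    (hf : ∀ t ∈ Icc a b, HasDerivWithinAt f (f' t) (Icc a b) t) (hc : ContinuousOn f' (Icc a b)) :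
    AbsolutelyContinuousOnInterval f a b := by
  obtain ⟨C, hC⟩ := isCompact_Icc.exists_bound_of_continuousOn hc
  have hC0 : 0 ≤ C := (norm_nonneg _).trans (hC a ⟨le_rfl, hab⟩)
  have hl : LipschitzOnWith ⟨C, hC0⟩ f (uIcc a b) := by
    rw [uIcc_of_le hab]
    apply LipschitzOnWith.of_dist_le_mul
    intro x hx y hy
    rw [dist_eq_norm, dist_eq_norm]
    exact (convex_Icc a b).norm_image_sub_le_of_norm_hasDerivWithin_le hf hC hy hx
  exact hl.absolutelyContinuousOnInterval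

/-- A Gronwall type comparison for functions which are absolutely continuous away from the left
endpoint. -/
theorem gronwall_ae {a b : ℝ} (hab : a < b) {Z g : ℝ → ℝ} (hZc : ContinuousOn Z (Icc a b))
    (hZa : ∀ ε ∈ Ioo a b, AbsolutelyContinuousOnInterval Z ε b) (hg : ContinuousOn g (Icc a b))
    (hd : ∀ ε ∈ Ioo a b, ∀ᵐ t, t ∈ Ioo ε b → ∃ z', HasDerivAt Z z' t ∧ z' ≤ g t * Z t)
    (h0 : Z a ≤ 0) : Z b ≤ 0 := by
  set G : ℝ → ℝ := IccExtend hab.le ((Icc a b).domRestrict g) with hG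
  have hGc : Continuous G := by
    apply Continuous.Icc_extend'
    exact hg.domRestrict
  have hGg : ∀ t ∈ Icc a b, G t = g t := by
    intro t ht
    simp only [hG]
    rw [IccExtend_of_mem _ _ ht]
    rfl
  set J : ℝ → ℝ := fun t => ∫ s in a..t, G s with hJ
  have hJd : ∀ t, HasDerivAt J (G t) t := fun t =>
    hGc.integral_hasStrictDerivAt a t |>.hasDerivAt
  set E : ℝ → ℝ := fun t => Real.exp (-J t) with hE
  have hEd : ∀ t, HasDerivAt E (Real.exp (-J t) * -G t) t := fun t => (hJd t).neg.exp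
  have hJc : Continuous J := continuous_iff_continuousAt.mpr fun t => (hJd t).continuousAt
  have hEc : Continuous (fun t => Real.exp (-J t) * -G t) := by fun_prop
  have hEpos : ∀ t, 0 < E t := fun t => Real.exp_pos _
  have hEa : ∀ ε ∈ Ioo a b, AbsolutelyContinuousOnInterval E ε b := fun ε hε =>
    ac_of_deriv hε.2.le (fun t _ => (hEd t).hasDerivWithinAt) hEc.continuousOn
  have key : ∀ ε ∈ Ioo a b, Z b * E b ≤ Z ε * E ε := by
    intro ε hε
    have hac : AbsolutelyContinuousOnInterval (fun t => Z t * E t) ε b := (hZa ε hε).mul (hEa ε hε)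
    have h1 := hac.integral_deriv_eq_sub
    have h2 : ∫ t in ε..b, deriv (fun t => Z t * E t) t ≤ ∫ _ in ε..b, (0:ℝ) := by
      apply intervalIntegral.integral_mono_ae_restrict hε.2.le hac.intervalIntegrable_deriv
        (by simp)
      rw [EventuallyLE, ae_restrict_iff' measurableSet_Icc]
      have hne : ∀ᵐ s : ℝ, s ≠ ε ∧ s ≠ b := by
        have a1 : ∀ᵐ s : ℝ, s ≠ ε :=
          (measure_eq_zero_iff_ae_notMem.mp (by simp : volume ({ε} : Set ℝ) = 0)).mono
            (fun s hs => by simpa using hs)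
        have a2 : ∀ᵐ s : ℝ, s ≠ b :=
          (measure_eq_zero_iff_ae_notMem.mp (by simp : volume ({b} : Set ℝ) = 0)).mono
            (fun s hs => by simpa using hs)
        exact a1.and a2
      filter_upwards [hd ε hε, hne] with t ht hne ht'
      have htI : t ∈ Ioo ε b := ⟨lt_of_le_of_ne ht'.1 hne.1.symm, lt_of_le_of_ne ht'.2 hne.2⟩
      obtain ⟨z', hz', hle⟩ := ht htI
      have h3 := (hz'.mul (hEd t)).deriv
      have h4 : (fun t => Z t * E t) = Z * E := rfl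
      rw [h4, h3]
      have h5 := hGg t ⟨hε.1.le.trans ht'.1, ht'.2⟩
      have h6 : z' * E t + Z t * (Real.exp (-J t) * -G t) = (z' - g t * Z t) * E t := by
        simp only [hE]
        rw [h5]; ring
      rw [h6]
      exact mul_nonpos_of_nonpos_of_nonneg (by linarith) (hEpos t).le
    rw [h1] at h2
    simp only [intervalIntegral.integral_zero] at h2
    linarith
  have hlim : Tendsto (fun ε => Z ε * E ε) (𝓝[>] a) (𝓝 (Z a * E a)) := by
    have h1 : Tendsto Z (𝓝[Icc a b] a) (𝓝 (Z a)) := hZc a ⟨le_rfl, hab.le⟩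
    have h2 : 𝓝[>] a ≤ 𝓝[Icc a b] a := by
      rw [← nhdsWithin_Ioo_eq_nhdsGT hab]
      exact nhdsWithin_mono _ Ioo_subset_Icc_self
    have h3 : Tendsto E (𝓝[>] a) (𝓝 (E a)) :=
      ((hEd a).continuousAt.tendsto).mono_left nhdsWithin_le_nhds
    exact (h1.mono_left h2).mul h3
  have hfin : Z b * E b ≤ Z a * E a := by
    apply ge_of_tendsto hlim
    filter_upwards [Ioo_mem_nhdsGT hab] with ε hε
    exact key ε hε
  have h1 : Z a * E a ≤ 0 := mul_nonpos_of_nonpos_of_nonneg h0 (hEpos a).le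
  have h2 : Z b * E b ≤ 0 := hfin.trans h1
  by_contra hlt
  have := mul_pos (not_le.mp hlt) (hEpos b)
  linarith

variable {T : ℝ} {u : ℝ → E3 → E3} {p : ℝ → E3 → ℝ}

theorem ac_rate (h : IsClassicalSolution T u p) (hp : HasHessian T p) (s : ℝ) {α β : ℝ}
    (hα : 0 < α) (hab : α ≤ β) (hβ : β < T) : AbsolutelyContinuousOnInterval (rate u s) α β := by
  obtain ⟨K, hK0, hK⟩ := lip_rate h hp s hα hβ
  have hl : LipschitzOnWith ⟨K, hK0⟩ (rate u s) (uIcc α β) := by
    rw [uIcc_of_le hab]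
    apply LipschitzOnWith.of_dist_le_mul
    intro x hx y hy
    rw [Real.dist_eq, Real.dist_eq]
    change |rate u s x - rate u s y| ≤ K * |x - y|
    rw [abs_le]
    have h1 := hK y hy x hx
    have h2 := hK x hx y hy
    rw [abs_sub_comm] at h2
    constructor <;> linarith
  exact hl.absolutelyContinuousOnInterval

/-- Comparison principle for the extremal rate: the abstract form. `w` is a positive weight and
`w1` plays the role of its derivative (up to sign). -/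
theorem rate_compare (h : IsClassicalSolution T u p) (hp : HasHessian T p) {s : ℝ}
    (hs : s * s = 1) {t0 : ℝ} (ht0 : t0 ∈ Ico 0 T) {φ φ' φ'' : ℝ → ℝ}
    (hpos : ∀ t ∈ Ico t0 T, 0 < φ t)
    (hφ : ∀ t ∈ Ico t0 T, HasDerivWithinAt φ (φ' t) (Ico t0 T) t)
    (hφ' : ∀ t ∈ Ico t0 T, HasDerivWithinAt φ' (φ'' t) (Ico t0 T) t)
    (hφ'' : ContinuousOn φ'' (Ico t0 T))
    (hyp : ∀ᵐ t, t ∈ Ioo t0 T → ∃ x η : E3, IsExt u s t x η ∧
      s * (1 / 4 * (‖curl (u t) x‖ ^ 2 - ⟪curl (u t) x, η⟫ ^ 2)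
        - ⟪fderiv ℝ (gradient (p t)) x η, η⟫) ≤ s * (φ'' t / φ t))
    (h0 : rate u s t0 ≤ s * (φ' t0 / φ t0)) {t : ℝ} (ht : t ∈ Ico t0 T) :
    rate u s t ≤ s * (φ' t / φ t) := by
  rcases eq_or_lt_of_le ht.1 with heq | hlt
  · rw [← heq]; exact h0
  have htT : t < T := ht.2
  have hsub : Icc t0 t ⊆ Ico t0 T := fun r hr => ⟨hr.1, hr.2.trans_lt htT⟩
  have hrc : ContinuousOn (rate u s) (Icc t0 t) :=
    (cont_rate h s htT).mono (Icc_subset_Icc ht0.1 le_rfl)
  have hφc : ContinuousOn φ (Icc t0 t) := fun r hr =>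
    ((hφ r (hsub hr)).continuousWithinAt).mono hsub
  have hφ'c : ContinuousOn φ' (Icc t0 t) := fun r hr =>
    ((hφ' r (hsub hr)).continuousWithinAt).mono hsub
  have hZ : rate u s t * φ t - s * φ' t ≤ 0 := by
    refine gronwall_ae (Z := fun r => rate u s r * φ r - s * φ' r) (g := fun r => -s * rate u s r)
      hlt ?_ ?_ ?_ ?_ ?_
    · exact (hrc.mul hφc).sub (continuousOn_const.mul hφ'c)
    · intro ε hε
      have a1 := ac_rate h hp s (ht0.1.trans_lt hε.1) hε.2.le htT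
      have hsub' : Icc ε t ⊆ Ico t0 T := fun r hr => ⟨hε.1.le.trans hr.1, hr.2.trans_lt htT⟩
      have a2 : AbsolutelyContinuousOnInterval φ ε t :=
        ac_of_deriv hε.2.le (fun r hr => (hφ r (hsub' hr)).mono hsub')
          (hφ'c.mono (Icc_subset_Icc hε.1.le le_rfl))
      have a3 : AbsolutelyContinuousOnInterval φ' ε t :=
        ac_of_deriv hε.2.le (fun r hr => (hφ' r (hsub' hr)).mono hsub') (hφ''.mono hsub')
      exact (a1.mul a2).sub (a3.const_mul s)
    · exact continuousOn_const.mul hrc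
    · intro ε hε
      have a1 := (ac_rate h hp s (ht0.1.trans_lt hε.1) hε.2.le htT).ae_differentiableAt
      filter_upwards [a1, hyp] with r hr1 hr2 hr
      have hrI : r ∈ Ioo t0 T := ⟨hε.1.trans hr.1, hr.2.trans htT⟩
      have hrI0 : r ∈ Ioo 0 T := ⟨ht0.1.trans_lt hrI.1, hrI.2⟩
      obtain ⟨x, η, hx, hle⟩ := hr2 hrI
      have hdr := (hr1 (by rw [uIcc_of_le hε.2.le]; exact Ioo_subset_Icc_self hr)).hasDerivAt
      have hval := deriv_rate h hp hs hrI0 hx hdr
      have hnb : Ico t0 T ∈ 𝓝 r := mem_of_superset (Ioo_mem_nhds hrI.1 hrI.2) Ioo_subset_Ico_self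
      have hd1 := (hφ r (Ioo_subset_Ico_self hrI)).hasDerivAt hnb
      have hd2 := (hφ' r (Ioo_subset_Ico_self hrI)).hasDerivAt hnb
      refine ⟨_, (hdr.mul hd1).sub (hd2.const_mul s), ?_⟩
      have hφpos := hpos r (Ioo_subset_Ico_self hrI)
      have hle' := mul_le_mul_of_nonneg_right hle hφpos.le
      have e1 : s * (φ'' r / φ r) * φ r = s * φ'' r := by
        field_simp
      rw [e1] at hle'
      rw [hval]
      have e2 : s * (-(rate u s r) ^ 2 + 1 / 4 * (‖curl (u r) x‖ ^ 2 - ⟪curl (u r) x, η⟫ ^ 2)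
          - ⟪fderiv ℝ (gradient (p r)) x η, η⟫) * φ r + rate u s r * φ' r - s * φ'' r
          = (s * (1 / 4 * (‖curl (u r) x‖ ^ 2 - ⟪curl (u r) x, η⟫ ^ 2)
            - ⟪fderiv ℝ (gradient (p r)) x η, η⟫) * φ r - s * φ'' r)
            - s * (rate u s r) ^ 2 * φ r + (s * s) * rate u s r * φ' r := by
        rw [hs]; ring
      have e3 : -s * rate u s r * (rate u s r * φ r - s * φ' r)
          = - s * (rate u s r) ^ 2 * φ r + (s * s) * rate u s r * φ' r := by ring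
      rw [e2, e3]
      linarith
    · have hφ0 := hpos t0 ⟨le_rfl, ht0.2⟩
      have h1 := mul_le_mul_of_nonneg_right h0 hφ0.le
      have e1 : s * (φ' t0 / φ t0) * φ t0 = s * φ' t0 := by field_simp
      rw [e1] at h1
      change rate u s t0 * φ t0 - s * φ' t0 ≤ 0
      linarith
  have hφt := hpos t ht
  have e1 : s * (φ' t / φ t) = s * φ' t / φ t := by ring
  rw [e1, le_div_iff₀ hφt]
  linarith

/-- Growth of the vorticity controlled by a bound of the stretching rate. -/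
theorem vort_compare (h : IsClassicalSolution T u p) {t0 : ℝ} (ht0 : t0 ∈ Ico 0 T)
    {f f' : ℝ → ℝ} (hpos : ∀ t ∈ Ico t0 T, 0 < f t)
    (hf : ∀ t ∈ Ico t0 T, HasDerivWithinAt f (f' t) (Ico t0 T) t)
    (hst : ∀ t ∈ Ioo t0 T, ∀ x, ⟪curl (u t) x, fderiv ℝ (u t) x (curl (u t) x)⟫
      ≤ f' t / f t * ‖curl (u t) x‖ ^ 2) {W : ℝ} (hW : ∀ y, ‖curl (u t0) y‖ ≤ W)
    {t : ℝ} (ht : t ∈ Ico t0 T) (x : E3) : ‖curl (u t) x‖ ≤ f t / f t0 * W := by
  have hf0 := hpos t0 ⟨le_rfl, ht0.2⟩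
  rcases eq_or_lt_of_le ht.1 with heq | hlt
  · rw [← heq, div_self hf0.ne', one_mul]
    exact hW x
  have htT : t < T := ht.2
  have hft := hpos t ht
  obtain ⟨Φ, hΦ, -⟩ := h.exists_flow ht0.1 htT (t0 := t) ⟨hlt.le, le_rfl⟩ x
  obtain ⟨hX0, hX⟩ := hΦ x (by simp)
  set X : ℝ → E3 := Φ x with hXdef
  have hXc : ContinuousOn X (Icc t0 t) := fun r hr => (hX r hr).continuousWithinAt
  have hX' : ∀ r ∈ Ioo t0 t, HasDerivAt X (u r (X r)) r := fun r hr =>
    (hX r (Ioo_subset_Icc_self hr)).hasDerivAt (Icc_mem_nhds hr.1 hr.2)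
  have hab : Ioo t0 t ⊆ Ioo 0 T := fun r hr => ⟨ht0.1.trans_lt hr.1, hr.2.trans htT⟩
  have hsub : Icc t0 t ⊆ Ico t0 T := fun r hr => ⟨hr.1, hr.2.trans_lt htT⟩
  set N : ℝ → ℝ := fun r => ‖curl (u r) (X r)‖ ^ 2 * ((f r) ^ 2)⁻¹ with hN
  have hfc : ContinuousOn f (Icc t0 t) := fun r hr =>
    ((hf r (hsub hr)).continuousWithinAt).mono hsub
  have hNc : ContinuousOn N (Icc t0 t) := by
    have h1 : ContinuousOn (fun r => curl (u r) (X r)) (Icc t0 t) := by
      have h2 := h.cont_curl ht0.1 htT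
      have h3 : ContinuousOn (fun r => (r, X r)) (Icc t0 t) := continuousOn_id.prodMk hXc
      exact h2.comp h3 (fun r hr => ⟨hr, mem_univ _⟩)
    refine (h1.norm.pow 2).mul (ContinuousOn.inv₀ (hfc.pow 2) ?_)
    intro r hr
    have := hpos r (hsub hr)
    exact pow_ne_zero 2 this.ne'
  have hNd : ∀ r ∈ Ioo t0 t, ∃ N', HasDerivAt N N' r ∧ N' ≤ 0 := by
    intro r hr
    have hrT : r ∈ Ioo t0 T := ⟨hr.1, hr.2.trans htT⟩
    have hfr := hpos r (Ioo_subset_Ico_self hrT)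
    have hnb : Ico t0 T ∈ 𝓝 r := mem_of_superset (Ioo_mem_nhds hrT.1 hrT.2) Ioo_subset_Ico_self
    have d1 := (curl_along h hab hX' hr).norm_sq
    have d2 := ((hf r (Ioo_subset_Ico_self hrT)).hasDerivAt hnb).pow 2
    have d3 := d2.inv (pow_ne_zero 2 hfr.ne')
    have d4 := d1.mul d3
    refine ⟨_, d4, ?_⟩
    have hs := hst r hrT (X r)
    set w := curl (u r) (X r) with hw
    set q := ⟪w, fderiv ℝ (u r) (X r) w⟫ with hq
    have e1 : 2 * q * ((f r) ^ 2)⁻¹
        + ‖w‖ ^ 2 * (-(((2 : ℕ) : ℝ) * f r ^ (2 - 1) * f' r) / ((f r) ^ 2) ^ 2)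
        = 2 * ((f r) ^ 2)⁻¹ * (q - f' r / f r * ‖w‖ ^ 2) := by
      have hne := hfr.ne'
      field_simp
      norm_num
      ring
    have e2 : 2 * ((f r) ^ 2)⁻¹ * (q - f' r / f r * ‖w‖ ^ 2) ≤ 0 :=
      mul_nonpos_of_nonneg_of_nonpos (by positivity) (by linarith)
    calc _ = 2 * q * ((f r) ^ 2)⁻¹
        + ‖w‖ ^ 2 * (-(((2 : ℕ) : ℝ) * f r ^ (2 - 1) * f' r) / ((f r) ^ 2) ^ 2) := rfl
      _ ≤ 0 := by rw [e1]; exact e2
  have hanti : AntitoneOn N (Icc t0 t) := by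
    apply antitoneOn_of_deriv_nonpos (convex_Icc t0 t) hNc
    · rw [interior_Icc]
      intro r hr
      obtain ⟨N', hN', -⟩ := hNd r hr
      exact hN'.differentiableAt.differentiableWithinAt
    · rw [interior_Icc]
      intro r hr
      obtain ⟨N', hN', hle⟩ := hNd r hr
      rw [hN'.deriv]
      exact hle
  have h1 := hanti ⟨le_rfl, hlt.le⟩ ⟨hlt.le, le_rfl⟩ hlt.le
  simp only [hN] at h1
  rw [hX0] at h1
  have h2 : ‖curl (u t) x‖ ^ 2 ≤ (f t / f t0 * W) ^ 2 := by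
    have hW0 : ‖curl (u t0) (X t0)‖ ^ 2 ≤ W ^ 2 :=
      pow_le_pow_left₀ (norm_nonneg _) (hW _) 2
    have h3 := mul_le_mul_of_nonneg_right h1 (sq_nonneg (f t))
    calc ‖curl (u t) x‖ ^ 2 = ‖curl (u t) x‖ ^ 2 * ((f t) ^ 2)⁻¹ * f t ^ 2 := by
          field_simp
      _ ≤ ‖curl (u t0) (X t0)‖ ^ 2 * ((f t0) ^ 2)⁻¹ * f t ^ 2 := h3
      _ ≤ W ^ 2 * ((f t0) ^ 2)⁻¹ * f t ^ 2 := by
          apply mul_le_mul_of_nonneg_right _ (sq_nonneg _)
          exact mul_le_mul_of_nonneg_right hW0 (by positivity)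
      _ = (f t / f t0 * W) ^ 2 := by
          field_simp
  have hWn : 0 ≤ W := (norm_nonneg _).trans (hW x)
  exact (pow_le_pow_iff_left₀ (norm_nonneg _) (by positivity) two_ne_zero).mp h2

end Pool.Agent.Work.MP_b0497c_an
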