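import Mathlib
import Pool.Agent.Work.MP_b0497c_an.Compare

set_option autoImplicit false
set_option maxHeartbeats 4000000

/-!
Coupled comparison principle for the extremal rate of strain and the maximum of the vorticity.
-/

namespace Pool.Agent.Work.MP_b0497c_an

open Set RealInnerProductSpace Metric MeasureTheory Filter Topology

/-- Comparison for a cooperative pair of differential inequalities. -/
theorem gronwall_pair {a b : ℝ} (hab : a < b) {Z B g1 g2 h1 h2 : ℝ → ℝ}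
    (hZc : ContinuousOn Z (Icc a b)) (hBc : ContinuousOn B (Icc a b))
    (hZl : ∀ ε ∈ Ioo a b, ∃ K : NNReal, LipschitzOnWith K Z (Icc ε b))
    (hBl : ∀ ε ∈ Ioo a b, ∃ K : NNReal, LipschitzOnWith K B (Icc ε b))
    (hg1 : ContinuousOn g1 (Icc a b)) (hg2 : ContinuousOn g2 (Icc a b))
    (hh1 : ContinuousOn h1 (Icc a b)) (hh2 : ContinuousOn h2 (Icc a b))
    (hh1n : ∀ t ∈ Icc a b, 0 ≤ h1 t) (hh2n : ∀ t ∈ Icc a b, 0 ≤ h2 t)
    (hd : ∀ ε ∈ Ioo a b, ∀ᵐ t, t ∈ Ioo ε b → ∃ z' b', HasDerivAt Z z' t ∧ HasDerivAt B b' t ∧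
      z' ≤ g1 t * Z t + h1 t * B t ∧ b' ≤ g2 t * B t + h2 t * Z t)
    (hZ0 : Z a ≤ 0) (hB0 : B a ≤ 0) : Z b ≤ 0 ∧ B b ≤ 0 := by
  obtain ⟨C1, hC1⟩ := isCompact_Icc.exists_bound_of_continuousOn hg1
  obtain ⟨C2, hC2⟩ := isCompact_Icc.exists_bound_of_continuousOn hg2
  obtain ⟨C3, hC3⟩ := isCompact_Icc.exists_bound_of_continuousOn hh1
  obtain ⟨C4, hC4⟩ := isCompact_Icc.exists_bound_of_continuousOn hh2
  have ha : a ∈ Icc a b := ⟨le_rfl, hab.le⟩
  have hC10 := (norm_nonneg _).trans (hC1 a ha)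
  have hC20 := (norm_nonneg _).trans (hC2 a ha)
  have hC30 := (norm_nonneg _).trans (hC3 a ha)
  have hC40 := (norm_nonneg _).trans (hC4 a ha)
  have hmaxlip : ∀ {f : ℝ → ℝ} {ε : ℝ} {K : NNReal}, ε ∈ Ioo a b → LipschitzOnWith K f (Icc ε b) →
      AbsolutelyContinuousOnInterval (fun t => max (f t) 0) ε b := by
    intro f ε K hε hK
    have hl : LipschitzOnWith K (fun t => max (f t) 0) (uIcc ε b) := by
      rw [uIcc_of_le hε.2.le]
      apply LipschitzOnWith.of_dist_le_mul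
      intro x hx y hy
      refine le_trans ?_ (hK.dist_le_mul x hx y hy)
      rw [Real.dist_eq, Real.dist_eq]
      exact abs_max_sub_max_le_abs _ _ _
    exact hl.absolutelyContinuousOnInterval
  have hmaxder : ∀ {f : ℝ → ℝ} {f' t G : ℝ}, HasDerivAt f f' t →
      DifferentiableAt ℝ (fun t => max (f t) 0) t → (0 < f t → f' ≤ G) → 0 ≤ G →
      deriv (fun t => max (f t) 0) t ≤ G := by
    intro f f' t G hf hm hG hG0
    rcases lt_trichotomy (f t) 0 with hlt | heq | hgt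
    · have : (fun t => max (f t) 0) =ᶠ[𝓝 t] fun _ => 0 := by
        filter_upwards [hf.continuousAt.eventually_lt_const hlt] with r hr
        exact max_eq_right hr.le
      rw [this.deriv_eq]
      simpa using hG0
    · have hmin : IsLocalMin (fun t => max (f t) 0) t := by
        filter_upwards with r
        change max (f t) 0 ≤ max (f r) 0
        rw [heq, max_self]
        exact le_max_right _ _
      rw [hmin.deriv_eq_zero]
      exact hG0
    · have : (fun t => max (f t) 0) =ᶠ[𝓝 t] f := by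
        filter_upwards [hf.continuousAt.eventually_const_lt hgt] with r hr
        exact max_eq_left hr.le
      rw [this.deriv_eq, hf.deriv]
      exact hG hgt
  have key : max (Z b) 0 + max (B b) 0 ≤ 0 := by
    refine gronwall_ae (Z := fun t => max (Z t) 0 + max (B t) 0)
      (g := fun _ => C1 + C2 + C3 + C4) hab ?_ ?_ continuousOn_const ?_ ?_
    · exact (hZc.sup continuousOn_const).add (hBc.sup continuousOn_const)
    · intro ε hε
      obtain ⟨K1, hK1⟩ := hZl ε hε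
      obtain ⟨K2, hK2⟩ := hBl ε hε
      exact (hmaxlip hε hK1).add (hmaxlip hε hK2)
    · intro ε hε
      obtain ⟨K1, hK1⟩ := hZl ε hε
      obtain ⟨K2, hK2⟩ := hBl ε hε
      have a1 := (hmaxlip hε hK1).ae_differentiableAt
      have a2 := (hmaxlip hε hK2).ae_differentiableAt
      filter_upwards [a1, a2, hd ε hε] with t h1' h2' h3' ht
      have htu : t ∈ uIcc ε b := by rw [uIcc_of_le hε.2.le]; exact Ioo_subset_Icc_self ht
      obtain ⟨z', b', hz, hb, hzle, hble⟩ := h3' ht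
      have htI : t ∈ Icc a b := ⟨hε.1.le.trans ht.1.le, ht.2.le⟩
      refine ⟨_, (h1' htu).hasDerivAt.add (h2' htu).hasDerivAt, ?_⟩
      have p1 : 0 ≤ max (Z t) 0 := le_max_right _ _
      have p2 : 0 ≤ max (B t) 0 := le_max_right _ _
      have q1 : g1 t ≤ C1 := (le_abs_self _).trans (hC1 t htI)
      have q2 : g2 t ≤ C2 := (le_abs_self _).trans (hC2 t htI)
      have q3 : h1 t ≤ C3 := (le_abs_self _).trans (hC3 t htI)
      have q4 : h2 t ≤ C4 := (le_abs_self _).trans (hC4 t htI)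
      have d1 : deriv (fun t => max (Z t) 0) t ≤ C1 * max (Z t) 0 + C3 * max (B t) 0 := by
        refine hmaxder hz (h1' htu) ?_ (by positivity)
        intro hpos
        have e1 : max (Z t) 0 = Z t := max_eq_left hpos.le
        have e2 : h1 t * B t ≤ h1 t * max (B t) 0 :=
          mul_le_mul_of_nonneg_left (le_max_left _ _) (hh1n t htI)
        have e3 : h1 t * max (B t) 0 ≤ C3 * max (B t) 0 := mul_le_mul_of_nonneg_right q3 p2
        have e4 : g1 t * Z t ≤ C1 * Z t := mul_le_mul_of_nonneg_right q1 hpos.le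
        rw [e1]
        linarith
      have d2 : deriv (fun t => max (B t) 0) t ≤ C2 * max (B t) 0 + C4 * max (Z t) 0 := by
        refine hmaxder hb (h2' htu) ?_ (by positivity)
        intro hpos
        have e1 : max (B t) 0 = B t := max_eq_left hpos.le
        have e2 : h2 t * Z t ≤ h2 t * max (Z t) 0 :=
          mul_le_mul_of_nonneg_left (le_max_left _ _) (hh2n t htI)
        have e3 : h2 t * max (Z t) 0 ≤ C4 * max (Z t) 0 := mul_le_mul_of_nonneg_right q4 p1
        have e4 : g2 t * B t ≤ C2 * B t := mul_le_mul_of_nonneg_right q2 hpos.le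
        rw [e1]
        linarith
      have r1 : (C1 + C2 + C3 + C4) * (max (Z t) 0 + max (B t) 0)
          = (C1 * max (Z t) 0 + C3 * max (B t) 0) + (C2 * max (B t) 0 + C4 * max (Z t) 0)
            + ((C2 + C3) * max (Z t) 0 + (C1 + C4) * max (B t) 0) := by ring
      rw [r1]
      have r2 : 0 ≤ (C2 + C3) * max (Z t) 0 + (C1 + C4) * max (B t) 0 := by positivity
      linarith
    · rw [max_eq_right hZ0, max_eq_right hB0, add_zero]
  have p1 : 0 ≤ max (Z b) 0 := le_max_right _ _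
  have p2 : 0 ≤ max (B b) 0 := le_max_right _ _
  have p3 : Z b ≤ max (Z b) 0 := le_max_left _ _
  have p4 : B b ≤ max (B b) 0 := le_max_left _ _
  constructor <;> linarith

variable {T : ℝ} {u : ℝ → E3 → E3} {p : ℝ → E3 → ℝ}

theorem lipOn_of_deriv {f f' : ℝ → ℝ} {a b : ℝ} (hab : a ≤ b)
    (hf : ∀ t ∈ Icc a b, HasDerivWithinAt f (f' t) (Icc a b) t) (hc : ContinuousOn f' (Icc a b)) :
    ∃ K : NNReal, LipschitzOnWith K f (Icc a b) := by
  obtain ⟨C, hC⟩ := isCompact_Icc.exists_bound_of_continuousOn hc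
  have hC0 : 0 ≤ C := (norm_nonneg _).trans (hC a ⟨le_rfl, hab⟩)
  refine ⟨⟨C, hC0⟩, ?_⟩
  apply LipschitzOnWith.of_dist_le_mul
  intro x hx y hy
  rw [dist_eq_norm, dist_eq_norm]
  exact (convex_Icc a b).norm_image_sub_le_of_norm_hasDerivWithin_le hf hC hy hx

theorem lipOn_mul {f g : ℝ → ℝ} {a b : ℝ}
    (hf : ∃ K : NNReal, LipschitzOnWith K f (Icc a b))
    (hg : ∃ K : NNReal, LipschitzOnWith K g (Icc a b)) :
    ∃ K : NNReal, LipschitzOnWith K (fun t => f t * g t) (Icc a b) := by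
  obtain ⟨K1, hK1⟩ := hf
  obtain ⟨K2, hK2⟩ := hg
  obtain ⟨C1, hC1⟩ := isCompact_Icc.exists_bound_of_continuousOn hK1.continuousOn
  obtain ⟨C2, hC2⟩ := isCompact_Icc.exists_bound_of_continuousOn hK2.continuousOn
  refine ⟨(K1 * ‖C2‖₊ + ‖C1‖₊ * K2), ?_⟩
  apply LipschitzOnWith.of_dist_le_mul
  intro x hx y hy
  have d1 := hK1.dist_le_mul x hx y hy
  have d2 := hK2.dist_le_mul x hx y hy
  rw [Real.dist_eq] at d1 d2 ⊢
  have e1 : f x * g x - f y * g y = (f x - f y) * g x + f y * (g x - g y) := by ring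
  rw [e1]
  refine (abs_add_le _ _).trans ?_
  rw [abs_mul, abs_mul]
  have b1 : |g x| ≤ ‖C2‖ := (hC2 x hx).trans (le_abs_self _)
  have b2 : |f y| ≤ ‖C1‖ := (hC1 y hy).trans (le_abs_self _)
  have m1 : |f x - f y| * |g x| ≤ (K1 * dist x y) * ‖C2‖ :=
    mul_le_mul d1 b1 (abs_nonneg _) (by positivity)
  have m2 : |f y| * |g x - g y| ≤ ‖C1‖ * (K2 * dist x y) :=
    mul_le_mul b2 d2 (abs_nonneg _) (norm_nonneg _)
  have e2 : ((K1 * ‖C2‖₊ + ‖C1‖₊ * K2 : NNReal) : ℝ) * dist x y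
      = (K1 * dist x y) * ‖C2‖ + ‖C1‖ * (K2 * dist x y) := by
    push_cast
    ring
  rw [e2]
  linarith

theorem lipOn_sub {f g : ℝ → ℝ} {a b : ℝ}
    (hf : ∃ K : NNReal, LipschitzOnWith K f (Icc a b))
    (hg : ∃ K : NNReal, LipschitzOnWith K g (Icc a b)) :
    ∃ K : NNReal, LipschitzOnWith K (fun t => f t - g t) (Icc a b) := by
  obtain ⟨K1, hK1⟩ := hf
  obtain ⟨K2, hK2⟩ := hg
  exact ⟨K1 + K2, hK1.sub hK2⟩

theorem lipOn_rate (h : IsClassicalSolution T u p) (hp : HasHessian T p) (s : ℝ) {α β : ℝ}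
    (hα : 0 < α) (hβ : β < T) : ∃ K : NNReal, LipschitzOnWith K (rate u s) (Icc α β) := by
  obtain ⟨K, hK0, hK⟩ := lip_rate h hp s hα hβ
  refine ⟨⟨K, hK0⟩, ?_⟩
  apply LipschitzOnWith.of_dist_le_mul
  intro x hx y hy
  rw [Real.dist_eq, Real.dist_eq]
  change |rate u s x - rate u s y| ≤ K * |x - y|
  rw [abs_le]
  have h1 := hK y hy x hx
  have h2 := hK x hx y hy
  rw [abs_sub_comm] at h2
  constructor <;> linarith

theorem lipOn_maxVort (h : IsClassicalSolution T u p) {α β : ℝ}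
    (hα : 0 < α) (hβ : β < T) : ∃ K : NNReal, LipschitzOnWith K (maxVort u) (Icc α β) := by
  obtain ⟨K, hK0, hK⟩ := h.lip_maxVort hα hβ
  refine ⟨⟨K, hK0⟩, ?_⟩
  apply LipschitzOnWith.of_dist_le_mul
  intro x hx y hy
  rw [Real.dist_eq, Real.dist_eq]
  change |maxVort u x - maxVort u y| ≤ K * |x - y|
  rw [abs_le]
  have h1 := hK y hy x hx
  have h2 := hK x hx y hy
  rw [abs_sub_comm] at h2
  constructor <;> linarith

theorem maxVort_nonneg (h : IsClassicalSolution T u p) {t : ℝ} (ht : t ∈ Ico 0 T) :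
    0 ≤ maxVort u t := (norm_nonneg _).trans (h.le_maxVort ht 0)

/-- The coupled comparison principle. -/
theorem coupled_compare (h : IsClassicalSolution T u p) (hp : HasHessian T p) {s : ℝ}
    (hs : s * s = 1) {d : ℝ} (hd0 : 0 ≤ d)
    (hd : ∀ t ∈ Ioo 0 T, ∀ x, ⟪curl (u t) x, fderiv ℝ (u t) x (curl (u t) x)⟫
      ≤ d * rate u s t * ‖curl (u t) x‖ ^ 2)
    {t0 : ℝ} (ht0 : t0 ∈ Ico 0 T) {φ φ' φ'' k V V' : ℝ → ℝ} {κ : ℝ} (hκ : 0 ≤ κ)
    (hpos : ∀ t ∈ Ico t0 T, 0 < φ t)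
    (hφ : ∀ t ∈ Ico t0 T, HasDerivWithinAt φ (φ' t) (Ico t0 T) t)
    (hφ' : ∀ t ∈ Ico t0 T, HasDerivWithinAt φ' (φ'' t) (Ico t0 T) t)
    (hφ'' : ContinuousOn φ'' (Ico t0 T))
    (hVn : ∀ t ∈ Ico t0 T, 0 ≤ V t)
    (hV : ∀ t ∈ Ico t0 T, HasDerivWithinAt V (V' t) (Ico t0 T) t)
    (hV' : ∀ t ∈ Ico t0 T, V' t = d * (s * (φ' t / φ t)) * V t)
    (hode : ∀ t ∈ Ioo t0 T, (k t + κ * (V t) ^ 2) * φ t ≤ s * φ'' t)
    (hyp : ∀ᵐ t, t ∈ Ioo t0 T → ∃ x η y : E3, IsExt u s t x η ∧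
      s * (1 / 4 * (‖curl (u t) x‖ ^ 2 - ⟪curl (u t) x, η⟫ ^ 2)
        - ⟪fderiv ℝ (gradient (p t)) x η, η⟫) ≤ k t + κ * ‖curl (u t) y‖ ^ 2)
    (h0 : rate u s t0 ≤ s * (φ' t0 / φ t0)) (hω0 : ∀ y, ‖curl (u t0) y‖ ≤ V t0)
    {t : ℝ} (ht : t ∈ Ico t0 T) :
    rate u s t ≤ s * (φ' t / φ t) ∧ ∀ x, ‖curl (u t) x‖ ≤ V t := by
  rcases eq_or_lt_of_le ht.1 with heq | hlt
  · rw [← heq]; exact ⟨h0, hω0⟩
  have htT : t < T := ht.2
  have hsub : Icc t0 t ⊆ Ico t0 T := fun r hr => ⟨hr.1, hr.2.trans_lt htT⟩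
  have hrc : ContinuousOn (rate u s) (Icc t0 t) :=
    (cont_rate h s htT).mono (Icc_subset_Icc ht0.1 le_rfl)
  have hmc : ContinuousOn (maxVort u) (Icc t0 t) :=
    (h.cont_maxVort htT).mono (Icc_subset_Icc ht0.1 le_rfl)
  have hφc : ContinuousOn φ (Icc t0 t) := fun r hr =>
    ((hφ r (hsub hr)).continuousWithinAt).mono hsub
  have hφ'c : ContinuousOn φ' (Icc t0 t) := fun r hr =>
    ((hφ' r (hsub hr)).continuousWithinAt).mono hsub
  have hVc : ContinuousOn V (Icc t0 t) := fun r hr =>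
    ((hV r (hsub hr)).continuousWithinAt).mono hsub
  have hVφc : ContinuousOn (fun r => V r / φ r) (Icc t0 t) :=
    hVc.div hφc (fun r hr => (hpos r (hsub hr)).ne')
  have hV'c : ContinuousOn V' (Icc t0 t) := by
    have h1 : ContinuousOn (fun r => d * (s * (φ' r / φ r)) * V r) (Icc t0 t) :=
      (continuousOn_const.mul (continuousOn_const.mul
        (hφ'c.div hφc (fun r hr => (hpos r (hsub hr)).ne')))).mul hVc
    exact h1.congr (fun r hr => hV' r (hsub hr))
  have main := gronwall_pair (Z := fun r => rate u s r * φ r - s * φ' r)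
    (B := fun r => maxVort u r - V r) (g1 := fun r => -s * rate u s r)
    (g2 := fun r => d * rate u s r) (h1 := fun r => κ * φ r * (maxVort u r + V r))
    (h2 := fun r => d * (V r / φ r)) hlt
    ((hrc.mul hφc).sub (continuousOn_const.mul hφ'c)) (hmc.sub hVc) ?_ ?_
    (continuousOn_const.mul hrc) (continuousOn_const.mul hrc)
    ((continuousOn_const.mul hφc).mul (hmc.add hVc)) (continuousOn_const.mul hVφc) ?_ ?_ ?_ ?_ ?_
  · obtain ⟨hZ, hB⟩ := main
    have hφt := hpos t ht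
    refine ⟨?_, fun x => ?_⟩
    · have e1 : s * (φ' t / φ t) = s * φ' t / φ t := by ring
      rw [e1, le_div_iff₀ hφt]
      linarith
    · have := h.le_maxVort ⟨ht0.1.trans ht.1, ht.2⟩ x
      linarith
  · intro ε hε
    have hsub' : Icc ε t ⊆ Ico t0 T := fun r hr => ⟨hε.1.le.trans hr.1, hr.2.trans_lt htT⟩
    have a1 := lipOn_rate h hp s (ht0.1.trans_lt hε.1) htT
    have a2 : ∃ K : NNReal, LipschitzOnWith K φ (Icc ε t) :=
      lipOn_of_deriv hε.2.le (fun r hr => (hφ r (hsub' hr)).mono hsub')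
        (hφ'c.mono (Icc_subset_Icc hε.1.le le_rfl))
    have a3 : ∃ K : NNReal, LipschitzOnWith K φ' (Icc ε t) :=
      lipOn_of_deriv hε.2.le (fun r hr => (hφ' r (hsub' hr)).mono hsub') (hφ''.mono hsub')
    have a4 : ∃ K : NNReal, LipschitzOnWith K (fun _ : ℝ => s) (Icc ε t) :=
      ⟨0, (LipschitzWith.const s).lipschitzOnWith⟩
    exact lipOn_sub (lipOn_mul a1 a2) (lipOn_mul a4 a3)
  · intro ε hε
    have hsub' : Icc ε t ⊆ Ico t0 T := fun r hr => ⟨hε.1.le.trans hr.1, hr.2.trans_lt htT⟩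
    have a1 := lipOn_maxVort h (ht0.1.trans_lt hε.1) htT
    have a2 : ∃ K : NNReal, LipschitzOnWith K V (Icc ε t) :=
      lipOn_of_deriv hε.2.le (fun r hr => (hV r (hsub' hr)).mono hsub')
        (hV'c.mono (Icc_subset_Icc hε.1.le le_rfl))
    exact lipOn_sub a1 a2
  · intro r hr
    have h1 := hpos r (hsub hr)
    have h2 := maxVort_nonneg h ⟨ht0.1.trans hr.1, hr.2.trans_lt htT⟩
    have h3 := hVn r (hsub hr)
    positivity
  · intro r hr
    have h1 := hpos r (hsub hr)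
    have h3 := hVn r (hsub hr)
    positivity
  · intro ε hε
    obtain ⟨K1, hK1⟩ := lipOn_rate h hp s (ht0.1.trans_lt hε.1) htT
    obtain ⟨K2, hK2⟩ := lipOn_maxVort h (ht0.1.trans_lt hε.1) htT
    rw [← uIcc_of_le hε.2.le] at hK1 hK2
    have a1 := hK1.absolutelyContinuousOnInterval.ae_differentiableAt
    have a2 := hK2.absolutelyContinuousOnInterval.ae_differentiableAt
    filter_upwards [a1, a2, hyp] with r hr1 hr2 hr3 hr
    have hrI : r ∈ Ioo t0 T := ⟨hε.1.trans hr.1, hr.2.trans htT⟩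
    have hrI0 : r ∈ Ioo 0 T := ⟨ht0.1.trans_lt hrI.1, hrI.2⟩
    have hru : r ∈ uIcc ε t := by rw [uIcc_of_le hε.2.le]; exact Ioo_subset_Icc_self hr
    obtain ⟨x, η, y, hx, hle⟩ := hr3 hrI
    have hdr := (hr1 hru).hasDerivAt
    have hdm := (hr2 hru).hasDerivAt
    have hval := deriv_rate h hp hs hrI0 hx hdr
    have hrIco : r ∈ Ico t0 T := Ioo_subset_Ico_self hrI
    have hnb : Ico t0 T ∈ 𝓝 r := mem_of_superset (Ioo_mem_nhds hrI.1 hrI.2) Ioo_subset_Ico_self
    have hd1 := (hφ r hrIco).hasDerivAt hnb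
    have hd2 := (hφ' r hrIco).hasDerivAt hnb
    have hd3 := (hV r hrIco).hasDerivAt hnb
    have hφpos := hpos r hrIco
    have hrT : r ∈ Ico 0 T := ⟨hrI0.1.le, hrI0.2⟩
    refine ⟨_, _, (hdr.mul hd1).sub (hd2.const_mul s), hdm.sub hd3, ?_, ?_⟩
    · have hy := h.le_maxVort hrT y
      have hy2 : ‖curl (u r) y‖ ^ 2 ≤ (maxVort u r) ^ 2 := pow_le_pow_left₀ (norm_nonneg _) hy 2
      have hle2 : s * (1 / 4 * (‖curl (u r) x‖ ^ 2 - ⟪curl (u r) x, η⟫ ^ 2)
          - ⟪fderiv ℝ (gradient (p r)) x η, η⟫) ≤ k r + κ * (maxVort u r) ^ 2 :=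
        hle.trans (by have := mul_le_mul_of_nonneg_left hy2 hκ; linarith)
      have hle' := mul_le_mul_of_nonneg_right hle2 hφpos.le
      have ho := hode r hrI
      rw [hval]
      have e2 : s * (-(rate u s r) ^ 2 + 1 / 4 * (‖curl (u r) x‖ ^ 2 - ⟪curl (u r) x, η⟫ ^ 2)
          - ⟪fderiv ℝ (gradient (p r)) x η, η⟫) * φ r + rate u s r * φ' r - s * φ'' r
          = (s * (1 / 4 * (‖curl (u r) x‖ ^ 2 - ⟪curl (u r) x, η⟫ ^ 2)
            - ⟪fderiv ℝ (gradient (p r)) x η, η⟫) * φ r - s * φ'' r)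
            - s * (rate u s r) ^ 2 * φ r + (s * s) * rate u s r * φ' r := by
        rw [hs]; ring
      have e3 : -s * rate u s r * (rate u s r * φ r - s * φ' r)
          + κ * φ r * (maxVort u r + V r) * (maxVort u r - V r)
          = - s * (rate u s r) ^ 2 * φ r + (s * s) * rate u s r * φ' r
            + κ * (maxVort u r) ^ 2 * φ r - κ * (V r) ^ 2 * φ r := by ring
      rw [e2, e3]
      have e4 : (k r + κ * (maxVort u r) ^ 2) * φ r
          = k r * φ r + κ * (maxVort u r) ^ 2 * φ r := by ring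
      have e5 : (k r + κ * (V r) ^ 2) * φ r = k r * φ r + κ * (V r) ^ 2 * φ r := by ring
      rw [e4] at hle'
      rw [e5] at ho
      linarith
    · have hm : deriv (maxVort u) r ≤ d * rate u s r * maxVort u r := by
        obtain ⟨xm, hxm⟩ := h.exists_argmax hrT
        have hMx := maxVort_eq hxm
        rcases eq_or_lt_of_le (norm_nonneg (curl (u r) xm)) with hz | hz
        · have hz' : maxVort u r = 0 := by rw [hMx, ← hz]
          have hmin : IsLocalMin (maxVort u) r := by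
            filter_upwards [Ioo_mem_nhds hrI0.1 hrI0.2] with q hq
            rw [hz']
            exact maxVort_nonneg h ⟨hq.1.le, hq.2⟩
          rw [hmin.deriv_eq_zero, hz', mul_zero]
        · have h3 := h.deriv_maxVort hrI0 hxm hz hdm
          rw [h3, hMx, div_le_iff₀ hz]
          calc ⟪curl (u r) xm, fderiv ℝ (u r) xm (curl (u r) xm)⟫
              ≤ d * rate u s r * ‖curl (u r) xm‖ ^ 2 := hd r hrI0 xm
            _ = d * rate u s r * ‖curl (u r) xm‖ * ‖curl (u r) xm‖ := by ring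
      rw [hV' r hrIco]
      have e1 : d * rate u s r * (maxVort u r - V r)
          + d * (V r / φ r) * (rate u s r * φ r - s * φ' r)
          = d * rate u s r * maxVort u r - d * (s * (φ' r / φ r)) * V r := by
        field_simp
        ring
      rw [e1]
      linarith
  · have hφ0 := hpos t0 ⟨le_rfl, ht0.2⟩
    have h1 := mul_le_mul_of_nonneg_right h0 hφ0.le
    have e1 : s * (φ' t0 / φ t0) * φ t0 = s * φ' t0 := by field_simp
    rw [e1] at h1
    change rate u s t0 * φ t0 - s * φ' t0 ≤ 0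
    linarith
  · obtain ⟨xm, hxm⟩ := h.exists_argmax ht0
    change maxVort u t0 - V t0 ≤ 0
    rw [maxVort_eq hxm]
    linarith [hω0 xm]

end Pool.Agent.Work.MP_b0497c_an
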