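import Mathlib
import Pool.Agent.Work.MP_b0497c_an.Coupled

set_option autoImplicit false

namespace Pool.Agent.Work.MP_b0497c_an.CompressionResult

open Set MeasureTheory Filter Topology RealInnerProductSpace
open Pool.Agent.Work.MP_b0497c_an (IsClassicalSolution curl HasHessian PosC2 strain hessP
  MostCompressed)

/-- Comparison principle for the rate of compression: an upper bound of the pressure Hessian,
only in a most compressed direction and only at a point of maximal compression, controls the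
whole rate of strain and the vorticity. -/
theorem result (T : ℝ) (u : ℝ → EuclideanSpace ℝ (Fin 3) → EuclideanSpace ℝ (Fin 3))
    (p : ℝ → EuclideanSpace ℝ (Fin 3) → ℝ) (h : IsClassicalSolution T u p) (hp : HasHessian T p)
    (t0 : ℝ) (ht0 : t0 ∈ Ico 0 T) (k : ℝ → ℝ) (K : ℝ) (hK : 0 ≤ K) (f f' f'' : ℝ → ℝ)
    (hf : PosC2 t0 T f f' f'')
    (hode : ∀ t ∈ Ioo t0 T, f'' t + k t * f t + K / f t ^ 3 ≤ 0)
    (hvort : ∀ x, ‖curl (u t0) x‖ ≤ 1 / f t0 ^ 2)
    (hstrain : ∀ x n : EuclideanSpace ℝ (Fin 3), ‖n‖ = 1 → f' t0 / f t0 ≤ strain u t0 x n)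
    (hpress : ∀ᵐ t, t ∈ Ioo t0 T → ∃ x n y : EuclideanSpace ℝ (Fin 3), MostCompressed u t x n ∧
      hessP p t x n ≤ 1 / 4 * (‖curl (u t) x‖ ^ 2 - ⟪curl (u t) x, n⟫ ^ 2)
        + k t + K * ‖curl (u t) y‖ ^ 2) :
    ∀ t ∈ Ico t0 T, ∀ x : EuclideanSpace ℝ (Fin 3), ‖curl (u t) x‖ ≤ 1 / f t ^ 2 ∧
      ∀ n : EuclideanSpace ℝ (Fin 3), ‖n‖ = 1 →
        f' t / f t ≤ strain u t x n ∧ strain u t x n ≤ -2 * (f' t / f t) := by
  obtain ⟨hφ0, hφ1, hφ2, hφ3⟩ := hf
  have hstr : ∀ t ∈ Ioo 0 T, ∀ x, ⟪curl (u t) x, fderiv ℝ (u t) x (curl (u t) x)⟫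
      ≤ 2 * Pool.Agent.Work.MP_b0497c_an.rate u (-1) t * ‖curl (u t) x‖ ^ 2 := by
    intro t ht x
    have htT : t ∈ Ico 0 T := Ioo_subset_Ico_self ht
    apply Pool.Agent.Work.MP_b0497c_an.quad_le_of_unit
    intro ζ hζ
    have := Pool.Agent.Work.MP_b0497c_an.trace_upper _ (h.div_free t htT x)
      (q := -Pool.Agent.Work.MP_b0497c_an.rate u (-1) t) (fun ζ hζ => by
        have := Pool.Agent.Work.MP_b0497c_an.le_rate (s := -1) h htT x hζ
        linarith) hζ
    linarith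
  have main : ∀ t ∈ Ico t0 T, Pool.Agent.Work.MP_b0497c_an.rate u (-1) t
      ≤ (-1) * (f' t / f t) ∧ ∀ x, ‖curl (u t) x‖ ≤ ((f t) ^ 2)⁻¹ := by
    intro t ht
    refine Pool.Agent.Work.MP_b0497c_an.coupled_compare h hp (s := -1) (by norm_num)
      (d := 2) (by norm_num) hstr ht0 (k := k) (V := fun r => ((f r) ^ 2)⁻¹)
      (V' := fun r => -(2 * f r * f' r) / ((f r) ^ 2) ^ 2) hK hφ0 hφ1 hφ2 hφ3 ?_ ?_ ?_ ?_ ?_ ?_
      ?_ ht
    · intro r hr
      have := hφ0 r hr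
      positivity
    · intro r hr
      have h1 := (hφ1 r hr).pow 2
      have h2 := h1.inv (pow_ne_zero 2 (hφ0 r hr).ne')
      have e1 : -(2 * f r * f' r) / ((f r) ^ 2) ^ 2
          = -(((2 : ℕ) : ℝ) * f r ^ (2 - 1) * f' r) / ((f r) ^ 2) ^ 2 := by norm_num
      rw [e1]
      exact h2
    · intro r hr
      have := (hφ0 r hr).ne'
      field_simp
    · intro r hr
      have hne := (hφ0 r (Ioo_subset_Ico_self hr)).ne'
      have h1 := hode r hr
      have e1 : (k r + K * (((f r) ^ 2)⁻¹) ^ 2) * f r = k r * f r + K / f r ^ 3 := by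
        field_simp
      rw [e1]
      linarith
    · filter_upwards [hpress] with r hr hrI
      obtain ⟨x, η, y, ⟨hη, hmin⟩, hle⟩ := hr hrI
      refine ⟨x, η, y, ⟨hη, ?_⟩, ?_⟩
      · intro z ζ hζ
        have := hmin z ζ hζ
        unfold strain at this
        linarith
      · unfold hessP at hle
        linarith
    · obtain ⟨x, η, hx⟩ := Pool.Agent.Work.MP_b0497c_an.exists_isExt h ht0 (-1)
      rw [Pool.Agent.Work.MP_b0497c_an.rate_eq hx]
      have := hstrain x η hx.1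
      unfold strain at this
      linarith
    · intro y
      have := hvort y
      rwa [one_div] at this
  have hlow : ∀ t ∈ Ico t0 T, ∀ x η : EuclideanSpace ℝ (Fin 3), ‖η‖ = 1 →
      f' t / f t ≤ ⟪fderiv ℝ (u t) x η, η⟫ := by
    intro t ht x η hη
    have h1 := Pool.Agent.Work.MP_b0497c_an.le_rate (s := -1) h ⟨ht0.1.trans ht.1, ht.2⟩ x hη
    have h2 := (main t ht).1
    linarith
  intro t ht x
  refine ⟨?_, fun η hη => ⟨hlow t ht x η hη, ?_⟩⟩
  · rw [one_div]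
    exact (main t ht).2 x
  · exact Pool.Agent.Work.MP_b0497c_an.trace_upper _ (h.div_free t ⟨ht0.1.trans ht.1, ht.2⟩ x)
      (fun ζ hζ => hlow t ht x ζ hζ) hη

end Pool.Agent.Work.MP_b0497c_an.CompressionResult
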