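import Mathlib
import Pool.Agent.Work.MP_b0497c_an.Damp.Ric
import Pool.Agent.Work.MP_b0497c_an.Disp.Core
import Pool.Agent.Work.MP_b0497c_an.Disp.Conv
import Pool.Agent.Work.MP_b0497c_an.Disp.Basic
import Pool.Agent.Work.MP_b0497c_an.Disp.Energy
import Pool.Agent.Work.MP_b0497c_an.Disp.Unique
import Pool.Agent.Work.MP_b0497c_an.Disp.Symm
import Pool.Agent.Work.MP_b0497c_an.Disp.HatSym
import Pool.Agent.Work.MP_b0497c_an.Disp.Ode
import Pool.Agent.Work.MP_b0497c_an.Disp.Datum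
import Pool.Agent.Work.MP_b0497c_an.Disp.Hat
import Pool.Agent.Work.MP_b0497c_an.Disp.Symbol
import Pool.Agent.Work.MP_b0497c_an.Disp.Eig
import Pool.Agent.Work.MP_b0497c_an.Disp.Freq
import Pool.Agent.Work.MP_b0497c_an.Disp.Kn
import Pool.Agent.Work.MP_b0497c_an.Disp.Closed
import Pool.Agent.Work.MP_b0497c_an.Disp.Nonres
import Pool.Agent.Work.MP_b0497c_an.Disp.Res
import Pool.Agent.Work.MP_b0497c_an.Disp.Lin
import Pool.Agent.Work.MP_b0497c_an.Disp.Axis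
import Pool.Agent.Work.MP_b0497c_an.Disp.Comp
import Pool.Agent.Work.MP_b0497c_an.Disp.Parts
import Pool.Agent.Work.MP_b0497c_an.Disp.Term
import Pool.Agent.Work.MP_b0497c_an.Disp.Sum
import Pool.Agent.Work.MP_b0497c_an.Disp.Rem
import Pool.Agent.Work.MP_b0497c_an.Disp.Stay
import Pool.Agent.Work.MP_b0497c_an.Disp.Quad
import Pool.Agent.Work.MP_b0497c_an.Disp.Blow
import Pool.Agent.Work.MP_b0497c_an.Disp.Life
import Pool.Agent.Work.MP_b0497c_an.Disp.Coeff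
import Pool.Agent.Work.MP_b0497c_an.Disp.Build
import Pool.Agent.Work.MP_b0497c_an.Disp.Max

set_option autoImplicit false

/-!
Finite time blow-up for the Euler nonlinearity with an energy conserving dispersive term.
-/

namespace Pool.Agent.Work.MP_b0497c_an.DispersionResult

open Set MeasureTheory RealInnerProductSpace Pool.Agent.Work.MP_b0497c_an
open Pool.Agent.Work.MP_b0497c_an.Dec (cube phase vec)
open Pool.Agent.Work.MP_b0497c_an.Disp (rx IsFreq X sym freq)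

/-- The divergence of `f` at `x`. -/
noncomputable def divg (f : EuclideanSpace ℝ (Fin 3) → EuclideanSpace ℝ (Fin 3))
    (x : EuclideanSpace ℝ (Fin 3)) : ℝ :=
  LinearMap.trace ℝ (EuclideanSpace ℝ (Fin 3)) (fderiv ℝ f x)

/-- `∂ₜ u + (u · ∇) u` at `(t, x)`; the time derivative is one-sided at `t = 0`. -/
noncomputable def accel (T : ℝ) (u : ℝ → EuclideanSpace ℝ (Fin 3) → EuclideanSpace ℝ (Fin 3))
    (t : ℝ) (x : EuclideanSpace ℝ (Fin 3)) : EuclideanSpace ℝ (Fin 3) :=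
  derivWithin (fun s => u s x) (Ico 0 T) t + fderiv ℝ (u t) x (u t x)

/-- The integral of `cos (k · x) (f x · c)` over the torus. -/
noncomputable def cosInt (k : Fin 3 → ℤ) (c : EuclideanSpace ℝ (Fin 3))
    (f : EuclideanSpace ℝ (Fin 3) → EuclideanSpace ℝ (Fin 3)) : ℝ :=
  ∫ x in cube, Real.cos (phase k x) * ⟪f x, c⟫

/-- The integral of `sin (k · x) (f x · c)` over the torus. -/
noncomputable def sinInt (k : Fin 3 → ℤ) (c : EuclideanSpace ℝ (Fin 3))
    (f : EuclideanSpace ℝ (Fin 3) → EuclideanSpace ℝ (Fin 3)) : ℝ :=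
  ∫ x in cube, Real.sin (phase k x) * ⟪f x, c⟫

/-- `u` is a classical solution on `[0, T)` of the equations
`∂ₜ u + (u · ∇) u + ∇ p + L u = 0`, `div u = 0` on the torus, where `L` is the Fourier multiplier
with the symbol `i B`, that is, the Fourier coefficient of `L u` at `k` is `i B k` applied to the
one of `u`: `u` is `C¹` in `(t, x)`, `u t` is periodic and divergence free, and the equation holds
against all divergence free modes `cos (k · x) c` and `sin (k · x) c`, `k · c = 0`.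
(If `B = 0` this is the Euler equation.) -/
structure IsSolution (B : (Fin 3 → ℤ) → EuclideanSpace ℝ (Fin 3) → EuclideanSpace ℝ (Fin 3))
    (T : ℝ) (u : ℝ → EuclideanSpace ℝ (Fin 3) → EuclideanSpace ℝ (Fin 3)) : Prop where
  contDiff_u : ContDiffOn ℝ 1 (fun z : ℝ × EuclideanSpace ℝ (Fin 3) => u z.1 z.2)
    (Ico 0 T ×ˢ univ)
  periodic : ∀ t ∈ Ico 0 T, Periodic3 (u t)
  div_free : ∀ t ∈ Ico 0 T, ∀ x, divg (u t) x = 0
  cos_eq : ∀ t ∈ Ico 0 T, ∀ (k : Fin 3 → ℤ) (c : EuclideanSpace ℝ (Fin 3)), ⟪vec k, c⟫ = 0 →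
    cosInt k c (accel T u t) + sinInt k (B k c) (u t) = 0
  sin_eq : ∀ t ∈ Ico 0 T, ∀ (k : Fin 3 → ℤ) (c : EuclideanSpace ℝ (Fin 3)), ⟪vec k, c⟫ = 0 →
    sinInt k c (accel T u t) - cosInt k (B k c) (u t) = 0

/-- `v` is a divergence free trigonometric polynomial which commutes with `rx`. -/
structure IsDatum (v : EuclideanSpace ℝ (Fin 3) → EuclideanSpace ℝ (Fin 3)) : Prop where
  trig : ∃ (F : Finset (Fin 3 → ℤ)) (b c : (Fin 3 → ℤ) → EuclideanSpace ℝ (Fin 3)), ∀ x,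
    v x = ∑ k ∈ F, (Real.cos (phase k x) • b k + Real.sin (phase k x) • c k)
  symm : ∀ x : EuclideanSpace ℝ (Fin 3), v (rx x) = rx (v x)
  div_free : ∀ x, divg v x = 0

/-- Twice the kinetic energy of `f`. -/
noncomputable def energy (f : EuclideanSpace ℝ (Fin 3) → EuclideanSpace ℝ (Fin 3)) : ℝ :=
  ∫ x in cube, ‖f x‖ ^ 2

/-- `v` has a nonzero Fourier coefficient on the chain `X`. -/
def Charged (v : EuclideanSpace ℝ (Fin 3) → EuclideanSpace ℝ (Fin 3)) : Prop :=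
  ∃ k ∈ X, (∫ x in cube, Real.cos (phase k x) • v x ≠ 0) ∨
    ∫ x in cube, Real.sin (phase k x) • v x ≠ 0

/-- `u` is a classical solution on `[0, T)` with the symbol `Ω • sym ω` and the datum `v`. -/
def Solves (Ω : ℝ) (ω : (Fin 3 → ℤ) → ℝ) (T : ℝ)
    (v : EuclideanSpace ℝ (Fin 3) → EuclideanSpace ℝ (Fin 3))
    (u : ℝ → EuclideanSpace ℝ (Fin 3) → EuclideanSpace ℝ (Fin 3)) : Prop :=
  IsSolution (fun k c => Ω • sym ω k c) T u ∧ ∀ x, u 0 x = v x

theorem solution_iff (B : (Fin 3 → ℤ) → EuclideanSpace ℝ (Fin 3) → EuclideanSpace ℝ (Fin 3))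
    (T : ℝ) (u : ℝ → EuclideanSpace ℝ (Fin 3) → EuclideanSpace ℝ (Fin 3)) :
    IsSolution B T u ↔ Disp.IsSolution B T u :=
  ⟨fun h => ⟨h.1, h.2, h.3, h.4, h.5⟩, fun h => ⟨h.1, h.2, h.3, h.4, h.5⟩⟩

/-- **Finite time blow-up for the full Euler nonlinearity with an energy conserving dispersive
term.** -/
theorem result :
    (∀ m : ℕ, 3 ≤ m → IsFreq (freq m) ∧ ∀ k : Fin 3 → ℤ,
      ‖vec k‖ ^ (3 * m) ≤ freq m k ∧ freq m k ≤ 16 * (1 + 2 * ‖vec k‖) ^ (3 * m)) ∧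
    (∀ (ω : (Fin 3 → ℤ) → ℝ) (Ω T : ℝ)
      (v : EuclideanSpace ℝ (Fin 3) → EuclideanSpace ℝ (Fin 3))
      (u : ℝ → EuclideanSpace ℝ (Fin 3) → EuclideanSpace ℝ (Fin 3)), IsFreq ω →
      Solves Ω ω T v u → ∀ t ∈ Ico 0 T, energy (u t) = energy v) ∧
    ∀ v : EuclideanSpace ℝ (Fin 3) → EuclideanSpace ℝ (Fin 3), IsDatum v → Charged v →
      ∃ c : ℝ, 0 < c ∧ ∀ (A Ω : ℝ) (ω : (Fin 3 → ℤ) → ℝ), 0 < A → A ≤ c * Ω → IsFreq ω →
        (∀ (T : ℝ) (u u' : ℝ → EuclideanSpace ℝ (Fin 3) → EuclideanSpace ℝ (Fin 3)),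
          Solves Ω ω T (A • v) u → Solves Ω ω T (A • v) u' → ∀ t ∈ Ico 0 T, u t = u' t) ∧
        ∃ Ts : ℝ, 0 < Ts ∧ c * A * Ts ≤ 1 ∧ ∀ T, 0 < T →
          ((∃ u, Solves Ω ω T (A • v) u) ↔ T ≤ Ts) := by
  have hTerm := Disp.claimTerm Disp.claimEig (Disp.claimLin Disp.claimEig) Disp.claimAxis
    (Disp.claimComp Disp.claimEig (Disp.claimLin Disp.claimEig)) Disp.claimParts
    (Disp.claimNonres (Disp.claimClosed Disp.claimKn))
  have hRem := Disp.claimRem Disp.claimKn (Disp.claimRes Disp.claimKn (Disp.claimLin Disp.claimEig))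
    hTerm Disp.claimSum
  have hStay := Disp.claimStay (Disp.claimLin Disp.claimEig)
    (Disp.claimComp Disp.claimEig (Disp.claimLin Disp.claimEig))
  have hLife := Disp.claimLife Disp.claimKn Disp.claimEig (Disp.claimLin Disp.claimEig) hRem hStay
    (Disp.claimBlow Disp.claimQuad Damp.claimRic)
  have hHat := Disp.claimHat Disp.claimBasic Disp.claimEnergy Disp.claimSymm Disp.claimHatSym
    (Disp.claimOde Disp.claimConv)
  refine ⟨Disp.claimFreq, fun ω Ω T v u hω hu t ht => ?_, fun v hv hX => ?_⟩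
  · rw [energy, Disp.claimEnergy _ T u (Disp.claimSymbol ω Ω hω) ((solution_iff _ _ _).1 hu.1) t ht]
    simp only [hu.2, energy]
  · obtain ⟨c, hc, h⟩ := Disp.main_of Disp.claimBasic Disp.claimHatSym Disp.claimDatum Disp.claimKn
      (Disp.claimLin Disp.claimEig) hHat Disp.claimSymbol hLife Disp.claimUnique Disp.claimCoeff
      (Disp.claimBuild Disp.claimConv) (Disp.claimMax Disp.claimUnique) v ⟨hv.1, hv.2, hv.3⟩ hX
    refine ⟨c, hc, fun A Ω ω hA hAΩ hω => ?_⟩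
    obtain ⟨h1, Ts, hTs, h2, h3⟩ := h A Ω ω hA hAΩ hω
    refine ⟨fun T u u' hu hu' => h1 T u u' ((solution_iff _ _ _).1 hu.1)
      ((solution_iff _ _ _).1 hu'.1) hu.2 hu'.2, Ts, hTs, h2, fun T hT => ?_⟩
    rw [← h3 T hT]
    simp only [Solves, solution_iff, Pi.smul_apply]

end Pool.Agent.Work.MP_b0497c_an.DispersionResult
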