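import Mathlib
import Pool.Agent.Work.MP_b0497c_an.Weak.Coeff

set_option autoImplicit false

namespace Pool.Agent.Results.MP_b0497c_an.LargeScales

open scoped ContDiff
open Pool.Agent.Work.MP_b0497c_an (Periodic3)
open Pool.Agent.Work.MP_b0497c_an.Weak (Near Steady GlobalSol Grows)

/-- Neither finitely many Fourier coefficients nor closeness in `W^{-1,∞}` exclude global
smoothness together with growth of the vorticity. -/
theorem result (u0 : EuclideanSpace ℝ (Fin 3) → EuclideanSpace ℝ (Fin 3))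
    (hu : ContDiff ℝ 1 u0) (hp : Periodic3 u0)
    (hd : ∀ x, LinearMap.trace ℝ (EuclideanSpace ℝ (Fin 3)) (fderiv ℝ u0 x) = 0)
    (ε : ℝ) (hε : 0 < ε) (K : ℕ) (M : ℝ) :
    ∃ (v : EuclideanSpace ℝ (Fin 3) → EuclideanSpace ℝ (Fin 3))
      (u : ℝ → EuclideanSpace ℝ (Fin 3) → EuclideanSpace ℝ (Fin 3))
      (p : ℝ → EuclideanSpace ℝ (Fin 3) → ℝ),
      Steady v ∧ Near ε K u0 v ∧ GlobalSol u p ∧ (∀ t x, ‖u t x - v x‖ ≤ ε) ∧
        (∀ t, Near ε K u0 (u t)) ∧ Grows ε M u := by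
  obtain ⟨v, u, p, h1, h2, h3, h4, h5, h6, h7, h8, h9⟩ :=
    Pool.Agent.Work.MP_b0497c_an.Weak.main hu hp hd hε K M
  exact ⟨v, u, p, ⟨h1, h2, h3, h4⟩, h5.near hu.continuous h1.continuous,
    ⟨h6.smooth_u, h6.smooth_p, h6.isClassical⟩, h7,
    fun t => (h8 t).near hu.continuous (h6.smooth_x t).continuous, h9⟩

end Pool.Agent.Results.MP_b0497c_an.LargeScales
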