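import Mathlib
import Pool.Agent.Work.MP_b0497c_an.MaxPrincipleAE

set_option autoImplicit false

namespace Pool.Agent.Work.MP_b0497c_an.RankOneResult

open Set MeasureTheory Filter Topology RealInnerProductSpace
open Pool.Agent.Work.MP_b0497c_an (IsClassicalSolution curl)

/-- No singularity if, for almost every time, at one point of maximal vorticity the velocity
gradient is close to the rank-one matrices. -/
theorem result (T : ℝ) (u : ℝ → EuclideanSpace ℝ (Fin 3) → EuclideanSpace ℝ (Fin 3))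
    (p : ℝ → EuclideanSpace ℝ (Fin 3) → ℝ) (h : IsClassicalSolution T u p)
    (Φ : ℝ → ℝ) (hΦc : ContinuousOn Φ (Ioi 0)) (hΦpos : ∀ s, 0 < s → 0 < Φ s)
    (hΦ : Tendsto (fun R : ℝ => ∫ s in (1 : ℝ)..R, 1 / (s * Φ s)) atTop atTop)
    (g : ℝ → ℝ) (hg : IntegrableOn g (Ioo 0 T)) (hg0 : ∀ᵐ t, t ∈ Ioo 0 T → 0 ≤ g t)
    (hyp : ∀ᵐ t, t ∈ Ioo 0 T → ∃ x, (∀ y, ‖curl (u t) y‖ ≤ ‖curl (u t) x‖) ∧
      ∃ n : EuclideanSpace ℝ (Fin 3), ‖n‖ = 1 ∧ ∀ v : EuclideanSpace ℝ (Fin 3), ⟪n, v⟫ = 0 →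
        ‖fderiv ℝ (u t) x v‖ ≤ g t * Φ ‖curl (u t) x‖ * ‖v‖) :
    (∀ m : ℝ, 0 < m → (∀ y, ‖curl (u 0) y‖ ≤ m) → ∀ t ∈ Ico 0 T, ∀ x,
      m ≤ ‖curl (u t) x‖ →
        ∫ s in m..‖curl (u t) x‖, 1 / (s * Φ s) ≤ 2 * ∫ s in (0 : ℝ)..t, g s) ∧
    ∃ B : ℝ, ∀ t ∈ Ico 0 T, ∀ x, ‖curl (u t) x‖ ≤ B := by
  have hyp' : ∀ᵐ t, t ∈ Ioo 0 T → ∃ x, (∀ y, ‖curl (u t) y‖ ≤ ‖curl (u t) x‖) ∧
      ⟪curl (u t) x, fderiv ℝ (u t) x (curl (u t) x)⟫
        ≤ (2 * g t) * Φ ‖curl (u t) x‖ * ‖curl (u t) x‖ ^ 2 := by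
    filter_upwards [hyp] with t hyp ht
    obtain ⟨x, hx, n, hn, hv⟩ := hyp ht
    refine ⟨x, hx, ?_⟩
    have h1 := Pool.Agent.Work.MP_b0497c_an.stretching_le (fderiv ℝ (u t) x)
      (h.div_free t ⟨ht.1.le, ht.2⟩ x) n hn (g t * Φ ‖curl (u t) x‖) hv
    have h2 := (le_abs_self _).trans h1
    calc ⟪curl (u t) x, fderiv ℝ (u t) x (curl (u t) x)⟫
        ≤ 2 * (g t * Φ ‖curl (u t) x‖) * ‖curl (u t) x‖ ^ 2 := h2
      _ = (2 * g t) * Φ ‖curl (u t) x‖ * ‖curl (u t) x‖ ^ 2 := by ring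
  have main : ∀ m : ℝ, 0 < m → (∀ y, ‖curl (u 0) y‖ ≤ m) → ∀ t ∈ Ico 0 T, ∀ x,
      m ≤ ‖curl (u t) x‖ →
        ∫ s in m..‖curl (u t) x‖, 1 / (s * Φ s) ≤ 2 * ∫ s in (0 : ℝ)..t, g s := by
    intro m hm h0 t ht x hx
    have := Pool.Agent.Work.MP_b0497c_an.vorticity_max_principle_ae h hΦc hΦpos
      (hg.const_mul 2) (by filter_upwards [hg0] with t h0 ht; have := h0 ht; positivity)
      hyp' hm h0 ht x hx
    rwa [intervalIntegral.integral_const_mul] at this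
  refine ⟨main, ?_⟩
  by_cases hT : 0 < T
  · obtain ⟨x0, hx0⟩ := h.exists_argmax (t := 0) ⟨le_rfl, hT⟩
    set m : ℝ := ‖curl (u 0) x0‖ + 1 with hm
    have hmpos : 0 < m := by positivity
    have hm0 : ∀ y, ‖curl (u 0) y‖ ≤ m := fun y => (hx0 y).trans (by linarith)
    -- the total integral
    set C : ℝ := 2 * ∫ s in (0 : ℝ)..T, g s with hC
    have hGc : ContinuousOn (fun s => 1 / (s * Φ s)) (Ioi 0) := by
      apply ContinuousOn.div continuousOn_const (continuousOn_id.mul hΦc)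
      intro s hs
      exact (mul_pos hs (hΦpos s hs)).ne'
    have hGint : ∀ a b : ℝ, 0 < a → 0 < b →
        IntervalIntegrable (fun s => 1 / (s * Φ s)) volume a b := by
      intro a b ha hb
      apply ContinuousOn.intervalIntegrable
      apply hGc.mono
      intro s hs
      exact lt_of_lt_of_le (lt_min ha hb) hs.1
    obtain ⟨R, hR⟩ := (hΦ.eventually_gt_atTop (C + ∫ s in (1 : ℝ)..m, 1 / (s * Φ s))).exists
    have hbig : ∀ᶠ R : ℝ in atTop, C + (∫ s in (1 : ℝ)..m, 1 / (s * Φ s))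
        < ∫ s in (1 : ℝ)..R, 1 / (s * Φ s) := hΦ.eventually_gt_atTop _
    obtain ⟨B, hB⟩ := (hbig.and (eventually_ge_atTop m)).exists_forall_of_atTop
    refine ⟨B, ?_⟩
    intro t ht x
    by_contra hcon
    rw [not_le] at hcon
    obtain ⟨h1, h2⟩ := hB _ hcon.le
    have h3 := main m hmpos hm0 t ht x h2
    have h4 : ∫ s in (0 : ℝ)..t, g s ≤ ∫ s in (0 : ℝ)..T, g s := by
      apply intervalIntegral.integral_mono_interval le_rfl ht.1 ht.2.le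
      · rw [EventuallyLE, ae_restrict_iff' measurableSet_Ioc]
        have hne : ∀ᵐ s : ℝ, s ≠ T := by
          exact (measure_eq_zero_iff_ae_notMem.mp (by simp : volume ({T} : Set ℝ) = 0)).mono
            (fun s hs => by simpa using hs)
        filter_upwards [hne, hg0] with s hs hgs hs'
        exact hgs ⟨hs'.1, lt_of_le_of_ne hs'.2 hs⟩
      · rw [intervalIntegrable_iff_integrableOn_Ioo_of_le hT.le]
        exact hg
    have h5 : (∫ s in (1 : ℝ)..‖curl (u t) x‖, 1 / (s * Φ s))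
        = (∫ s in (1 : ℝ)..m, 1 / (s * Φ s)) + ∫ s in m..‖curl (u t) x‖, 1 / (s * Φ s) :=
      (intervalIntegral.integral_add_adjacent_intervals (hGint 1 m one_pos hmpos)
        (hGint m _ hmpos (hmpos.trans_le h2))).symm
    rw [h5] at h1
    linarith
  · exact ⟨0, fun t ht => absurd (ht.1.trans_lt ht.2) hT⟩

end Pool.Agent.Work.MP_b0497c_an.RankOneResult
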