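import Mathlib
import Pool.Agent.Work.MP_b0497c_an.Coupled

set_option autoImplicit false

namespace Pool.Agent.Work.MP_b0497c_an.StretchingResult

open Set MeasureTheory Filter Topology RealInnerProductSpace
open Pool.Agent.Work.MP_b0497c_an (IsClassicalSolution curl HasHessian PosC2 strain hessP
  MostStretched)

/-- Comparison principle for the maximal rate of stretching: a lower bound of the pressure
Hessian, only in a most stretched direction and only at a point of maximal stretching, gives a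
majorant of the vorticity and of the rate of strain. -/
theorem result (T : ℝ) (u : ℝ → EuclideanSpace ℝ (Fin 3) → EuclideanSpace ℝ (Fin 3))
    (p : ℝ → EuclideanSpace ℝ (Fin 3) → ℝ) (h : IsClassicalSolution T u p) (hp : HasHessian T p)
    (t0 : ℝ) (ht0 : t0 ∈ Ico 0 T) (k : ℝ → ℝ) (K : ℝ) (hK : 0 ≤ K) (f f' f'' : ℝ → ℝ)
    (hf : PosC2 t0 T f f' f'')
    (hode : ∀ t ∈ Ioo t0 T, k t * f t + K * f t ^ 3 ≤ f'' t)
    (hvort : ∀ x, ‖curl (u t0) x‖ ≤ f t0)
    (hstrain : ∀ x n : EuclideanSpace ℝ (Fin 3), ‖n‖ = 1 → strain u t0 x n ≤ f' t0 / f t0)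
    (hpress : ∀ᵐ t, t ∈ Ioo t0 T → ∃ x n y : EuclideanSpace ℝ (Fin 3), MostStretched u t x n ∧
      1 / 4 * (‖curl (u t) x‖ ^ 2 - ⟪curl (u t) x, n⟫ ^ 2) - hessP p t x n
        ≤ k t + K * ‖curl (u t) y‖ ^ 2) :
    ∀ t ∈ Ico t0 T, ∀ x : EuclideanSpace ℝ (Fin 3), ‖curl (u t) x‖ ≤ f t ∧
      ∀ n : EuclideanSpace ℝ (Fin 3), ‖n‖ = 1 →
        strain u t x n ≤ f' t / f t ∧ -2 * (f' t / f t) ≤ strain u t x n := by
  obtain ⟨hψ0, hψ1, hψ2, hψ3⟩ := hf
  have hstr : ∀ t ∈ Ioo 0 T, ∀ x, ⟪curl (u t) x, fderiv ℝ (u t) x (curl (u t) x)⟫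
      ≤ 1 * Pool.Agent.Work.MP_b0497c_an.rate u 1 t * ‖curl (u t) x‖ ^ 2 := by
    intro t ht x
    have htT : t ∈ Ico 0 T := Ioo_subset_Ico_self ht
    apply Pool.Agent.Work.MP_b0497c_an.quad_le_of_unit
    intro ζ hζ
    have := Pool.Agent.Work.MP_b0497c_an.le_rate (s := 1) h htT x hζ
    linarith
  have main : ∀ t ∈ Ico t0 T, Pool.Agent.Work.MP_b0497c_an.rate u 1 t
      ≤ 1 * (f' t / f t) ∧ ∀ x, ‖curl (u t) x‖ ≤ f t := by
    intro t ht
    refine Pool.Agent.Work.MP_b0497c_an.coupled_compare h hp (s := 1) (by norm_num)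
      (d := 1) (by norm_num) hstr ht0 (k := k) (V := f) (V' := f') hK hψ0 hψ1 hψ2 hψ3
      (fun r hr => (hψ0 r hr).le) hψ1 ?_ ?_ ?_ ?_ hvort ht
    · intro r hr
      have := (hψ0 r hr).ne'
      field_simp
    · intro r hr
      have h1 := hode r hr
      have e1 : (k r + K * (f r) ^ 2) * f r = k r * f r + K * f r ^ 3 := by ring
      rw [e1]
      linarith
    · filter_upwards [hpress] with r hr hrI
      obtain ⟨x, η, y, ⟨hη, hmin⟩, hle⟩ := hr hrI
      refine ⟨x, η, y, ⟨hη, ?_⟩, ?_⟩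
      · intro z ζ hζ
        have := hmin z ζ hζ
        unfold strain at this
        linarith
      · unfold hessP at hle
        linarith
    · obtain ⟨x, η, hx⟩ := Pool.Agent.Work.MP_b0497c_an.exists_isExt h ht0 1
      rw [Pool.Agent.Work.MP_b0497c_an.rate_eq hx]
      have := hstrain x η hx.1
      unfold strain at this
      linarith
  have hup : ∀ t ∈ Ico t0 T, ∀ x η : EuclideanSpace ℝ (Fin 3), ‖η‖ = 1 →
      ⟪fderiv ℝ (u t) x η, η⟫ ≤ f' t / f t := by
    intro t ht x η hη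
    have h1 := Pool.Agent.Work.MP_b0497c_an.le_rate (s := 1) h ⟨ht0.1.trans ht.1, ht.2⟩ x hη
    have h2 := (main t ht).1
    linarith
  intro t ht x
  refine ⟨(main t ht).2 x, fun η hη => ⟨hup t ht x η hη, ?_⟩⟩
  have htr := h.div_free t ⟨ht0.1.trans ht.1, ht.2⟩ x
  have h1 := Pool.Agent.Work.MP_b0497c_an.trace_upper (-(fderiv ℝ (u t) x))
    (q := -(f' t / f t)) (by
      have : ((-(fderiv ℝ (u t) x) : EuclideanSpace ℝ (Fin 3) →L[ℝ]
          EuclideanSpace ℝ (Fin 3)) : EuclideanSpace ℝ (Fin 3) →ₗ[ℝ]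
          EuclideanSpace ℝ (Fin 3)) = -((fderiv ℝ (u t) x :
          EuclideanSpace ℝ (Fin 3) →ₗ[ℝ] EuclideanSpace ℝ (Fin 3))) := rfl
      rw [this, map_neg, htr, neg_zero])
    (fun ζ hζ => by
      rw [_root_.neg_apply, inner_neg_left]
      have := hup t ht x ζ hζ
      linarith) hη
  rw [_root_.neg_apply, inner_neg_left] at h1
  unfold strain
  linarith

end Pool.Agent.Work.MP_b0497c_an.StretchingResult
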